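import Pool.Agent.Helper50.UC.Z2
import Pool.Agent.Helper21.FC.A3
import Pool.Agent.Helper77.KZ.Main

/-!
MP_0aa406_nt, project UC (helper50): the theorem.
-/

set_option autoImplicit false

namespace Pool.Agent.Helper50.UC

open Finset Filter Pool.Agent.Helper21.FC

private theorem Z3_cast {p n : ℕ} (hp : 2 ≤ p) : ((p ^ n - 1 : ℕ) : ℤ) = NN p n := by
  have h1 : 1 ≤ p ^ n := Nat.one_le_pow _ _ (by omega)
  unfold NN
  rw [Nat.cast_sub h1]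
  push_cast
  ring

private theorem Z3_max (a b x : ℝ) : x - min a b * x = max (1 - a) (1 - b) * x := by
  rcases le_total a b with h | h
  · rw [min_eq_left h, max_eq_left (by linarith)]
    ring
  · rw [min_eq_right h, max_eq_right (by linarith)]
    ring

/-- bounded degrees (KZ.main_bound) -/
private theorem Z3_small (ε : ℝ) (N0 : ℕ) : ∃ P : ℕ, ∀ p : ℕ, p.Prime → P ≤ p →
    ∀ m l : ℕ, 0 < m → m < N0 → l.Prime → l ≠ 2 → l ∣ m →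
    (∀ q : ℕ, q.Prime → q ≠ 2 → q ∣ m → l ≤ q) →
    ∀ n : ℕ, 0 < n → m ∣ n → ∀ d : ℕ,
      Nat.Coprime d (p ^ n - 1) → (∀ k : ℕ, ¬ d ≡ p ^ k [MOD p ^ m - 1]) →
      ∃ a b : ℕ, 0 < a ∧ a < p ^ n - 1 ∧ b < p ^ n - 1 ∧ (p ^ n - 1) ∣ d * a + b ∧
        (((Nat.digits p a).sum + (Nat.digits p b).sum : ℕ) : ℝ) ≤
          max (1 / 2 + ε) (((l : ℝ) + 1) / (2 * l)) * n * ((p : ℝ) - 1) := by
  have key : ∀ x : ℕ × ℕ, ∃ P : ℕ, 0 < x.1 → x.2.Prime → x.2 ≠ 2 → x.2 ∣ x.1 →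
      (∀ q : ℕ, q.Prime → q ≠ 2 → q ∣ x.1 → x.2 ≤ q) → ∀ p : ℕ, P ≤ p → ∀ n : ℕ, 0 < n →
      x.1 ∣ n → ∀ d : ℕ, Nat.Coprime d (p ^ n - 1) → (∀ k : ℕ, ¬ d ≡ p ^ k [MOD p ^ x.1 - 1]) →
      ∃ a b : ℕ, 0 < a ∧ a < p ^ n - 1 ∧ b < p ^ n - 1 ∧ (p ^ n - 1) ∣ d * a + b ∧
        2 * x.2 * ((Nat.digits p a).sum + (Nat.digits p b).sum) ≤ (x.2 + 1) * n * (p - 1) := by
    intro x
    by_cases h : 0 < x.1 ∧ x.2.Prime ∧ x.2 ≠ 2 ∧ x.2 ∣ x.1 ∧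
        (∀ q : ℕ, q.Prime → q ≠ 2 → q ∣ x.1 → x.2 ≤ q)
    · obtain ⟨h1, h2, h3, h4, h5⟩ := h
      obtain ⟨P, hP⟩ := Helper77.KZ.main_bound x.1 h1 x.2 h2 h3 h4 h5
      exact ⟨P, fun _ _ _ _ _ => hP⟩
    · exact ⟨0, fun h1 h2 h3 h4 h5 => absurd ⟨h1, h2, h3, h4, h5⟩ h⟩
  choose P hP using key
  refine ⟨(range N0 ×ˢ range N0).sup P, ?_⟩
  intro p hp hpP m l hm hmN hl hl2 hlm hlq n hn hmn d hd hnd
  have hlN : l < N0 := lt_of_le_of_lt (Nat.le_of_dvd hm hlm) hmN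
  have h1 : P (m, l) ≤ p := by
    refine le_trans (Finset.le_sup (f := P) ?_) hpP
    rw [Finset.mem_product, Finset.mem_range, Finset.mem_range]
    exact ⟨hmN, hlN⟩
  obtain ⟨a, b, h2, h3, h4, h5, h6⟩ := hP (m, l) hm hl hl2 hlm hlq p h1 n hn hmn d hd hnd
  refine ⟨a, b, h2, h3, h4, h5, ?_⟩
  have hl0 : (0 : ℝ) < l := by exact_mod_cast hl.pos
  have hp1 : 1 ≤ p := hp.one_le
  have h7 : (((2 * l * ((Nat.digits p a).sum + (Nat.digits p b).sum) : ℕ)) : ℝ) ≤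
      (((l + 1) * n * (p - 1) : ℕ) : ℝ) := by exact_mod_cast h6
  obtain ⟨S, hS⟩ : ∃ S : ℕ, S = (Nat.digits p a).sum + (Nat.digits p b).sum := ⟨_, rfl⟩
  rw [← hS] at h7 ⊢
  push_cast [Nat.cast_sub hp1] at h7
  have hp0 : (0 : ℝ) ≤ (p : ℝ) - 1 := by
    have : (1 : ℝ) ≤ p := by exact_mod_cast hp1
    linarith
  have h8 : (S : ℝ) ≤ ((l : ℝ) + 1) / (2 * l) * n * ((p : ℝ) - 1) := by
    have h9 : ((l : ℝ) + 1) / (2 * l) * n * ((p : ℝ) - 1) =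
        (((l : ℝ) + 1) * n * ((p : ℝ) - 1)) / (2 * l) := by
      field_simp
    rw [h9, le_div_iff₀ (by positivity)]
    linarith
  refine h8.trans ?_
  have h10 : (0 : ℝ) ≤ (n : ℝ) := Nat.cast_nonneg _
  exact mul_le_mul_of_nonneg_right (mul_le_mul_of_nonneg_right (le_max_right _ _) h10) hp0

theorem main_uc (ε : ℝ) (hε : 0 < ε) : ∃ P : ℕ, ∀ p : ℕ, p.Prime → P ≤ p →
    ∀ m l : ℕ, 0 < m → l.Prime → l ≠ 2 → l ∣ m →
    (∀ q : ℕ, q.Prime → q ≠ 2 → q ∣ m → l ≤ q) →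
    ∀ n : ℕ, 0 < n → m ∣ n → ∀ d : ℕ,
      Nat.Coprime d (p ^ n - 1) → (∀ k : ℕ, ¬ d ≡ p ^ k [MOD p ^ m - 1]) →
      ∃ a b : ℕ, 0 < a ∧ a < p ^ n - 1 ∧ b < p ^ n - 1 ∧ (p ^ n - 1) ∣ d * a + b ∧
        (((Nat.digits p a).sum + (Nat.digits p b).sum : ℕ) : ℝ) ≤
          max (1 / 2 + ε) (((l : ℝ) + 1) / (2 * l)) * n * ((p : ℝ) - 1) := by
  obtain ⟨N0, hN0⟩ := large (min ε (1 / 4)) (lt_min hε (by norm_num))
    (lt_of_le_of_lt (min_le_right _ _) (by norm_num))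
  obtain ⟨P1, hP1⟩ := Z3_small ε N0
  refine ⟨max N0 P1, ?_⟩
  intro p hp hpP m l hm hl hl2 hlm hlq n hn hmn d hd hk
  rcases Nat.lt_or_ge m N0 with hmN | hmN
  · exact hP1 p hp ((le_max_right _ _).trans hpP) m l hm hmN hl hl2 hlm hlq n hn hmn d hd hk
  have hp2 : 2 ≤ p := hp.two_le
  obtain ⟨t, rfl⟩ := hmn
  have ht : 0 < t := Nat.pos_of_ne_zero (by rintro rfl; simp at hn)
  have hdvd : (p ^ m - 1) ∣ (p ^ (m * t) - 1) := by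
    have := Nat.sub_dvd_pow_sub_pow (p ^ m) 1 t
    rwa [one_pow, ← pow_mul] at this
  have hdm : Nat.Coprime d (p ^ m - 1) := Nat.Coprime.coprime_dvd_right hdvd hd
  have hcop : IsCoprime (d : ℤ) (NN p m) := by
    rw [← Z3_cast hp2]
    exact Nat.isCoprime_iff_coprime.mpr hdm
  have hnd : ∀ j : ℕ, ¬ NN p m ∣ (d : ℤ) - (p : ℤ) ^ j := by
    intro j hj
    apply hk j
    rw [← Z3_cast hp2] at hj
    have h2 : ((p ^ m - 1 : ℕ) : ℤ) ∣ (d : ℤ) - ((p ^ j : ℕ) : ℤ) := by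
      push_cast at hj ⊢
      exact hj
    exact (Nat.modEq_iff_dvd.mpr h2).symm
  have hg := hN0 p hp ((le_max_left _ _).trans hpP) m hmN l hl.one_le hlq (d : ℤ) hcop hnd
  have hl0 : (0 : ℝ) < l := by exact_mod_cast hl.pos
  have hm0 : (0 : ℝ) < m := by exact_mod_cast hm
  have hc : (min (1 / 2 - min ε (1 / 4)) (1 / 2 - 1 / (2 * l)) * m : ℝ) =
      m - (max (1 - (1 / 2 - min ε (1 / 4))) (1 - (1 / 2 - 1 / (2 * l))) * m) := by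
    rw [← Z3_max]
    ring
  rw [hc] at hg
  have h3 := digits_of_gain hp2 hm d hdm hg
  obtain ⟨a, b, h4, h5, h6, h7, h8⟩ := lift_real hp2 m t hm ht d _ h3
  refine ⟨a, b, h4, h5, h6, h7, h8.trans ?_⟩
  have h9 : min ε (1 / 4) ≤ ε := min_le_left _ _
  have h10 : max (1 - (1 / 2 - min ε (1 / 4))) (1 - (1 / 2 - 1 / (2 * (l : ℝ)))) ≤
      max (1 / 2 + ε) ((l + 1) / (2 * l)) := by
    refine max_le_max (by linarith) (le_of_eq ?_)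
    field_simp
    ring
  have hp1 : (0 : ℝ) ≤ (p : ℝ) - 1 := by
    have : (2 : ℝ) ≤ p := by exact_mod_cast hp2
    linarith
  have ht0 : (0 : ℝ) ≤ (t : ℝ) := Nat.cast_nonneg _
  obtain ⟨X, hX⟩ : ∃ X : ℝ, X = max (1 / 2 + ε) (((l : ℝ) + 1) / (2 * l)) := ⟨_, rfl⟩
  rw [← hX] at h10 ⊢
  have h12 : (max (1 - (1 / 2 - min ε (1 / 4))) (1 - (1 / 2 - 1 / (2 * (l : ℝ)))) * m) *
      ((p : ℝ) - 1) ≤ (X * m) * ((p : ℝ) - 1) :=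
    mul_le_mul_of_nonneg_right (mul_le_mul_of_nonneg_right h10 hm0.le) hp1
  refine (mul_le_mul_of_nonneg_left h12 ht0).trans (le_of_eq ?_)
  push_cast
  ring

end Pool.Agent.Helper50.UC
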