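import Mathlib

/-!
MP_0aa406_nt, project UC (helper50): divisors of monomials.
-/

set_option autoImplicit false

namespace Pool.Agent.Helper50.UC

open Finset Polynomial

private theorem A1_eq_monomial {R : Type} [CommRing R] (P : R[X])
    (h : P.natDegree = P.natTrailingDegree) : P = C (P.coeff P.natDegree) * X ^ P.natDegree := by
  ext n
  rw [coeff_C_mul_X_pow]
  rcases lt_trichotomy n P.natDegree with hn | hn | hn
  · rw [if_neg hn.ne, coeff_eq_zero_of_lt_natTrailingDegree (h ▸ hn)]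
  · rw [if_pos hn, hn]
  · rw [if_neg hn.ne', coeff_eq_zero_of_natDegree_lt hn]

/-- factors of a monomial over a domain are monomials -/
theorem monomial_of_mul {R : Type} [CommRing R] [IsDomain R] (P Q : R[X]) (a b : ℕ) (s : R)
    (hs : s ≠ 0) (h : X ^ a * (P * Q) = C s * X ^ b) :
    ∃ (x y : R) (i j : ℕ), x ≠ 0 ∧ y ≠ 0 ∧ P = C x * X ^ i ∧ Q = C y * X ^ j ∧ a + i + j = b := by
  have hX : (X : R[X]) ^ a ≠ 0 := pow_ne_zero _ X_ne_zero
  have hR : C s * X ^ b ≠ (0 : R[X]) :=
    mul_ne_zero (C_ne_zero.2 hs) (pow_ne_zero _ X_ne_zero)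
  have hPQ : P * Q ≠ 0 := by
    intro h0
    rw [h0, mul_zero] at h
    exact hR h.symm
  have hP : P ≠ 0 := left_ne_zero_of_mul hPQ
  have hQ : Q ≠ 0 := right_ne_zero_of_mul hPQ
  have d1 : a + (P.natDegree + Q.natDegree) = b := by
    have h1 := congrArg natDegree h
    rwa [natDegree_mul hX hPQ, natDegree_mul hP hQ, natDegree_X_pow,
      natDegree_C_mul_X_pow _ _ hs] at h1
  have t1 : (C s * X ^ b : R[X]).natTrailingDegree = b := by
    rw [C_mul_X_pow_eq_monomial, natTrailingDegree_monomial hs]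
  have t2 : (X ^ a : R[X]).natTrailingDegree = a := by
    rw [← monomial_one_right_eq_X_pow, natTrailingDegree_monomial one_ne_zero]
  have d2 : a + (P.natTrailingDegree + Q.natTrailingDegree) = b := by
    have h1 := congrArg natTrailingDegree h
    rwa [natTrailingDegree_mul hX hPQ, natTrailingDegree_mul hP hQ, t2, t1] at h1
  have l1 := natTrailingDegree_le_natDegree P
  have l2 := natTrailingDegree_le_natDegree Q
  have eP : P.natDegree = P.natTrailingDegree := by omega
  have eQ : Q.natDegree = Q.natTrailingDegree := by omega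
  refine ⟨P.coeff P.natDegree, Q.coeff Q.natDegree, P.natDegree, Q.natDegree,
    leadingCoeff_ne_zero.2 hP, leadingCoeff_ne_zero.2 hQ, A1_eq_monomial P eP,
    A1_eq_monomial Q eQ, by omega⟩

/- PROOF. Sum of the relation over `u`: `X ^ a * (∑ F) * (∑ F') = C H * X ^ b`, monomial_of_mul. -/
theorem sum_monomial {k : ℕ} [NeZero k] (F F' : ZMod k → ℤ[X]) (H : ℤ) (hH : H ≠ 0) (a b : ℕ)
    (c : ZMod k) (h : ∀ u : ZMod k,
      X ^ a * ∑ i, F (u - i) * F' i = if u = c then C H * X ^ b else (0 : ℤ[X])) :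
    ∃ (s s' : ℤ) (j j' : ℕ), s ≠ 0 ∧ s' ≠ 0 ∧ ∑ i, F i = C s * X ^ j ∧ ∑ i, F' i = C s' * X ^ j' ∧
      a + j + j' = b := by
  have key : X ^ a * ((∑ i, F i) * ∑ i, F' i) = C H * X ^ b := by
    calc X ^ a * ((∑ i, F i) * ∑ i, F' i)
        = ∑ u : ZMod k, X ^ a * ∑ i, F (u - i) * F' i := by
          rw [← Finset.mul_sum, Finset.sum_comm]
          congr 1
          rw [Finset.mul_sum]
          refine Finset.sum_congr rfl fun i _ => ?_
          rw [← Finset.sum_mul]
          congr 1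
          exact (Equiv.sum_comp (Equiv.subRight i) F).symm
      _ = ∑ u : ZMod k, if u = c then C H * X ^ b else (0 : ℤ[X]) :=
          Finset.sum_congr rfl fun u _ => h u
      _ = C H * X ^ b := by rw [Finset.sum_ite_eq' Finset.univ c, if_pos (Finset.mem_univ _)]
  obtain ⟨s, s', j, j', h1, h2, h3, h4, h5⟩ := monomial_of_mul _ _ a b H hH key
  exact ⟨s, s', j, j', h1, h2, h3, h4, h5⟩

end Pool.Agent.Helper50.UC
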