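import Pool.Agent.Helper50.UC.A1

/-!
MP_0aa406_nt, project UC (helper50): small degrees force homogeneity.
-/

set_option autoImplicit false

namespace Pool.Agent.Helper50.UC

open Finset Polynomial

/-- the Fourier transform of a family of integer polynomials -/
private noncomputable def A2_hat {k : ℕ} [NeZero k] (F : ZMod k → ℤ[X]) (t : ZMod k) : ℂ[X] :=
  ∑ u, C (ZMod.stdAddChar (-(u * t)) : ℂ) * (F u).map (Int.castRingHom ℂ)

private theorem A2_coeff {k : ℕ} [NeZero k] (F : ZMod k → ℤ[X]) (t : ZMod k) (e : ℕ) :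
    (A2_hat F t).coeff e = ZMod.dft (fun u => (((F u).coeff e : ℤ) : ℂ)) t := by
  rw [A2_hat, finsetSum_coeff, ZMod.dft_apply]
  refine Finset.sum_congr rfl fun u _ => ?_
  rw [coeff_C_mul, coeff_map, smul_eq_mul]
  rfl

private theorem A2_natDegree {k : ℕ} [NeZero k] (F : ZMod k → ℤ[X]) (j : ℕ)
    (hF : ∀ u, (F u).natDegree ≤ j) (t : ZMod k) : (A2_hat F t).natDegree ≤ j := by
  refine natDegree_sum_le_of_forall_le _ _ fun u _ => ?_
  refine (natDegree_C_mul_le _ _).trans ?_
  exact (natDegree_map_le).trans (hF u)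

private theorem A2_conv {k : ℕ} [NeZero k] (F F' : ZMod k → ℤ[X]) (t : ZMod k) :
    A2_hat F t * A2_hat F' t = A2_hat (fun v => ∑ i, F (v - i) * F' i) t := by
  have h1 : A2_hat F t * A2_hat F' t = ∑ i, ∑ u, (C (ZMod.stdAddChar (-(u * t)) : ℂ) *
      (F u).map (Int.castRingHom ℂ)) * (C (ZMod.stdAddChar (-(i * t)) : ℂ) *
      (F' i).map (Int.castRingHom ℂ)) := by
    rw [A2_hat, A2_hat, Finset.sum_mul_sum, Finset.sum_comm]
  have h2 : ∀ i : ZMod k, (∑ u, (C (ZMod.stdAddChar (-(u * t)) : ℂ) *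
      (F u).map (Int.castRingHom ℂ)) * (C (ZMod.stdAddChar (-(i * t)) : ℂ) *
      (F' i).map (Int.castRingHom ℂ))) =
      ∑ v, C (ZMod.stdAddChar (-(v * t)) : ℂ) *
        ((F (v - i) * F' i).map (Int.castRingHom ℂ)) := by
    intro i
    rw [← Equiv.sum_comp (Equiv.subRight i)]
    refine Finset.sum_congr rfl fun v _ => ?_
    simp only [Equiv.subRight_apply]
    have h3 : (ZMod.stdAddChar (-(v * t)) : ℂ) =
        ZMod.stdAddChar (-((v - i) * t)) * ZMod.stdAddChar (-(i * t)) := by
      rw [← AddChar.map_add_eq_mul]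
      congr 1
      ring
    rw [h3, C_mul, Polynomial.map_mul]
    ring
  rw [h1, A2_hat, Finset.sum_congr rfl fun i _ => h2 i, Finset.sum_comm]
  refine Finset.sum_congr rfl fun v _ => ?_
  rw [← Finset.mul_sum, Polynomial.map_sum]

/- PROOF. For the additive character `ψ_t (u) = exp (2 π i t u / k)` of `ZMod k` (ZMod.stdAddChar) put
`F^ t = ∑_u C (ψ_t u) * (F u mapped to ℂ[X])`; the relation gives
`X ^ a * (F^ t * F'^ t) = C (H ψ_t c) * X ^ b`, so by monomial_of_mul `F^ t = C x_t X ^ i_t`,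
`F'^ t = C y_t X ^ i'_t`, `a + i_t + i'_t = b`. As the degrees are `≤ j`, `≤ j'` and `a + j + j' = b`,
`i_t = j` for all `t`. So for `e ≠ j` all the values of the Fourier transform (ZMod.dft) of
`u ↦ (F u).coeff e` vanish, hence the function vanishes. -/
theorem homogeneous {k : ℕ} [NeZero k] (F F' : ZMod k → ℤ[X]) (H : ℤ) (hH : H ≠ 0) (a b : ℕ)
    (c : ZMod k) (h : ∀ u : ZMod k,
      X ^ a * ∑ i, F (u - i) * F' i = if u = c then C H * X ^ b else (0 : ℤ[X]))
    (j j' : ℕ) (hj : a + j + j' = b) (hF : ∀ u, (F u).natDegree ≤ j)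
    (hF' : ∀ u, (F' u).natDegree ≤ j') :
    ∀ u, F u = C ((F u).coeff j) * X ^ j := by
  have hprod : ∀ t : ZMod k, X ^ a * (A2_hat F t * A2_hat F' t) =
      C ((ZMod.stdAddChar (-(c * t)) : ℂ) * (H : ℂ)) * X ^ b := by
    intro t
    rw [A2_conv, A2_hat, Finset.mul_sum]
    have h4 : ∀ v : ZMod k, X ^ a * (C (ZMod.stdAddChar (-(v * t)) : ℂ) *
        (∑ i, F (v - i) * F' i).map (Int.castRingHom ℂ)) =
        if v = c then C ((ZMod.stdAddChar (-(c * t)) : ℂ) * (H : ℂ)) * X ^ b else 0 := by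
      intro v
      have h5 := congrArg (Polynomial.map (Int.castRingHom ℂ)) (h v)
      rw [Polynomial.map_mul, Polynomial.map_pow, Polynomial.map_X] at h5
      rw [mul_left_comm, h5]
      split_ifs with hv
      · rw [hv, Polynomial.map_mul, Polynomial.map_C, Polynomial.map_pow, Polynomial.map_X,
          ← mul_assoc, ← C_mul]
        rfl
      · rw [Polynomial.map_zero, mul_zero]
    rw [Finset.sum_congr rfl fun v _ => h4 v, Finset.sum_ite_eq' Finset.univ c]
    simp
  have hzero : ∀ e : ℕ, e ≠ j → ∀ u, (F u).coeff e = 0 := by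
    intro e he
    have h6 : ZMod.dft (fun u => (((F u).coeff e : ℤ) : ℂ)) = 0 := by
      funext t
      rw [← A2_coeff F t e]
      have hne : (ZMod.stdAddChar (-(c * t)) : ℂ) * (H : ℂ) ≠ 0 := by
        refine mul_ne_zero ?_ (by exact_mod_cast hH)
        intro h0
        have h7 := AddChar.map_add_eq_mul (ZMod.stdAddChar (N := k)) (-(c * t)) (c * t)
        rw [h0, zero_mul, neg_add_cancel, AddChar.map_zero_eq_one] at h7
        exact one_ne_zero h7
      obtain ⟨x, y, i, i', hx, hy, hFx, hFy, hab⟩ :=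
        monomial_of_mul (A2_hat F t) (A2_hat F' t) a b _ hne (hprod t)
      have d1 : i ≤ j := by
        have := A2_natDegree F j hF t
        rw [hFx, natDegree_C_mul_X_pow i x hx] at this
        exact this
      have d2 : i' ≤ j' := by
        have := A2_natDegree F' j' hF' t
        rw [hFy, natDegree_C_mul_X_pow i' y hy] at this
        exact this
      have d3 : i = j := by omega
      rw [hFx, coeff_C_mul, coeff_X_pow, if_neg (by omega), mul_zero]
      rfl
    have h8 := (LinearEquiv.map_eq_zero_iff ZMod.dft).1 h6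
    intro u
    have := congrFun h8 u
    simpa using this
  intro u
  ext e
  rw [coeff_C_mul, coeff_X_pow]
  by_cases he : e = j
  · subst he
    simp
  · rw [if_neg he, mul_zero, hzero e he u]

end Pool.Agent.Helper50.UC
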