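import Pool.Agent.Helper50.UC.Defs
import Pool.Agent.Helper21.FC.A1
import Pool.Agent.Helper21.FC.B3a

/-!
MP_0aa406_nt, project UC (helper50): mean weight of a number with uniform digits `< D`.
-/

set_option autoImplicit false

namespace Pool.Agent.Helper50.UC

open Finset Pool.Agent.Helper21.FC

theorem B1_sum_id (D : ℕ) (hD : 1 ≤ D) :
    ∑ x : Fin D, ((x : ℕ) : ℝ) = (D : ℝ) * ((D : ℝ) - 1) / 2 := by
  rw [Fin.sum_univ_eq_sum_range (fun i => ((i : ℕ) : ℝ)) D]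
  have h3 : ((∑ i ∈ range D, i : ℕ) : ℝ) * 2 = (D : ℝ) * ((D : ℝ) - 1) := by
    have h4 := Finset.sum_range_id_mul_two D
    have h5 : ((D - 1 : ℕ) : ℝ) = (D : ℝ) - 1 := by
      rw [Nat.cast_sub hD]; simp
    rw [← h5]
    exact_mod_cast h4
  push_cast at h3
  linarith

theorem B1_marg {n D : ℕ} (hD : 1 ≤ D) (j : Fin n) :
    ∑ c : Fin n → Fin D, (((c j : Fin D) : ℕ) : ℝ) = (D : ℝ) ^ n * (((D : ℝ) - 1) / 2) := by
  have h1 : ∀ c : Fin n → Fin D, (((c j : Fin D) : ℕ) : ℝ)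
      = ∏ i, (if i = j then (((c i : Fin D) : ℕ) : ℝ) else 1) := by
    intro c
    rw [Finset.prod_ite_eq' Finset.univ j, if_pos (Finset.mem_univ _)]
  rw [Finset.sum_congr rfl fun c _ => h1 c,
    B3a_prod (fun i x => if i = j then ((x : ℕ) : ℝ) else 1)]
  have h2 : ∀ i : Fin n, ∑ x : Fin D, (if i = j then ((x : ℕ) : ℝ) else 1)
      = (D : ℝ) * (if i = j then ((D : ℝ) - 1) / 2 else 1) := by
    intro i
    by_cases h : i = j
    · simp only [if_pos h]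
      rw [B1_sum_id D hD]
      ring
    · simp only [if_neg h]
      simp
  rw [Finset.prod_congr rfl fun i _ => h2 i, Finset.prod_mul_distrib, Finset.prod_const,
    Finset.card_univ, Fintype.card_fin, Finset.prod_ite_eq' Finset.univ j,
    if_pos (Finset.mem_univ _)]

theorem B1_W_le {p n D : ℕ} (hp : 2 ≤ p) (hn : 1 ≤ n) (h : ℕ) (c : Fin n → Fin D) :
    W p n ((h : ℤ) * dg p c) ≤ ∑ j : Fin n, (h : ℝ) * (((c j : Fin D) : ℕ) : ℝ) / ((p : ℝ) - 1) := by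
  have h1 : (h : ℤ) * dg p c = ∑ j : Fin n, (p : ℤ) ^ (j : ℕ) * (((h * (c j : ℕ) : ℕ)) : ℤ) := by
    unfold dg
    rw [Finset.mul_sum]
    refine Finset.sum_congr rfl fun j _ => ?_
    push_cast
    ring
  rw [h1]
  refine (B3a_W_sum hp hn Finset.univ _).trans ?_
  refine Finset.sum_le_sum fun j _ => ?_
  rw [W_pow_mul hp hn]
  refine (W_le_self hp hn _).trans (le_of_eq ?_)
  push_cast
  ring

/- PROOF. `h * dg p c = sum_j p ^ j * (h * c_j)`, so `W <= sum_j W (h c_j) <= sum_j h c_j / (p - 1)`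
(B3a_W_sum, W_pow_mul, W_le_self); sum over `c`: `sum_c c_j = D ^ n (D - 1) / 2` (compare B3a_marg,
B3a_prod). -/
theorem sum_W_dg {p n D : ℕ} (hp : 2 ≤ p) (hn : 1 ≤ n) (hD : 1 ≤ D) (h : ℕ) :
    ∑ c : Fin n → Fin D, W p n ((h : ℤ) * dg p c) ≤
      (D : ℝ) ^ n * ((h : ℝ) * n * ((D : ℝ) - 1) / (2 * ((p : ℝ) - 1))) := by
  refine (Finset.sum_le_sum fun c _ => B1_W_le hp hn h c).trans (le_of_eq ?_)
  rw [Finset.sum_comm]
  have hp1 : (p : ℝ) - 1 ≠ 0 := by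
    have : (2 : ℝ) ≤ p := by exact_mod_cast hp
    linarith
  have h3 : ∀ j : Fin n, ∑ c : Fin n → Fin D, (h : ℝ) * (((c j : Fin D) : ℕ) : ℝ) / ((p : ℝ) - 1)
      = (h : ℝ) * ((D : ℝ) ^ n * (((D : ℝ) - 1) / 2)) / ((p : ℝ) - 1) := by
    intro j
    rw [← Finset.sum_div, ← Finset.mul_sum, B1_marg hD j]
  rw [Finset.sum_congr rfl fun j _ => h3 j, Finset.sum_const, Finset.card_univ, Fintype.card_fin,
    nsmul_eq_mul]
  field_simp

end Pool.Agent.Helper50.UC
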