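import Pool.Agent.Helper21.FC.B2

/-!
MP_0aa406_nt, project UC (helper50): a geometric sum away from the integers.
-/

set_option autoImplicit false

namespace Pool.Agent.Helper50.UC

open Finset Pool.Agent.Helper21.FC

private theorem B2_norm_sin (ξ : ℝ) :
    |Real.sin (Real.pi * ξ)| = Real.sin (Real.pi * nrm ξ) := by
  have h0 : Real.pi * ξ = Real.pi * (ξ - (round ξ : ℝ)) + (round ξ : ℤ) * Real.pi := by ring
  rw [h0]
  have h1 : |Real.sin (Real.pi * (ξ - (round ξ : ℝ)) + (round ξ : ℤ) * Real.pi)|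
      = |Real.sin (Real.pi * (ξ - (round ξ : ℝ)))| := by
    rw [Real.sin_add_int_mul_pi, abs_mul, abs_zpow]
    simp
  rw [h1]
  unfold nrm
  have hr : |ξ - (round ξ : ℝ)| ≤ 1 / 2 := abs_sub_round ξ
  set y := ξ - (round ξ : ℝ) with hy
  have hpi := Real.pi_pos
  rcases le_total 0 y with h | h
  · rw [abs_of_nonneg h] at hr ⊢
    rw [abs_of_nonneg]
    apply Real.sin_nonneg_of_nonneg_of_le_pi
    · positivity
    · nlinarith
  · rw [abs_of_nonpos h] at hr ⊢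
    have : Real.sin (Real.pi * y) = - Real.sin (Real.pi * -y) := by
      rw [mul_neg, Real.sin_neg]; ring
    rw [this, abs_neg, abs_of_nonneg]
    apply Real.sin_nonneg_of_nonneg_of_le_pi
    · nlinarith
    · nlinarith

/- PROOF. geometric sum: the norm is at most `2 / |e(xi) - 1| = 1 / |sin (pi xi)|` and
`|sin (pi xi)| = sin (pi * nrm xi) >= 2 * nrm xi` (`nrm xi <= 1/2`, Real.mul_le_sin), see FC/B2. -/
theorem kernel_far (D : ℕ) (ξ x : ℝ) (hx : 0 < x) (hξ : x ≤ nrm ξ) :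
    ‖∑ c ∈ range D, Complex.exp (2 * Real.pi * Complex.I * (c * ξ : ℝ))‖ ≤ 1 / (2 * x) := by
  have hpi := Real.pi_pos
  set z : ℂ := Complex.exp (Complex.I * ((2 * Real.pi * ξ : ℝ) : ℂ)) with hz
  have hterm : ∀ c ∈ range D, Complex.exp (2 * Real.pi * Complex.I * (c * ξ : ℝ)) = z ^ c := by
    intro c _
    rw [hz, ← Complex.exp_nat_mul]
    congr 1
    push_cast
    ring
  rw [sum_congr rfl hterm]
  have hgeo : (∑ c ∈ range D, z ^ c) * (z - 1) = z ^ D - 1 := geom_sum_mul z D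
  have hz1 : ‖z‖ = 1 := by
    rw [hz, mul_comm]
    exact Complex.norm_exp_ofReal_mul_I _
  have hnum : ‖z ^ D - 1‖ ≤ 2 := by
    calc ‖z ^ D - 1‖ ≤ ‖z ^ D‖ + ‖(1 : ℂ)‖ := norm_sub_le _ _
      _ = 2 := by rw [norm_pow, hz1]; norm_num
  have hden : ‖z - 1‖ = 2 * |Real.sin (Real.pi * ξ)| := by
    rw [hz, Complex.norm_exp_I_mul_ofReal_sub_one]
    have : 2 * Real.pi * ξ / 2 = Real.pi * ξ := by ring
    rw [this, norm_mul, Real.norm_eq_abs, Real.norm_eq_abs]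
    norm_num
  have hnr : nrm ξ ≤ 1 / 2 := abs_sub_round ξ
  have hn0 : 0 ≤ nrm ξ := hx.le.trans hξ
  have hsin : 2 * nrm ξ ≤ |Real.sin (Real.pi * ξ)| := by
    rw [B2_norm_sin]
    have h := Real.mul_le_sin (x := Real.pi * nrm ξ) (by positivity) (by nlinarith)
    have h2 : 2 / Real.pi * (Real.pi * nrm ξ) = 2 * nrm ξ := by field_simp
    linarith
  have hd : 4 * x ≤ ‖z - 1‖ := by
    rw [hden]
    linarith
  have hprod : ‖∑ c ∈ range D, z ^ c‖ * ‖z - 1‖ ≤ 2 := by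
    rw [← norm_mul, hgeo]
    exact hnum
  have hN : 0 ≤ ‖∑ c ∈ range D, z ^ c‖ := norm_nonneg _
  have h5 : ‖∑ c ∈ range D, z ^ c‖ * (4 * x) ≤ 2 := (mul_le_mul_of_nonneg_left hd hN).trans hprod
  rw [le_div_iff₀ (by positivity)]
  linarith

end Pool.Agent.Helper50.UC
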