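import Pool.Agent.Helper50.UC.Defs
import Pool.Agent.Helper50.UC.B2
import Pool.Agent.Helper21.FC.B3b

/-!
MP_0aa406_nt, project UC (helper50): the exponential sum of a number with uniform digits.
-/

set_option autoImplicit false

namespace Pool.Agent.Helper50.UC

open Finset Pool.Agent.Helper21.FC

/-- the condition is invariant under multiplication of `m` by powers of `p`
(`nrm (m p ^ j / (p ^ n - 1))` depends on `j` modulo `n` only: B3b_period) -/
theorem far_shift {p n : ℕ} (hp : 2 ≤ p) (hn : 1 ≤ n) (U : ℝ) (m : ℤ)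
    (hm : ∃ j < n, U / p ≤ nrm ((m : ℝ) * (p : ℝ) ^ j / ((p : ℝ) ^ n - 1))) (x : ℕ) :
    ∃ j < n, U / p ≤ nrm (((m * (p : ℤ) ^ x : ℤ) : ℝ) * (p : ℝ) ^ j / ((p : ℝ) ^ n - 1)) := by
  induction x with
  | zero => simpa using hm
  | succ x ih =>
    obtain ⟨j, hj, h⟩ := ih
    rcases Nat.eq_zero_or_pos j with rfl | hj0
    · refine ⟨n - 1, by omega, ?_⟩
      have h1 := B3b_period hp hn (m * (p : ℤ) ^ x) 0
      have e : ((m * (p : ℤ) ^ (x + 1) : ℤ) : ℝ) * (p : ℝ) ^ (n - 1)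
          = ((m * (p : ℤ) ^ x : ℤ) : ℝ) * (p : ℝ) ^ (0 + n) := by
        obtain ⟨k, rfl⟩ : ∃ k, n = k + 1 := ⟨n - 1, by omega⟩
        rw [Nat.add_sub_cancel, zero_add]
        push_cast
        ring
      rw [e, h1]
      exact h
    · refine ⟨j - 1, by omega, ?_⟩
      have e : ((m * (p : ℤ) ^ (x + 1) : ℤ) : ℝ) * (p : ℝ) ^ (j - 1)
          = ((m * (p : ℤ) ^ x : ℤ) : ℝ) * (p : ℝ) ^ j := by
        obtain ⟨k, rfl⟩ : ∃ k, j = k + 1 := ⟨j - 1, by omega⟩
        rw [Nat.add_sub_cancel]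
        push_cast
        ring
      rw [e]
      exact h

/- PROOF. `exp (2 pi i m dg / N) = prod_j exp (2 pi i c_j (m p ^ j / N))`, so the sum over `c` is the
product over `j` of `sum_{c < D} exp (2 pi i c xi_j)`; the factor with `nrm xi_j >= U / p` is at most
`p / (2 U)` (kernel_far), the others at most `D`. Compare sum_om_exp in FC/B3b. -/
theorem sum_exp_dg {p n D : ℕ} (hp : 2 ≤ p) (hn : 1 ≤ n) (hD : 1 ≤ D) (U : ℝ) (hU : 0 < U) (m : ℤ)
    (hm : ∃ j < n, U / p ≤ nrm ((m : ℝ) * (p : ℝ) ^ j / ((p : ℝ) ^ n - 1))) :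
    ‖∑ c : Fin n → Fin D, Complex.exp (2 * Real.pi * Complex.I *
      (((m * dg p c : ℤ) : ℝ) / ((p : ℝ) ^ n - 1) : ℝ))‖ ≤ (D : ℝ) ^ n * ((p : ℝ) / (2 * U * D)) := by
  classical
  set ξ : ℕ → ℝ := fun j => (m : ℝ) * (p : ℝ) ^ j / ((p : ℝ) ^ n - 1) with hξ
  have hN := (B3b_pos hp hn).ne'
  have hp0 : (0 : ℝ) < p := by
    have : 0 < p := by omega
    exact_mod_cast this
  have hD0 : (0 : ℝ) < D := by
    have : 0 < D := by omega
    exact_mod_cast this
  have e1 : ∀ c : Fin n → Fin D,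
      Complex.exp (2 * Real.pi * Complex.I * (((m * dg p c : ℤ) : ℝ) / ((p : ℝ) ^ n - 1) : ℝ))
      = ∏ j : Fin n,
        Complex.exp (2 * Real.pi * Complex.I * ((((c j : Fin D) : ℕ) : ℝ) * ξ j : ℝ)) := by
    intro c
    rw [← Complex.exp_sum]
    congr 1
    rw [← mul_sum, ← Complex.ofReal_sum]
    congr 2
    unfold dg
    simp only [hξ]
    push_cast
    rw [mul_sum, sum_div]
    apply sum_congr rfl
    intro j _
    ring
  rw [sum_congr rfl (fun c _ => e1 c), ← Fintype.piFinset_univ,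
    ← prod_univ_sum (fun _ : Fin n => (univ : Finset (Fin D))) (fun j c =>
      Complex.exp (2 * Real.pi * Complex.I * (((c : ℕ) : ℝ) * ξ j : ℝ))),
    norm_prod]
  obtain ⟨j0, hj0, hj⟩ := hm
  have e2 : ∏ j : Fin n, ‖∑ c : Fin D,
      Complex.exp (2 * Real.pi * Complex.I * (((c : ℕ) : ℝ) * ξ j : ℝ))‖
      ≤ ∏ j : Fin n, (if j = ⟨j0, hj0⟩ then (p : ℝ) / (2 * U) else D) := by
    apply prod_le_prod (fun j _ => norm_nonneg _)
    intro j _
    by_cases hjj : j = ⟨j0, hj0⟩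
    · rw [if_pos hjj]
      have h1 := kernel_far D (ξ j) (U / p) (by positivity) (by rw [hjj]; exact hj)
      have e3 : ∑ c : Fin D, Complex.exp (2 * Real.pi * Complex.I * (((c : ℕ) : ℝ) * ξ j : ℝ))
          = ∑ c ∈ range D, Complex.exp (2 * Real.pi * Complex.I * (c * ξ j : ℝ)) :=
        Fin.sum_univ_eq_sum_range
          (fun c : ℕ => Complex.exp (2 * Real.pi * Complex.I * ((c : ℝ) * ξ j : ℝ))) D
      rw [e3]
      refine h1.trans (le_of_eq ?_)
      field_simp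
    · rw [if_neg hjj]
      refine (norm_sum_le _ _).trans ?_
      have h3 : ∀ c : Fin D,
          ‖Complex.exp (2 * Real.pi * Complex.I * (((c : ℕ) : ℝ) * ξ j : ℝ))‖ = 1 := by
        intro c
        have : (2 * Real.pi * Complex.I * ((((c : ℕ) : ℝ) * ξ j : ℝ) : ℂ))
            = ((2 * Real.pi * (((c : ℕ) : ℝ) * ξ j) : ℝ) : ℂ) * Complex.I := by
          push_cast
          ring
        rw [this, Complex.norm_exp_ofReal_mul_I]
      simp only [h3, sum_const, card_univ, Fintype.card_fin, nsmul_eq_mul, mul_one, le_refl]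
  refine e2.trans (le_of_eq ?_)
  rw [prod_ite, prod_const, prod_const, filter_eq' univ, if_pos (mem_univ _), card_singleton,
    pow_one, filter_ne' univ, card_erase_of_mem (mem_univ _), card_univ, Fintype.card_fin]
  obtain ⟨k, rfl⟩ : ∃ k, n = k + 1 := ⟨n - 1, by omega⟩
  rw [Nat.add_sub_cancel, pow_succ]
  field_simp

end Pool.Agent.Helper50.UC
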