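import Pool.Agent.Helper50.UC.B1
import Pool.Agent.Helper50.UC.B3
import Pool.Agent.Helper21.FC.B1

/-!
MP_0aa406_nt, project UC (helper50): a multiple all of whose shifts are close to integers.
-/

set_option autoImplicit false

namespace Pool.Agent.Helper50.UC

open Finset Pool.Agent.Helper21.FC

/-- lower bound of the sum of one fractional part -/
private theorem B4_one {p n D : ℕ} (hp : 2 ≤ p) (hn : 1 ≤ n) (hD : 1 ≤ D) (U : ℝ) (hU : 0 < U)
    (H : ℕ) (c0 : ℝ) (c : ℕ → ℂ)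
    (hmin : ∀ x : ℝ, c0 + (∑ h ∈ Icc 1 H,
      c h * Complex.exp (2 * Real.pi * Complex.I * (h * x : ℝ))).re ≤ Int.fract x)
    (d : ℤ) (h1 : ℕ)
    (hc : ∀ h : ℕ, 1 ≤ h → h ≤ H → ∃ j < n,
      U / p ≤ nrm ((((h : ℤ) * ((h1 : ℤ) * d) : ℤ) : ℝ) * (p : ℝ) ^ j / ((p : ℝ) ^ n - 1)))
    (x : ℕ) :
    (D : ℝ) ^ n * (c0 - (∑ h ∈ Icc 1 H, ‖c h‖) * ((p : ℝ) / (2 * U * D))) ≤
      ∑ a : Fin n → Fin D,
        Int.fract ((p : ℝ) ^ x * ((d * ((h1 : ℤ) * dg p a) : ℤ) : ℝ) / ((p : ℝ) ^ n - 1)) := by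
  -- the exponential sums
  have hexp : ∀ h ∈ Icc 1 H, ‖∑ a : Fin n → Fin D,
      Complex.exp (2 * Real.pi * Complex.I *
        (h * ((p : ℝ) ^ x * ((d * ((h1 : ℤ) * dg p a) : ℤ) : ℝ) / ((p : ℝ) ^ n - 1)) : ℝ))‖ ≤
      (D : ℝ) ^ n * ((p : ℝ) / (2 * U * D)) := by
    intro h hh
    rw [Finset.mem_Icc] at hh
    have e0 := far_shift hp hn U _ (hc h hh.1 hh.2) x
    have e1 := sum_exp_dg hp hn hD U hU _ e0
    refine le_trans (le_of_eq ?_) e1
    congr 1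
    refine Finset.sum_congr rfl fun a _ => ?_
    congr 2
    congr 1
    push_cast
    ring
  have hbound : ∑ a : Fin n → Fin D, (c0 + (∑ h ∈ Icc 1 H,
      c h * Complex.exp (2 * Real.pi * Complex.I *
        (h * ((p : ℝ) ^ x * ((d * ((h1 : ℤ) * dg p a) : ℤ) : ℝ) / ((p : ℝ) ^ n - 1)) : ℝ))).re) ≤
      ∑ a : Fin n → Fin D,
        Int.fract ((p : ℝ) ^ x * ((d * ((h1 : ℤ) * dg p a) : ℤ) : ℝ) / ((p : ℝ) ^ n - 1)) :=
    Finset.sum_le_sum fun a _ => hmin _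
  refine le_trans ?_ hbound
  have hsplit : ∑ a : Fin n → Fin D, (c0 + (∑ h ∈ Icc 1 H,
      c h * Complex.exp (2 * Real.pi * Complex.I *
        (h * ((p : ℝ) ^ x * ((d * ((h1 : ℤ) * dg p a) : ℤ) : ℝ) / ((p : ℝ) ^ n - 1)) : ℝ))).re) =
      (D : ℝ) ^ n * c0 + (∑ h ∈ Icc 1 H, c h * ∑ a : Fin n → Fin D,
        Complex.exp (2 * Real.pi * Complex.I *
          (h * ((p : ℝ) ^ x * ((d * ((h1 : ℤ) * dg p a) : ℤ) : ℝ) /
            ((p : ℝ) ^ n - 1)) : ℝ))).re := by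
    rw [Finset.sum_add_distrib, Finset.sum_const, Finset.card_univ, Fintype.card_fun,
      Fintype.card_fin, Fintype.card_fin, nsmul_eq_mul, Nat.cast_pow, ← Complex.re_sum,
      Finset.sum_comm]
    congr 2
    refine Finset.sum_congr rfl fun h _ => ?_
    rw [Finset.mul_sum]
  rw [hsplit]
  have hn1 : ‖∑ h ∈ Icc 1 H, c h * ∑ a : Fin n → Fin D,
      Complex.exp (2 * Real.pi * Complex.I *
        (h * ((p : ℝ) ^ x * ((d * ((h1 : ℤ) * dg p a) : ℤ) : ℝ) / ((p : ℝ) ^ n - 1)) : ℝ))‖ ≤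
      (∑ h ∈ Icc 1 H, ‖c h‖) * ((D : ℝ) ^ n * ((p : ℝ) / (2 * U * D))) := by
    refine (norm_sum_le _ _).trans ?_
    rw [Finset.sum_mul]
    refine Finset.sum_le_sum fun h hh => ?_
    rw [norm_mul]
    exact mul_le_mul_of_nonneg_left (hexp h hh) (norm_nonneg _)
  have hn2 := (abs_le.1 ((Complex.abs_re_le_norm (∑ h ∈ Icc 1 H,
    c h * ∑ a : Fin n → Fin D,
      Complex.exp (2 * Real.pi * Complex.I *
        (h * ((p : ℝ) ^ x * ((d * ((h1 : ℤ) * dg p a) : ℤ) : ℝ) /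
          ((p : ℝ) ^ n - 1)) : ℝ)))).trans hn1)).1
  linarith

/- PROOF. `eta = eps / (4 (H1 + 1))`, `D = floor (eta p)`, `p >= P0` so that `D >= 1`, `D >= eta p / 2`.
minorant with `delta = eps / 4`: `H2, c0, c_h`; `U` a natural number with
`(sum ‖c_h‖) / (eta U) <= eps / 4`. Suppose every `h2 <= H2` has some `j` with `nrm >= U / p`. Mean over
all `c : Fin n -> Fin D` of `W (d a) - W a`, `a = h1 * dg p c`: for every `x < n` the mean of
`fract (p ^ x d a / N)` is at least `c0 - sum_h ‖c_h‖ * p / (2 U D) >= c0 - eps / 4` (minorant, then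
sum_exp_dg for `m = h d h1 p ^ x`, far_shift); the mean of `W a` is at most
`H1 n (D - 1) / (2 (p - 1)) <= n eps / 4` (sum_W_dg, `2 (p - 1) >= p`). So the mean of the difference
is at least `(1/2 - 3 eps / 4) n`, some `a` has `W (d a) - W a >= (1/2 - eps) n > 0`; `N` does not
divide `a` (W_zero). Copy of FC/B3c. -/
theorem flat_multiple (ε : ℝ) (hε : 0 < ε) (hε2 : ε < 1 / 2) (H1 : ℕ) :
    ∃ H2 U P0 : ℕ, 0 < U ∧ ∀ p n : ℕ, P0 ≤ p → 1 ≤ n → ∀ (d : ℤ) (h1 : ℕ), 1 ≤ h1 → h1 ≤ H1 →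
      ¬ Gain p n d ((1 / 2 - ε) * n) → ∃ h2 : ℕ, 1 ≤ h2 ∧ h2 ≤ H2 ∧ ∀ j < n,
        nrm ((((h2 : ℤ) * ((h1 : ℤ) * d) : ℤ) : ℝ) * (p : ℝ) ^ j / ((p : ℝ) ^ n - 1)) <
          (U : ℝ) / p := by
  obtain ⟨H2, c0, c, hc0, hmin⟩ := minorant (ε / 4) (by linarith)
  obtain ⟨S, hS⟩ : ∃ S : ℝ, S = ∑ h ∈ Icc 1 H2, ‖c h‖ := ⟨_, rfl⟩
  have hS0 : 0 ≤ S := by
    rw [hS]
    exact Finset.sum_nonneg fun _ _ => norm_nonneg _
  obtain ⟨η, hη⟩ : ∃ η : ℝ, η = ε / (4 * ((H1 : ℝ) + 1)) := ⟨_, rfl⟩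
  have hH1 : (0 : ℝ) ≤ H1 := Nat.cast_nonneg _
  have hη0 : 0 < η := by rw [hη]; positivity
  have hηH : (H1 : ℝ) * η ≤ ε / 4 := by
    rw [hη, ← mul_div_assoc, div_le_div_iff₀ (by positivity) (by norm_num)]
    nlinarith
  obtain ⟨U, hU⟩ := exists_nat_gt (4 * S / (η * ε))
  have hU0 : (0 : ℝ) < U := lt_of_le_of_lt (by positivity) hU
  have hU1 : 0 < U := by exact_mod_cast hU0
  have hSU : S / (η * U) ≤ ε / 4 := by
    rw [div_lt_iff₀ (by positivity)] at hU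
    rw [div_le_div_iff₀ (by positivity) (by norm_num)]
    nlinarith
  obtain ⟨P, hP⟩ := exists_nat_gt (1 / η)
  refine ⟨H2, U, max P 2, hU1, fun p n hpP hn d h1 hh1 hh2 hg => ?_⟩
  by_contra hcon
  push Not at hcon
  apply hg
  have hp : 2 ≤ p := (le_max_right _ _).trans hpP
  have hpP' : (P : ℝ) ≤ p := by exact_mod_cast (le_max_left _ _).trans hpP
  have hp2 : (2 : ℝ) ≤ p := by exact_mod_cast hp
  have hηp : 1 ≤ η * p := by
    have h2 : 1 / η < p := hP.trans_le hpP'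
    rw [div_lt_iff₀ hη0] at h2
    linarith
  obtain ⟨D, hDd⟩ : ∃ D : ℕ, D = ⌊η * p⌋₊ := ⟨_, rfl⟩
  have hD : 1 ≤ D := by
    rw [hDd]
    exact Nat.le_floor (by simpa using hηp)
  have hDle : (D : ℝ) ≤ η * p := by
    rw [hDd]
    exact Nat.floor_le (by positivity)
  have hD1 : (1 : ℝ) ≤ D := by exact_mod_cast hD
  have hDge : η * p / 2 ≤ D := by
    have h2 : η * p < D + 1 := by
      rw [hDd]
      exact Nat.lt_floor_add_one _
    rcases le_or_gt (η * p) 2 with h3 | h3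
    · linarith
    · linarith
  have hn0 : (0 : ℝ) < n := by exact_mod_cast hn
  have hDn : (0 : ℝ) < (D : ℝ) ^ n := by positivity
  -- sum of `W (d a)`
  have hW1 : (D : ℝ) ^ n * ((1 / 2 - ε / 2) * n) ≤
      ∑ a : Fin n → Fin D, W p n (d * ((h1 : ℤ) * dg p a)) := by
    have e1 : ∑ a : Fin n → Fin D, W p n (d * ((h1 : ℤ) * dg p a)) =
        ∑ x ∈ range n, ∑ a : Fin n → Fin D,
          Int.fract ((p : ℝ) ^ x * ((d * ((h1 : ℤ) * dg p a) : ℤ) : ℝ) / ((p : ℝ) ^ n - 1)) := by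
      rw [Finset.sum_comm]
      rfl
    rw [e1]
    have e2 : ∀ x ∈ range n, (D : ℝ) ^ n * (1 / 2 - ε / 2) ≤ ∑ a : Fin n → Fin D,
        Int.fract ((p : ℝ) ^ x * ((d * ((h1 : ℤ) * dg p a) : ℤ) : ℝ) / ((p : ℝ) ^ n - 1)) := by
      intro x _
      have e3 := B4_one hp hn hD U hU0 H2 c0 c hmin d h1 hcon x
      rw [← hS] at e3
      refine le_trans (mul_le_mul_of_nonneg_left ?_ hDn.le) e3
      have e4 : S * ((p : ℝ) / (2 * U * D)) ≤ S / (η * U) := by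
        rw [← mul_div_assoc, div_le_div_iff₀ (by positivity) (by positivity)]
        have e5 : (p : ℝ) * η ≤ 2 * D := by linarith
        have e6 : 0 ≤ S * U := by positivity
        nlinarith
      linarith
    have e4 := Finset.sum_le_sum e2
    rw [Finset.sum_const, Finset.card_range, nsmul_eq_mul] at e4
    linarith
  have hW2 := sum_W_dg (p := p) (n := n) hp hn hD h1
  have hW2' : ∑ a : Fin n → Fin D, W p n ((h1 : ℤ) * dg p a) ≤ (D : ℝ) ^ n * (ε / 4 * n) := by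
    refine hW2.trans (mul_le_mul_of_nonneg_left ?_ hDn.le)
    rw [div_le_iff₀ (by linarith)]
    have e1 : (h1 : ℝ) ≤ H1 := by exact_mod_cast hh2
    have e2 : (D : ℝ) - 1 ≤ η * p := by linarith
    have e3 : (h1 : ℝ) * ((D : ℝ) - 1) ≤ H1 * (η * p) :=
      mul_le_mul e1 e2 (by linarith) hH1
    have e4 : (H1 : ℝ) * (η * p) ≤ ε / 4 * p := by
      have := mul_le_mul_of_nonneg_right hηH (by linarith : (0 : ℝ) ≤ p)
      linarith
    have e5 : ε / 4 * p ≤ ε / 4 * (2 * ((p : ℝ) - 1)) :=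
      mul_le_mul_of_nonneg_left (by linarith) (by linarith)
    have e6 := mul_le_mul_of_nonneg_right ((e3.trans e4).trans e5) hn0.le
    linarith
  -- sum of the difference
  have hW3 : (D : ℝ) ^ n * ((1 / 2 - 3 * ε / 4) * n) ≤
      ∑ a : Fin n → Fin D, (W p n (d * ((h1 : ℤ) * dg p a)) - W p n ((h1 : ℤ) * dg p a)) := by
    rw [Finset.sum_sub_distrib]
    linarith
  have hex : ∃ a : Fin n → Fin D, (1 / 2 - 3 * ε / 4) * (n : ℝ) ≤
      W p n (d * ((h1 : ℤ) * dg p a)) - W p n ((h1 : ℤ) * dg p a) := by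
    by_contra hno
    push Not at hno
    have hne : (univ : Finset (Fin n → Fin D)).Nonempty :=
      ⟨fun _ => ⟨0, hD⟩, Finset.mem_univ _⟩
    have hlt := Finset.sum_lt_sum_of_nonempty hne (fun a _ => hno a)
    rw [Finset.sum_const, Finset.card_univ, Fintype.card_fun,
      Fintype.card_fin, Fintype.card_fin, nsmul_eq_mul, Nat.cast_pow] at hlt
    linarith
  obtain ⟨a, ha⟩ := hex
  refine ⟨(h1 : ℤ) * dg p a, fun hN => ?_, ?_⟩
  · rw [W_zero hp hn hN, W_zero hp hn (hN.mul_left d)] at ha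
    have h2 : 0 < (1 / 2 - 3 * ε / 4) * (n : ℝ) := mul_pos (by linarith) hn0
    linarith
  · have h2 : (1 / 2 - ε) * (n : ℝ) ≤ (1 / 2 - 3 * ε / 4) * n :=
      mul_le_mul_of_nonneg_right (by linarith) hn0.le
    linarith

end Pool.Agent.Helper50.UC
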