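import Pool.Agent.Helper21.FC.B3b

/-!
MP_0aa406_nt, project UC (helper50): a sparse sum with coefficients up to `H p` has small `cnt`.
-/

set_option autoImplicit false

namespace Pool.Agent.Helper50.UC

open Finset Pool.Agent.Helper21.FC

private theorem B5_pow_mod (p n m : ℕ) :
    NN p n ∣ (p : ℤ) ^ m - (p : ℤ) ^ (m % n) := by
  have h1 : NN p n ∣ ((p : ℤ) ^ n) ^ (m / n) - 1 := by
    have := sub_dvd_pow_sub_pow ((p : ℤ) ^ n) 1 (m / n)
    simpa [NN] using this
  have h2 : (p : ℤ) ^ m - (p : ℤ) ^ (m % n) = (p : ℤ) ^ (m % n) * (((p : ℤ) ^ n) ^ (m / n) - 1) := by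
    rw [mul_sub, mul_one, ← pow_mul, ← pow_add, Nat.mod_add_div]
  rw [h2]
  exact Dvd.dvd.mul_left h1 _

private theorem B5_two (n q : ℕ) :
    ((range n).filter (fun j => n ≤ (q + j) % n + 2)).card ≤ 2 := by
  classical
  have hsub : ∀ j ∈ (range n).filter (fun j => n ≤ (q + j) % n + 2),
      n - 1 - (q + j) % n ∈ range 2 := by
    intro j hj
    rw [mem_filter, mem_range] at hj
    have := Nat.mod_lt (q + j) (by omega : 0 < n)
    rw [mem_range]
    omega
  have hinj : Set.InjOn (fun j => n - 1 - (q + j) % n)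
      ((range n).filter (fun j => n ≤ (q + j) % n + 2) : Finset ℕ) := by
    intro j hj j' hj' h
    rw [mem_coe, mem_filter, mem_range] at hj hj'
    have h1 := Nat.mod_lt (q + j) (by omega : 0 < n)
    have h2 := Nat.mod_lt (q + j') (by omega : 0 < n)
    have h3 : (q + j) % n = (q + j') % n := by
      simp only at h
      omega
    have h4 : j ≡ j' [MOD n] := Nat.ModEq.add_left_cancel' q h3
    exact Nat.ModEq.eq_of_lt_of_lt h4 hj.1 hj'.1
  have := card_le_card_of_injOn _ hsub hinj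
  rwa [card_range] at this

/- PROOF. `m p ^ j / N` is modulo `1` equal to `sum_i v_i p ^ ((q_i + j) % n) / N`. If all
`(q_i + j) % n < n - 2` then its distance to the integers is at most
`K H p p ^ (n - 3) / (p ^ n - 1) <= 2 K H / p ^ 2 < 1 / (2 p)`, so `j` is not counted. For each `i` there
are at most two `j < n` with `(q_i + j) % n >= n - 2`. (`n <= 2` is trivial if `K >= 1`; for `K = 0`
`N` divides `m` and nothing is counted.) -/
theorem cnt_mul {p n K H : ℕ} (hp : 2 ≤ p) (hn : 1 ≤ n) (hpb : 4 * K * H < p) (q : Fin K → ℕ)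
    (v : Fin K → ℤ) (hv : ∀ i, |v i| ≤ (H : ℤ) * p) (m : ℤ)
    (hm : NN p n ∣ m - ∑ i, v i * (p : ℤ) ^ q i) : cnt p n m ≤ 2 * K := by
  classical
  have hNpos := B3b_pos hp hn
  have hNN : ((NN p n : ℤ) : ℝ) = (p : ℝ) ^ n - 1 := by
    unfold NN
    push_cast
    ring
  have hp0 : (0 : ℝ) < p := by exact_mod_cast (by omega : 0 < p)
  have hp2 : (2 : ℝ) ≤ p := by exact_mod_cast hp
  -- the key: a counted `j` has some `i`
  have key : ∀ j ∈ (range n).filter (fun j : ℕ => 1 / (2 * (p : ℝ)) ≤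
      nrm ((m : ℝ) * (p : ℝ) ^ j / ((p : ℝ) ^ n - 1))),
      j ∈ (univ : Finset (Fin K)).biUnion
        (fun i => (range n).filter (fun j => n ≤ (q i + j) % n + 2)) := by
    intro j hj
    rw [mem_filter] at hj
    obtain ⟨hjn, hj⟩ := hj
    by_contra hcon
    have hall : ∀ i : Fin K, (q i + j) % n + 3 ≤ n := by
      intro i
      by_contra h
      apply hcon
      rw [mem_biUnion]
      exact ⟨i, mem_univ _, mem_filter.2 ⟨hjn, by omega⟩⟩
    -- congruence
    set M : ℤ := ∑ i, v i * (p : ℤ) ^ ((q i + j) % n) with hM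
    have hcong : NN p n ∣ m * (p : ℤ) ^ j - M := by
      have e1 : m * (p : ℤ) ^ j - M = (m - ∑ i, v i * (p : ℤ) ^ q i) * (p : ℤ) ^ j +
          ∑ i, v i * ((p : ℤ) ^ (q i + j) - (p : ℤ) ^ ((q i + j) % n)) := by
        have e2 : ∑ i, v i * ((p : ℤ) ^ (q i + j) - (p : ℤ) ^ ((q i + j) % n)) =
            (∑ i, v i * (p : ℤ) ^ q i) * (p : ℤ) ^ j - M := by
          rw [hM, sum_mul, ← sum_sub_distrib]
          refine sum_congr rfl fun i _ => ?_
          rw [pow_add]
          ring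
        rw [e2]
        ring
      rw [e1]
      refine dvd_add (Dvd.dvd.mul_right hm _) (dvd_sum fun i _ => ?_)
      exact Dvd.dvd.mul_left (B5_pow_mod p n _) _
    obtain ⟨t, ht⟩ := hcong
    have e3 : (m : ℝ) * (p : ℝ) ^ j / ((p : ℝ) ^ n - 1) = (M : ℝ) / ((p : ℝ) ^ n - 1) + (t : ℤ) := by
      have h1 : (m : ℝ) * (p : ℝ) ^ j - M = ((p : ℝ) ^ n - 1) * t := by
        rw [← hNN]
        exact_mod_cast ht
      field_simp
      linarith
    rw [e3, B3b_nrm_add] at hj
    have h2 : nrm ((M : ℝ) / ((p : ℝ) ^ n - 1)) ≤ |(M : ℝ)| / ((p : ℝ) ^ n - 1) := by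
      unfold nrm
      have h3 := round_le ((M : ℝ) / ((p : ℝ) ^ n - 1)) 0
      rw [Int.cast_zero, sub_zero, abs_div, abs_of_pos hNpos] at h3
      exact h3
    have hMb : |M| * (p : ℤ) ^ 2 ≤ K * H * (p : ℤ) ^ n := by
      have h4 : |M| ≤ ∑ i : Fin K, |v i| * (p : ℤ) ^ ((q i + j) % n) := by
        rw [hM]
        refine (abs_sum_le_sum_abs _ _).trans (le_of_eq (sum_congr rfl fun i _ => ?_))
        rw [abs_mul, abs_of_nonneg (by positivity : (0 : ℤ) ≤ (p : ℤ) ^ ((q i + j) % n))]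
      have h5 : ∀ i : Fin K, |v i| * (p : ℤ) ^ ((q i + j) % n) * (p : ℤ) ^ 2 ≤ H * (p : ℤ) ^ n := by
        intro i
        calc |v i| * (p : ℤ) ^ ((q i + j) % n) * (p : ℤ) ^ 2
            ≤ (H : ℤ) * p * (p : ℤ) ^ ((q i + j) % n) * (p : ℤ) ^ 2 := by
              have := hv i
              gcongr
          _ = H * (p : ℤ) ^ ((q i + j) % n + 3) := by ring
          _ ≤ H * (p : ℤ) ^ n := by
              have h6 : (p : ℤ) ^ ((q i + j) % n + 3) ≤ (p : ℤ) ^ n :=
                pow_le_pow_right₀ (by exact_mod_cast (by omega : 1 ≤ p)) (hall i)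
              gcongr
      calc |M| * (p : ℤ) ^ 2 ≤ (∑ i : Fin K, |v i| * (p : ℤ) ^ ((q i + j) % n)) * (p : ℤ) ^ 2 := by
            gcongr
        _ = ∑ i : Fin K, |v i| * (p : ℤ) ^ ((q i + j) % n) * (p : ℤ) ^ 2 := by rw [sum_mul]
        _ ≤ ∑ _i : Fin K, H * (p : ℤ) ^ n := sum_le_sum fun i _ => h5 i
        _ = K * H * (p : ℤ) ^ n := by
            rw [sum_const, card_univ, Fintype.card_fin, nsmul_eq_mul]
            ring
    have hMr : |(M : ℝ)| * (p : ℝ) ^ 2 ≤ K * H * (p : ℝ) ^ n := by exact_mod_cast hMb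
    have hK : 4 * (K : ℝ) * H ≤ p - 1 := by
      have h7 : 4 * K * H + 1 ≤ p := hpb
      have h8 : ((4 * K * H + 1 : ℕ) : ℝ) ≤ p := by exact_mod_cast h7
      push_cast at h8
      linarith
    have hpn : (p : ℝ) ≤ (p : ℝ) ^ n := by
      calc (p : ℝ) = (p : ℝ) ^ 1 := (pow_one _).symm
        _ ≤ (p : ℝ) ^ n := pow_le_pow_right₀ (by linarith) hn
    have hfin : |(M : ℝ)| / ((p : ℝ) ^ n - 1) < 1 / (2 * (p : ℝ)) := by
      rw [div_lt_div_iff₀ hNpos (by positivity), one_mul]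
      by_contra hge
      rw [not_lt] at hge
      have h9 : ((p : ℝ) ^ n - 1) * p ≤ |(M : ℝ)| * (2 * p) * p := by gcongr
      have h10 : |(M : ℝ)| * (2 * p) * p ≤ 2 * (K * H * (p : ℝ) ^ n) := by nlinarith
      have h11 : 2 * (K * H * (p : ℝ) ^ n) ≤ (p - 1) / 2 * (p : ℝ) ^ n := by
        have : 0 ≤ (p : ℝ) ^ n := by positivity
        nlinarith
      nlinarith
    linarith
  have hle : cnt p n m ≤ ((univ : Finset (Fin K)).biUnion
        (fun i => (range n).filter (fun j => n ≤ (q i + j) % n + 2))).card := by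
    unfold cnt
    exact card_le_card key
  refine hle.trans (card_biUnion_le.trans ?_)
  calc ∑ i : Fin K, ((range n).filter (fun j => n ≤ (q i + j) % n + 2)).card
      ≤ ∑ _i : Fin K, 2 := sum_le_sum fun i _ => B5_two n (q i)
    _ = 2 * K := by rw [sum_const, card_univ, Fintype.card_fin, smul_eq_mul, mul_comm]

end Pool.Agent.Helper50.UC
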