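import Pool.Agent.Helper21.FC.B4

/-!
MP_0aa406_nt, project UC (helper50): the telescope with bounded coefficients.
-/

set_option autoImplicit false

namespace Pool.Agent.Helper50.UC

open Finset Pool.Agent.Helper21.FC

/-- the point `m p ^ j / (p ^ n - 1)` -/
private noncomputable def B6_x (p n : ℕ) (m : ℤ) (j : ℕ) : ℝ :=
  (m : ℝ) * (p : ℝ) ^ j / ((p : ℝ) ^ n - 1)

/-- the coefficient -/
private noncomputable def B6_u (p n : ℕ) (m : ℤ) (j : ℕ) : ℤ :=
  round (B6_x p n m (j + 1)) - (p : ℤ) * round (B6_x p n m j)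

private theorem B6_succ (p n : ℕ) (m : ℤ) (j : ℕ) :
    B6_x p n m (j + 1) = (p : ℝ) * B6_x p n m j := by
  unfold B6_x
  rw [pow_succ]
  ring

private theorem B6_abs {p n : ℕ} (hp : 2 ≤ p) (m : ℤ) (U j : ℕ)
    (hU : nrm (B6_x p n m j) < (U : ℝ) / p) : |B6_u p n m j| ≤ (U : ℤ) + 1 := by
  have hp0 : (0 : ℝ) < (p : ℝ) := by
    have : (2 : ℝ) ≤ (p : ℝ) := by exact_mod_cast hp
    linarith
  have h1 := abs_le.1 (abs_sub_round (B6_x p n m (j + 1)))
  have h3 := B6_succ p n m j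
  unfold nrm at hU
  rw [lt_div_iff₀ hp0] at hU
  have h4 : |(p : ℝ) * B6_x p n m j - (p : ℝ) * (round (B6_x p n m j) : ℝ)| < (U : ℝ) := by
    rw [← mul_sub, abs_mul, abs_of_pos hp0]
    linarith
  have h5 := abs_lt.1 h4
  have key : |(B6_u p n m j : ℝ)| ≤ (U : ℝ) + 1 := by
    unfold B6_u
    push_cast
    rw [abs_le]
    constructor <;> linarith [h1.1, h1.2, h5.1, h5.2]
  exact_mod_cast key

private theorem B6_zero {p n : ℕ} (hp : 2 ≤ p) (m : ℤ) (j : ℕ)
    (h : nrm (B6_x p n m j) < 1 / (2 * (p : ℝ))) : B6_u p n m j = 0 := by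
  have hp0 : (0 : ℝ) < (p : ℝ) := by
    have : (2 : ℝ) ≤ (p : ℝ) := by exact_mod_cast hp
    linarith
  have h1 := abs_le.1 (abs_sub_round (B6_x p n m (j + 1)))
  have h3 := B6_succ p n m j
  unfold nrm at h
  rw [lt_div_iff₀ (by positivity)] at h
  have h4 : |(p : ℝ) * B6_x p n m j - (p : ℝ) * (round (B6_x p n m j) : ℝ)| < 1 / 2 := by
    rw [← mul_sub, abs_mul, abs_of_pos hp0]
    linarith
  have h5 := abs_lt.1 h4
  have key : |(B6_u p n m j : ℝ)| < 1 := by
    unfold B6_u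
    push_cast
    rw [abs_lt]
    constructor <;> linarith [h1.1, h1.2, h5.1, h5.2]
  have key' : |B6_u p n m j| < 1 := by exact_mod_cast key
  exact Int.abs_lt_one_iff.1 key'

private theorem B6_last {p n : ℕ} (hp : 2 ≤ p) (hn : 1 ≤ n) (m : ℤ) :
    round (B6_x p n m n) = m + round (B6_x p n m 0) := by
  have hN : (0 : ℝ) < (p : ℝ) ^ n - 1 := by
    have h1 : (2 : ℝ) ≤ (p : ℝ) := by exact_mod_cast hp
    have h2 : (p : ℝ) ≤ (p : ℝ) ^ n := le_self_pow₀ (by linarith) (by omega)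
    linarith
  have h : B6_x p n m n = B6_x p n m 0 + (m : ℤ) := by
    unfold B6_x
    rw [pow_zero]
    field_simp
    ring
  rw [h, round_add_intCast]
  ring

private theorem B6_sum {p n : ℕ} (hp : 2 ≤ p) (hn : 1 ≤ n) (m : ℤ) :
    ∑ j ∈ range n, B6_u p n m j * (p : ℤ) ^ (n - 1 - j) =
      m - NN p n * round (B6_x p n m 0) := by
  have h1 : ∀ j ∈ range n, B6_u p n m j * (p : ℤ) ^ (n - 1 - j) =
      round (B6_x p n m (j + 1)) * (p : ℤ) ^ (n - (j + 1)) -
        round (B6_x p n m j) * (p : ℤ) ^ (n - j) := by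
    intro j hj
    have hj' := mem_range.1 hj
    have e1 : n - (j + 1) = n - 1 - j := by omega
    have e2 : n - j = (n - 1 - j) + 1 := by omega
    rw [e1, e2, pow_succ]
    unfold B6_u
    ring
  rw [sum_congr rfl h1,
    Finset.sum_range_sub (fun j => round (B6_x p n m j) * (p : ℤ) ^ (n - j)) n]
  simp only [Nat.sub_self, pow_zero, mul_one, Nat.sub_zero]
  rw [B6_last hp hn]
  unfold NN
  ring

/- PROOF. Copy FC/B4 (its lemmas are private): `u_j = round x_(j+1) - p round x_j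
= p (x_j - round x_j) - (x_(j+1) - round x_(j+1))`, so `|u_j| <= p nrm x_j + 1/2 < U + 1`. -/
theorem telescope_flat {p n : ℕ} (hp : 2 ≤ p) (hn : 1 ≤ n) (m : ℤ) (K : ℕ) (hK : cnt p n m ≤ K)
    (U : ℕ) (hU : ∀ j < n, nrm ((m : ℝ) * (p : ℝ) ^ j / ((p : ℝ) ^ n - 1)) < (U : ℝ) / p) :
    ∃ (q : Fin K → ℕ) (u : Fin K → ℤ), (∀ i, |u i| ≤ (U : ℤ) + 1) ∧
      NN p n ∣ m - ∑ i, u i * (p : ℤ) ^ q i := by
  classical
  set S : Finset ℕ := (range n).filter (fun j : ℕ => 1 / (2 * (p : ℝ)) ≤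
      nrm ((m : ℝ) * (p : ℝ) ^ j / ((p : ℝ) ^ n - 1))) with hS
  have hc : S.card ≤ K := by
    refine le_trans (le_of_eq ?_) hK
    unfold cnt
    rw [hS]
  have hne : Nonempty (S ↪ Fin K) := by
    apply Function.Embedding.nonempty_of_card_le
    simpa using hc
  obtain ⟨φ⟩ := hne
  refine ⟨Function.extend φ (fun s : S => n - 1 - (s : ℕ)) (fun _ => 0),
    Function.extend φ (fun s : S => B6_u p n m (s : ℕ)) (fun _ => 0), ?_, ?_⟩
  · intro i
    by_cases h : ∃ s, φ s = i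
    · obtain ⟨s, rfl⟩ := h
      rw [φ.injective.extend_apply]
      have hs : (s : ℕ) ∈ range n := filter_subset _ _ s.2
      exact B6_abs hp m U _ (hU _ (mem_range.1 hs))
    · rw [Function.extend_apply' _ _ _ h]
      simp only [abs_zero]
      positivity
  · have h1 : ∑ s : S, B6_u p n m (s : ℕ) * (p : ℤ) ^ (n - 1 - (s : ℕ)) =
        ∑ i : Fin K, Function.extend φ (fun s : S => B6_u p n m (s : ℕ)) (fun _ => 0) i *
          (p : ℤ) ^ Function.extend φ (fun s : S => n - 1 - (s : ℕ)) (fun _ => 0) i := by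
      apply Fintype.sum_of_injective φ φ.injective
      · intro i hi
        have h : ¬ ∃ s, φ s = i := hi
        rw [Function.extend_apply' _ _ _ h, zero_mul]
      · intro s
        rw [φ.injective.extend_apply, φ.injective.extend_apply]
    have h2 : ∑ s : S, B6_u p n m (s : ℕ) * (p : ℤ) ^ (n - 1 - (s : ℕ)) =
        ∑ j ∈ range n, B6_u p n m j * (p : ℤ) ^ (n - 1 - j) := by
      rw [Finset.sum_coe_sort S (fun j => B6_u p n m j * (p : ℤ) ^ (n - 1 - j))]
      apply sum_subset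
      · rw [hS]
        exact filter_subset _ _
      · intro j hj hj'
        rw [hS, mem_filter] at hj'
        have h3 : nrm (B6_x p n m j) < 1 / (2 * (p : ℝ)) := by
          by_contra h4
          exact hj' ⟨hj, not_lt.1 h4⟩
        rw [B6_zero hp m j h3, zero_mul]
    rw [← h1, h2, B6_sum hp hn]
    exact ⟨round (B6_x p n m 0), by ring⟩

end Pool.Agent.Helper50.UC
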