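import Pool.Agent.Helper21.FC.B3c
import Pool.Agent.Helper50.UC.B4
import Pool.Agent.Helper50.UC.B5
import Pool.Agent.Helper50.UC.B6

/-!
MP_0aa406_nt, project UC (helper50): for large `p` a small multiple of a bad `d` is a sum of boundedly
many powers of `p` with bounded coefficients.
-/

set_option autoImplicit false

namespace Pool.Agent.Helper50.UC

open Finset Pool.Agent.Helper21.FC

/- PROOF. small_multiple (FC/B3c): `h1 <= H1`, `cnt (h1 d) <= K1`. telescope (FC/B4): `h1 d` is congruent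
to `sum_{i < K1} u_i p ^ q_i`, `|u_i| <= p`. flat_multiple for `H1`: `h2 <= H2`. `m = h2 (h1 d)` is
`sum (h2 u_i) p ^ q_i`, `|h2 u_i| <= H2 p`: cnt_mul gives `cnt m <= 2 K1` (`P0 > 4 K1 H2`).
telescope_flat. `h = h2 h1 <= H1 H2`, `K = 2 K1`, bound `U + 1`. -/
theorem small_multiple_bdd (ε : ℝ) (hε : 0 < ε) (hε2 : ε < 1 / 2) :
    ∃ H K U P0 : ℕ, ∀ p n : ℕ, P0 ≤ p → 1 ≤ n → ∀ d : ℤ, ¬ Gain p n d ((1 / 2 - ε) * n) →
      ∃ h : ℕ, 1 ≤ h ∧ h ≤ H ∧ ∃ (q : Fin K → ℕ) (u : Fin K → ℤ), (∀ i, |u i| ≤ (U : ℤ)) ∧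
        NN p n ∣ (h : ℤ) * d - ∑ i, u i * (p : ℤ) ^ q i := by
  obtain ⟨H1, K1, hA⟩ := small_multiple ε hε hε2
  obtain ⟨H2, U2, P2, _, hB⟩ := flat_multiple ε hε hε2 H1
  refine ⟨H2 * H1, 2 * K1, U2 + 1, 2 + P2 + (4 * K1 * H2 + 1), ?_⟩
  intro p n hp hn d hg
  have hp2 : 2 ≤ p := by omega
  have hP2 : P2 ≤ p := by omega
  have hpb : 4 * K1 * H2 < p := by omega
  obtain ⟨a, ha1, haH, hcnt⟩ := hA p n hp2 hn d hg
  obtain ⟨q, u, _, hu, hdiv⟩ := telescope hp2 hn ((a : ℤ) * d) K1 hcnt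
  obtain ⟨b, hb1, hbH, hnrm⟩ := hB p n hP2 hn d a ha1 haH hg
  have hc2 : cnt p n ((b : ℤ) * ((a : ℤ) * d)) ≤ 2 * K1 := by
    refine cnt_mul hp2 hn hpb q (fun i => (b : ℤ) * u i) ?_ _ ?_
    · intro i
      have h1 : |(b : ℤ) * u i| = (b : ℤ) * |u i| := by
        rw [abs_mul, Nat.abs_cast]
      rw [h1]
      have h2 : (b : ℤ) ≤ (H2 : ℤ) := by exact_mod_cast hbH
      have h3 : (0 : ℤ) ≤ |u i| := abs_nonneg _
      have h4 : (0 : ℤ) ≤ (H2 : ℤ) := Int.natCast_nonneg _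
      exact mul_le_mul h2 (hu i) h3 h4
    · have h1 : (b : ℤ) * ((a : ℤ) * d) - ∑ i, (b : ℤ) * u i * (p : ℤ) ^ q i =
          (b : ℤ) * ((a : ℤ) * d - ∑ i, u i * (p : ℤ) ^ q i) := by
        rw [mul_sub, Finset.mul_sum]
        congr 1
        exact Finset.sum_congr rfl fun i _ => mul_assoc _ _ _
      rw [h1]
      exact Dvd.dvd.mul_left hdiv _
  obtain ⟨q2, u2, hu2, hdiv2⟩ := telescope_flat hp2 hn ((b : ℤ) * ((a : ℤ) * d)) (2 * K1) hc2 U2 hnrm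
  refine ⟨b * a, Nat.mul_pos hb1 ha1, Nat.mul_le_mul hbH haH, q2, u2, ?_, ?_⟩
  · intro i
    have := hu2 i
    push_cast
    exact this
  · have h1 : ((b * a : ℕ) : ℤ) * d = (b : ℤ) * ((a : ℤ) * d) := by
      push_cast
      ring
    rw [h1]
    exact hdiv2

end Pool.Agent.Helper50.UC
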