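import Pool.Agent.Helper21.FD.Defs

/-!
MP_0aa406_nt, project UC (helper50): definitions.
-/

set_option autoImplicit false

namespace Pool.Agent.Helper50.UC

open Finset Filter Pool.Agent.Helper21.FC Pool.Agent.Helper21.FD

/-- the integer with base-`p` digits `c` (all digits are smaller than `D`) -/
def dg (p : ℕ) {D n : ℕ} (c : Fin n → Fin D) : ℤ :=
  ∑ j : Fin n, ((c j : ℕ) : ℤ) * (p : ℤ) ^ (j : ℕ)

/-- the entries of `M ν` are sums of terms `u_i p ^ e_i`, the term `i` belongs to the entry `c_i` and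
`k e_i + tn c_i` is constant -/
def Shape (U : Ultrafilter ℕ) (p n : ℕ → ℕ) {k : ℕ} {I : Type} (u : I → ℕ → ℤ)
    (M : ℕ → ZMod k → ℤ) : Prop :=
  ∃ (S : Finset I) (t : I → ℕ), ∀ᶠ ν in (U : Filter ℕ), ∃ (c : I → ZMod k) (e : I → ℕ),
    (∀ i ∈ S, k * e i + tn (n ν) (c i) = t i) ∧
    ∀ x, M ν x = ∑ i ∈ S, if c i = x then u i ν * (p ν : ℤ) ^ e i else 0

end Pool.Agent.Helper50.UC
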