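import Pool.Agent.Helper21.FD.Q1
import Pool.Agent.Helper21.FD.Q4

/-!
MP_0aa406_nt, project UC (helper50): from standard positions to multiples of `n / g`.
-/

set_option autoImplicit false

namespace Pool.Agent.Helper50.UC

open Finset Pool.Agent.Helper21.FC Pool.Agent.Helper21.FD

private theorem H1_rho_pos (p k : ℕ) (hp : 2 ≤ p) : 0 < rho p k := by
  unfold rho
  exact Real.rpow_pos_of_pos (by exact_mod_cast (by omega : 0 < p)) _

/- PROOF. If `a = 0` take anything (`e = 0`). For `a c ≠ 0`: `j = k e + tn c`, `tn c < k`, so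
`e = j / k`, `tn c = j % k`, and `μ c * ρ ^ tn c = a c * ρ ^ j = a c * p ^ e * ρ ^ tn c`. -/
theorem hom_entries (p n k : ℕ) [NeZero k] (hp : 2 ≤ p) (j : ℕ) (a μ : ZMod k → ℤ)
    (hμ : ∀ c, ci p n μ c = (a c : ℝ) * rho p k ^ j)
    (ha : ∀ c, a c ≠ 0 → ∃ e, k * e + tn n c = j) :
    (∀ c, μ c = a c * (p : ℤ) ^ (j / k)) ∧ ∀ c, a c ≠ 0 → tn n c = j % k := by
  have hk : 0 < k := Nat.pos_of_ne_zero (NeZero.ne k)
  have key : ∀ c, a c ≠ 0 → k * (j / k) + tn n c = j := by
    intro c hc
    obtain ⟨e, he⟩ := ha c hc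
    have h1 := tn_lt n c
    have h2 : j / k = e := by
      rw [← he, Nat.mul_add_div hk, Nat.div_eq_of_lt h1, Nat.add_zero]
    rw [h2, he]
  refine ⟨fun c => ?_, fun c hc => ?_⟩
  · have h0 := hμ c
    unfold ci at h0
    have hr : rho p k ^ tn n c ≠ 0 := pow_ne_zero _ (H1_rho_pos p k hp).ne'
    by_cases hc : a c = 0
    · rw [hc] at h0 ⊢
      rw [Int.cast_zero, zero_mul] at h0
      have h1 := (mul_eq_zero.1 h0).resolve_right hr
      rw [zero_mul]
      exact_mod_cast h1
    · have h1 := key c hc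
      have h2 : rho p k ^ j = (p : ℝ) ^ (j / k) * rho p k ^ tn n c := by
        rw [← rho_pow p k hk, ← pow_mul, ← pow_add, h1]
      rw [h2, ← mul_assoc] at h0
      have h3 := mul_right_cancel₀ hr h0
      exact_mod_cast h3
  · have h1 := key c hc
    have h2 := Nat.div_add_mod j k
    omega

/- PROOF. If `m = 0` take `w = 0`. Otherwise fix `c0` with `m c0 ≠ 0`, `r0 = c0.val % k'`. For `c` in the
support `k` divides `(c.val - c0.val) * n`, so `k'` divides `(c.val - c0.val) * N`, so
`c.val = r0 + k' t` with `t < g`; `k * ps c = c.val * n + τ` (ps_mul), so `ps c = R + t * N` with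
`R = (r0 * n + τ) / k` (`= ps` of the element `r0 + k' t0` minus `t0 * N`). `w t = m (r0 + k' t.val)`. -/
theorem ev_hom (p n k g k' N : ℕ) [NeZero k] [NeZero g] (hk : k = k' * g) (hn : n = N * g)
    (hcop : Nat.Coprime k' N) (τ : ℕ) (m : ZMod k → ℤ) (hm : ∀ c, m c ≠ 0 → tn n c = τ) :
    ∃ (R : ℕ) (w : ZMod g → ℤ), (∀ C : ℤ, 0 ≤ C → (∀ c, |m c| ≤ C) → ∀ t, |w t| ≤ C) ∧
      ev p n m = (p : ℤ) ^ R * ∑ t : ZMod g, w t * (p : ℤ) ^ (t.val * N) := by
  have hk0 : 0 < k := Nat.pos_of_ne_zero (NeZero.ne k)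
  have hg0 : 0 < g := Nat.pos_of_ne_zero (NeZero.ne g)
  have hk'0 : 0 < k' := by
    rcases Nat.eq_zero_or_pos k' with h | h
    · rw [h, zero_mul] at hk
      omega
    · exact h
  by_cases hex : ∃ c0, m c0 ≠ 0
  · obtain ⟨c0, hc0⟩ := hex
    obtain ⟨r0, hr0⟩ : ∃ r, r = c0.val % k' := ⟨_, rfl⟩
    obtain ⟨t0, ht0⟩ : ∃ r, r = c0.val / k' := ⟨_, rfl⟩
    have hr0lt : r0 < k' := by rw [hr0]; exact Nat.mod_lt _ hk'0
    have hc0v : c0.val = r0 + k' * t0 := by rw [hr0, ht0]; exact (Nat.mod_add_div _ _).symm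
    have hp0 := ps_mul n c0
    rw [hm c0 hc0] at hp0
    -- R
    have hR : k * (t0 * N) ≤ k * ps n c0 := by
      rw [hp0, hc0v]
      have : (r0 + k' * t0) * n = r0 * n + k * (t0 * N) := by rw [hk, hn]; ring
      rw [this]
      omega
    have hR' : t0 * N ≤ ps n c0 := Nat.le_of_mul_le_mul_left hR hk0
    obtain ⟨R, hRR⟩ := Nat.exists_eq_add_of_le hR'
    have hRk : k * R = r0 * n + τ := by
      have h1 : k * ps n c0 = k * (t0 * N) + k * R := by rw [hRR, Nat.mul_add]
      have h2 : (r0 + k' * t0) * n = r0 * n + k * (t0 * N) := by rw [hk, hn]; ring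
      rw [hc0v, h2] at hp0
      omega
    have hval : ∀ t : ZMod g, (((r0 + k' * t.val : ℕ) : ZMod k)).val = r0 + k' * t.val := by
      intro t
      apply ZMod.val_natCast_of_lt
      have h1 : t.val < g := ZMod.val_lt t
      have h2 : k' * (t.val + 1) ≤ k' * g := Nat.mul_le_mul_left _ h1
      rw [Nat.mul_add, Nat.mul_one] at h2
      omega
    -- the positions of the support
    have hsup : ∀ c, m c ≠ 0 → c.val % k' = r0 := by
      intro c hc
      have h1 := ps_mul n c
      rw [hm c hc] at h1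
      have h2 : (k : ℤ) * ((ps n c : ℤ) - ps n c0) = ((c.val : ℤ) - c0.val) * n := by
        have h1' : (k : ℤ) * (ps n c : ℤ) = (c.val : ℤ) * n + τ := by exact_mod_cast h1
        have h0' : (k : ℤ) * (ps n c0 : ℤ) = (c0.val : ℤ) * n + τ := by exact_mod_cast hp0
        linear_combination h1' - h0'
      have h3 : (k' : ℤ) * ((ps n c : ℤ) - ps n c0) = ((c.val : ℤ) - c0.val) * N := by
        have hg : (g : ℤ) ≠ 0 := by exact_mod_cast hg0.ne'
        apply mul_right_cancel₀ hg
        have hk2 : (k : ℤ) = k' * g := by exact_mod_cast hk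
        have hn2 : (n : ℤ) = N * g := by exact_mod_cast hn
        rw [hk2, hn2] at h2
        linear_combination h2
      have h4 : (k' : ℤ) ∣ ((c.val : ℤ) - c0.val) * N := ⟨_, h3.symm⟩
      have h5 : IsCoprime (k' : ℤ) (N : ℤ) := Nat.isCoprime_iff_coprime.2 hcop
      have h6 : (k' : ℤ) ∣ (c.val : ℤ) - c0.val := h5.dvd_of_dvd_mul_right h4
      have h7 : c0.val ≡ c.val [MOD k'] := (Nat.modEq_iff_dvd).2 h6
      rw [hr0]
      exact h7.symm
    refine ⟨R, fun t => m ((r0 + k' * t.val : ℕ) : ZMod k), fun C _ h t => h _, ?_⟩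
    rw [Finset.mul_sum]
    unfold ev
    symm
    apply Finset.sum_of_injOn (fun t : ZMod g => ((r0 + k' * t.val : ℕ) : ZMod k))
    · intro s _ t _ hst
      have h1 := hval s
      have h2 := hval t
      simp only at hst
      rw [hst] at h1
      rw [h1] at h2
      have h3 : k' * s.val = k' * t.val := by omega
      exact ZMod.val_injective g (Nat.eq_of_mul_eq_mul_left hk'0 h3)
    · intro t _
      exact Finset.mem_coe.2 (Finset.mem_univ _)
    · intro c _ hc
      by_cases hmc : m c = 0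
      · rw [hmc, zero_mul]
      · exfalso
        apply hc
        have h1 := hsup c hmc
        have h2 : c.val = r0 + k' * (c.val / k') := by
          rw [← h1]
          exact (Nat.mod_add_div _ _).symm
        have h3 : c.val / k' < g := by
          apply Nat.div_lt_of_lt_mul
          rw [← hk]
          exact ZMod.val_lt c
        refine ⟨((c.val / k' : ℕ) : ZMod g), Finset.mem_coe.2 (Finset.mem_univ _), ?_⟩
        simp only
        rw [ZMod.val_natCast_of_lt h3, ← h2]
        exact ZMod.natCast_zmod_val c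
    · intro t _
      simp only
      by_cases hmc : m ((r0 + k' * t.val : ℕ) : ZMod k) = 0
      · rw [hmc]
        simp
      · have h1 := ps_mul n ((r0 + k' * t.val : ℕ) : ZMod k)
        rw [hm _ hmc, hval t] at h1
        have h2 : (r0 + k' * t.val) * n = r0 * n + k * (t.val * N) := by rw [hk, hn]; ring
        have h3 : k * ps n ((r0 + k' * t.val : ℕ) : ZMod k) = k * (R + t.val * N) := by
          rw [h1, h2, Nat.mul_add, hRk]
          ring
        have h4 := Nat.eq_of_mul_eq_mul_left hk0 h3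
        rw [h4, pow_add]
        ring
  · push Not at hex
    refine ⟨0, 0, fun C hC _ t => by simpa using hC, ?_⟩
    unfold ev
    simp [hex]

end Pool.Agent.Helper50.UC
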