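import Pool.Agent.Helper21.FC.Defs

/-!
MP_0aa406_nt, project UC (helper50): uniqueness of expansions with small digits.
-/

set_option autoImplicit false

namespace Pool.Agent.Helper50.UC

open Finset Pool.Agent.Helper21.FC

theorem H2_unique {p : ℕ} (C : ℕ) (hp : C < p) (n : ℕ) : ∀ (b : ℕ → ℤ),
    (∀ e < n, |b e| ≤ (C : ℤ)) → ∑ e ∈ range n, b e * (p : ℤ) ^ e = 0 → ∀ e < n, b e = 0 := by
  induction n with
  | zero => intro b _ _ e he; omega
  | succ n ih =>
    intro b hb h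
    have hp0 : (0 : ℤ) < p := by exact_mod_cast (by omega : 0 < p)
    rw [Finset.sum_range_succ'] at h
    have h1 : ∑ e ∈ range n, b (e + 1) * (p : ℤ) ^ (e + 1)
        = (p : ℤ) * ∑ e ∈ range n, b (e + 1) * (p : ℤ) ^ e := by
      rw [Finset.mul_sum]
      refine Finset.sum_congr rfl fun e _ => ?_
      ring
    rw [h1, pow_zero, mul_one] at h
    have hd : (p : ℤ) ∣ b 0 := by
      refine ⟨-∑ e ∈ range n, b (e + 1) * (p : ℤ) ^ e, ?_⟩
      linear_combination h
    have h0 : b 0 = 0 := by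
      apply Int.eq_zero_of_abs_lt_dvd hd
      have h2 := hb 0 (by omega)
      have h3 : (C : ℤ) < p := by exact_mod_cast hp
      exact lt_of_le_of_lt h2 h3
    rw [h0, add_zero] at h
    have h4 : ∑ e ∈ range n, b (e + 1) * (p : ℤ) ^ e = 0 := by
      rcases mul_eq_zero.1 h with h5 | h5
      · omega
      · exact h5
    have h6 := ih (fun e => b (e + 1)) (fun e he => hb (e + 1) (by omega)) h4
    intro e he
    rcases e with _ | e
    · exact h0
    · exact h6 e (by omega)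

/- PROOF. `|∑ b_e p ^ e| ≤ C (p ^ n - 1) / (p - 1) < p ^ n - 1`, so the sum is `0`; then by induction the
lowest nonzero `b_e` would be divisible by `p > C`. -/
theorem digits_unique {p n : ℕ} (C : ℕ) (hp : 2 * C + 2 ≤ p) (b : ℕ → ℤ)
    (hb : ∀ e < n, |b e| ≤ (C : ℤ)) (h : NN p n ∣ ∑ e ∈ range n, b e * (p : ℤ) ^ e) :
    ∀ e < n, b e = 0 := by
  rcases Nat.eq_zero_or_pos n with hn | hn
  · intro e he; omega
  apply H2_unique (p := p) C (by omega) n b hb
  apply Int.eq_zero_of_abs_lt_dvd h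
  have hp1 : (2 * (C : ℤ) + 2) ≤ p := by exact_mod_cast hp
  have hC : (0 : ℤ) ≤ C := Int.natCast_nonneg C
  have h1 : |∑ e ∈ range n, b e * (p : ℤ) ^ e| ≤ ∑ e ∈ range n, (C : ℤ) * (p : ℤ) ^ e := by
    refine le_trans (Finset.abs_sum_le_sum_abs _ _) (Finset.sum_le_sum fun e he => ?_)
    rw [abs_mul, abs_of_nonneg (by positivity : (0 : ℤ) ≤ (p : ℤ) ^ e)]
    exact mul_le_mul_of_nonneg_right (hb e (Finset.mem_range.1 he)) (by positivity)
  rw [← Finset.mul_sum] at h1
  have h2 : (∑ e ∈ range n, (p : ℤ) ^ e) * ((p : ℤ) - 1) = (p : ℤ) ^ n - 1 := geom_sum_mul (p : ℤ) n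
  have h3 : (0 : ℤ) < ∑ e ∈ range n, (p : ℤ) ^ e := by
    apply Finset.sum_pos
    · intro e _
      have : (0 : ℤ) < p := by omega
      positivity
    · exact ⟨0, Finset.mem_range.2 hn⟩
  have h4 : NN p n = (p : ℤ) ^ n - 1 := rfl
  rw [h4, ← h2]
  refine lt_of_le_of_lt h1 ?_
  nlinarith

end Pool.Agent.Helper50.UC
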