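import Pool.Agent.Helper50.UC.H2
import Pool.Agent.Helper21.FD.Q3

/-!
MP_0aa406_nt, project UC (helper50): comparison of digits modulo `p ^ (N g') - 1`.
-/

set_option autoImplicit false

namespace Pool.Agent.Helper50.UC

open Finset Pool.Agent.Helper21.FC Pool.Agent.Helper21.FD

/-- folding a sum of multiples of `p ^ (t N)` -/
theorem fold_mod (p N g g' : ℕ) [NeZero g] (hg' : 0 < g') (hd : g' ∣ g) (w : ZMod g → ℤ) :
    NN p (N * g') ∣ ∑ t : ZMod g, w t * (p : ℤ) ^ (t.val * N) -
      ∑ i ∈ range g', (∑ t : ZMod g, if t.val % g' = i then w t else 0) * (p : ℤ) ^ (i * N) := by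
  have h1 : ∑ i ∈ range g', (∑ t : ZMod g, if t.val % g' = i then w t else 0) *
      (p : ℤ) ^ (i * N) = ∑ t : ZMod g, w t * (p : ℤ) ^ (t.val % g' * N) := by
    simp only [Finset.sum_mul]
    rw [Finset.sum_comm]
    refine Finset.sum_congr rfl fun t _ => ?_
    rw [Finset.sum_eq_single (t.val % g')]
    · rw [if_pos rfl]
    · intro i _ hi
      rw [if_neg (fun h => hi h.symm), zero_mul]
    · intro h
      exact absurd (Finset.mem_range.2 (Nat.mod_lt _ hg')) h
  rw [h1, ← Finset.sum_sub_distrib]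
  refine Finset.dvd_sum fun t _ => ?_
  rw [← mul_sub]
  refine Dvd.dvd.mul_left (pow_congr _ _ _ _ ?_) _
  have h2 : t.val * N = t.val % g' * N + N * g' * (t.val / g') := by
    conv_lhs => rw [← Nat.mod_add_div t.val g']
    ring
  rw [h2]
  refine ⟨((t.val / g' : ℕ) : ℤ), ?_⟩
  push_cast
  ring

private theorem H3_inj {N g' R i i' : ℕ} (hN : 1 ≤ N) (hi : i < g') (hi' : i' < g')
    (h : (R + i * N) % (N * g') = (R + i' * N) % (N * g')) : i = i' := by
  have h1 : R + i * N ≡ R + i' * N [MOD N * g'] := h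
  have h2 : i * N ≡ i' * N [MOD N * g'] := Nat.ModEq.add_left_cancel' R h1
  rw [mul_comm N g'] at h2
  have h3 : i ≡ i' [MOD g'] := Nat.ModEq.mul_right_cancel' (by omega) h2
  exact Nat.ModEq.eq_of_lt_of_lt h3 hi hi'

/- PROOF. With `n = N g'`: `h p ^ j - p ^ R ∑_i W_i p ^ (i N)` (fold_mod) is congruent (pow_congr) to
`∑_{e < n} b_e p ^ e`, `b_e = (if e = j % n then h else 0) - ∑_{i < g'} if (R + i N) % n = e then W_i else 0`;
the exponents `(R + i N) % n`, `i < g'`, are distinct, `|b_e| ≤ h + g C`. digits_unique: all `b_e = 0`.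
At `e = j % n`: `h = W_s` for the `s` with `(R + s N) % n = j % n`; the other `W_i` are `0`. -/
theorem fold_unique (g : ℕ) [NeZero g] (h C : ℕ) (hh : 0 < h) : ∃ P0 : ℕ, ∀ p : ℕ, P0 ≤ p →
    ∀ N : ℕ, 1 ≤ N → ∀ w : ZMod g → ℤ, (∀ t, |w t| ≤ (C : ℤ)) → ∀ g' : ℕ, 0 < g' → g' ∣ g →
    ∀ R j : ℕ, NN p (N * g') ∣ (h : ℤ) * (p : ℤ) ^ j -
      (p : ℤ) ^ R * ∑ t : ZMod g, w t * (p : ℤ) ^ (t.val * N) →
    ∃ s < g', (∀ i < g', (∑ t : ZMod g, if t.val % g' = i then w t else 0) =
        if i = s then (h : ℤ) else 0) ∧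
      NN p (N * g') ∣ (p : ℤ) ^ j - (p : ℤ) ^ (R + s * N) := by
  refine ⟨2 * (h + g * (g * C)) + 2, ?_⟩
  intro p hp N hN w hw g' hg' hd R j hdvd
  have hg : g' ≤ g := Nat.le_of_dvd (Nat.pos_of_ne_zero (NeZero.ne g)) hd
  set n := N * g' with hn
  have hn0 : 0 < n := by positivity
  set W : ℕ → ℤ := fun i => ∑ t : ZMod g, if t.val % g' = i then w t else 0 with hWdef
  have hW : ∀ i, |W i| ≤ (g : ℤ) * C := by
    intro i
    calc |W i| ≤ ∑ t : ZMod g, |if t.val % g' = i then w t else 0| :=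
          Finset.abs_sum_le_sum_abs _ _
      _ ≤ ∑ t : ZMod g, (C : ℤ) := by
          refine Finset.sum_le_sum fun t _ => ?_
          split_ifs
          · exact hw t
          · simp
      _ = (g : ℤ) * C := by simp
  set b : ℕ → ℤ := fun e => (if e = j % n then (h : ℤ) else 0) -
    ∑ i ∈ range g', if (R + i * N) % n = e then W i else 0 with hbdef
  have hb : ∀ e < n, |b e| ≤ ((h + g * (g * C) : ℕ) : ℤ) := by
    intro e _
    have h1 : |if e = j % n then (h : ℤ) else 0| ≤ h := by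
      split_ifs
      · simp
      · simp
    have h2 : |∑ i ∈ range g', if (R + i * N) % n = e then W i else 0| ≤ (g : ℤ) * (g * C) := by
      calc |∑ i ∈ range g', if (R + i * N) % n = e then W i else 0| ≤
          ∑ i ∈ range g', |if (R + i * N) % n = e then W i else 0| :=
            Finset.abs_sum_le_sum_abs _ _
        _ ≤ ∑ i ∈ range g', ((g : ℤ) * C) := by
            refine Finset.sum_le_sum fun i _ => ?_
            split_ifs
            · exact hW i
            · simp only [abs_zero]; positivity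
        _ = (g' : ℤ) * (g * C) := by simp
        _ ≤ (g : ℤ) * (g * C) := by
            have : (g' : ℤ) ≤ g := by exact_mod_cast hg
            gcongr
    push_cast
    calc |b e| ≤ |if e = j % n then (h : ℤ) else 0| +
        |∑ i ∈ range g', if (R + i * N) % n = e then W i else 0| := abs_sub _ _
      _ ≤ _ := by linarith
  have hsum : ∑ e ∈ range n, b e * (p : ℤ) ^ e = (h : ℤ) * (p : ℤ) ^ (j % n) -
      ∑ i ∈ range g', W i * (p : ℤ) ^ ((R + i * N) % n) := by
    simp only [hbdef, sub_mul, Finset.sum_sub_distrib]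
    congr 1
    · rw [Finset.sum_eq_single (j % n)]
      · rw [if_pos rfl]
      · intro e _ he
        rw [if_neg he, zero_mul]
      · intro h'
        exact absurd (Finset.mem_range.2 (Nat.mod_lt _ hn0)) h'
    · simp only [Finset.sum_mul]
      rw [Finset.sum_comm]
      refine Finset.sum_congr rfl fun i _ => ?_
      rw [Finset.sum_eq_single ((R + i * N) % n)]
      · rw [if_pos rfl]
      · intro e _ he
        rw [if_neg (fun h' => he h'.symm), zero_mul]
      · intro h'
        exact absurd (Finset.mem_range.2 (Nat.mod_lt _ hn0)) h'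
  have hmod : ∀ a : ℕ, NN p n ∣ (p : ℤ) ^ a - (p : ℤ) ^ (a % n) := by
    intro a
    refine pow_congr _ _ _ _ ⟨((a / n : ℕ) : ℤ), ?_⟩
    have h1 := Nat.mod_add_div a n
    have h2 : ((a % n : ℕ) : ℤ) + (n : ℤ) * ((a / n : ℕ) : ℤ) = a := by exact_mod_cast h1
    linarith
  have hdig : NN p n ∣ ∑ e ∈ range n, b e * (p : ℤ) ^ e := by
    rw [hsum]
    have h1 := fold_mod p N g g' hg' hd w
    have h2 : NN p n ∣ (h : ℤ) * ((p : ℤ) ^ j - (p : ℤ) ^ (j % n)) :=
      Dvd.dvd.mul_left (hmod j) _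
    have h3 : NN p n ∣ ∑ i ∈ range g', W i *
        ((p : ℤ) ^ (R + i * N) - (p : ℤ) ^ ((R + i * N) % n)) :=
      Finset.dvd_sum fun i _ => Dvd.dvd.mul_left (hmod _) _
    have h4 : NN p n ∣ (p : ℤ) ^ R * (∑ t : ZMod g, w t * (p : ℤ) ^ (t.val * N) -
        ∑ i ∈ range g', W i * (p : ℤ) ^ (i * N)) := Dvd.dvd.mul_left h1 _
    have h5 : (h : ℤ) * (p : ℤ) ^ (j % n) - ∑ i ∈ range g', W i * (p : ℤ) ^ ((R + i * N) % n) =
        ((h : ℤ) * (p : ℤ) ^ j - (p : ℤ) ^ R * ∑ t : ZMod g, w t * (p : ℤ) ^ (t.val * N)) -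
        (h : ℤ) * ((p : ℤ) ^ j - (p : ℤ) ^ (j % n)) +
        ∑ i ∈ range g', W i * ((p : ℤ) ^ (R + i * N) - (p : ℤ) ^ ((R + i * N) % n)) +
        (p : ℤ) ^ R * (∑ t : ZMod g, w t * (p : ℤ) ^ (t.val * N) -
          ∑ i ∈ range g', W i * (p : ℤ) ^ (i * N)) := by
      have h6 : ∑ i ∈ range g', W i * ((p : ℤ) ^ (R + i * N) - (p : ℤ) ^ ((R + i * N) % n)) =
          (p : ℤ) ^ R * ∑ i ∈ range g', W i * (p : ℤ) ^ (i * N) -
          ∑ i ∈ range g', W i * (p : ℤ) ^ ((R + i * N) % n) := by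
        rw [Finset.mul_sum, ← Finset.sum_sub_distrib]
        refine Finset.sum_congr rfl fun i _ => ?_
        rw [pow_add]
        ring
      rw [h6]
      ring
    rw [h5]
    exact dvd_add (dvd_add (dvd_sub hdvd h2) h3) h4
  have hz := digits_unique (h + g * (g * C)) hp b hb hdig
  -- the sums at the positions
  have hone : ∀ i < g', ∑ i' ∈ range g', (if (R + i' * N) % n = (R + i * N) % n then W i' else 0) =
      W i := by
    intro i hi
    rw [Finset.sum_eq_single i]
    · rw [if_pos rfl]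
    · intro i' hi' hne
      rw [if_neg (fun h' => hne (H3_inj hN (Finset.mem_range.1 hi') hi h'))]
    · intro h'
      exact absurd (Finset.mem_range.2 hi) h'
  have hWi : ∀ i < g', W i = if (R + i * N) % n = j % n then (h : ℤ) else 0 := by
    intro i hi
    have h1 := hz ((R + i * N) % n) (Nat.mod_lt _ hn0)
    simp only [hbdef] at h1
    rw [hone i hi] at h1
    linarith
  obtain ⟨s, hs, hsj⟩ : ∃ s < g', (R + s * N) % n = j % n := by
    by_contra hcon
    push Not at hcon
    have h1 := hz (j % n) (Nat.mod_lt _ hn0)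
    simp only [hbdef] at h1
    rw [if_pos trivial, Finset.sum_eq_zero (fun i hi => if_neg (hcon i (Finset.mem_range.1 hi)))]
      at h1
    have : (h : ℤ) = 0 := by linarith
    omega
  refine ⟨s, hs, fun i hi => ?_, ?_⟩
  · have h1 := hWi i hi
    change W i = _
    rw [h1]
    by_cases his : i = s
    · rw [if_pos his, if_pos (by rw [his]; exact hsj)]
    · rw [if_neg his, if_neg (fun h' => his (H3_inj hN hi hs (h'.trans hsj.symm)))]
  · refine pow_congr _ _ _ _ ?_
    have h1 : (R + s * N) ≡ j [MOD n] := hsj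
    have h2 := (Nat.modEq_iff_dvd).1 h1
    exact h2

end Pool.Agent.Helper50.UC
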