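import Pool.Agent.Helper21.FC.A1
import Pool.Agent.Helper18.Katz3

/-!
MP_0aa406_nt, project UC (helper50): weights in base `p` and in base `p ^ N`.
-/

set_option autoImplicit false

namespace Pool.Agent.Helper50.UC

open Finset Pool.Agent.Helper21.FC

theorem H4_sum_mul (f : ℕ → ℝ) (N g : ℕ) :
    ∑ x ∈ range (N * g), f x = ∑ y ∈ range N, ∑ s ∈ range g, f (N * s + y) := by
  induction g with
  | zero => simp
  | succ g ih =>
    rw [Nat.mul_succ, Finset.sum_range_add, ih, ← Finset.sum_add_distrib]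
    refine Finset.sum_congr rfl fun y _ => ?_
    rw [Finset.sum_range_succ]

theorem H4_fract (z Q : ℤ) (hQ : 0 < Q) :
    Int.fract ((z : ℝ) / (Q : ℝ)) = ((z % Q : ℤ) : ℝ) / (Q : ℝ) := by
  have hQ' : (0 : ℝ) < (Q : ℝ) := by exact_mod_cast hQ
  have h1 : (z : ℝ) / (Q : ℝ) = ((z % Q : ℤ) : ℝ) / (Q : ℝ) + ((z / Q : ℤ) : ℝ) := by
    have h2 : ((z % Q : ℤ) : ℝ) + (Q : ℝ) * ((z / Q : ℤ) : ℝ) = (z : ℝ) := by
      exact_mod_cast Int.emod_add_mul_ediv z Q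
    field_simp
    linarith
  rw [h1, Int.fract_add_intCast, Int.fract_eq_self]
  have h3 : (0 : ℝ) ≤ ((z % Q : ℤ) : ℝ) := by exact_mod_cast Int.emod_nonneg z hQ.ne'
  have h4 : ((z % Q : ℤ) : ℝ) < (Q : ℝ) := by exact_mod_cast Int.emod_lt_of_pos z hQ
  exact ⟨div_nonneg h3 hQ'.le, (div_lt_one hQ').2 h4⟩

/- PROOF. `W p (N g) a = ∑_{x < N g} fract (p ^ x a / (p ^ (N g) - 1))`, write `x = y + N s`, `y < N`,
`s < g` (Finset.sum_range / Nat.sum_range_mul or finProdFinEquiv); `p ^ x a = (p ^ N) ^ s (p ^ y a)`,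
`fract (z / Q) = (z % Q) / Q` for integers (Int.fract_div_intCast_eq_div_intCast_mod or by hand),
`p ^ (N g) = (p ^ N) ^ g`. -/
theorem W_split {p N g : ℕ} [NeZero g] (hp : 2 ≤ p) (hN : 1 ≤ N) (a : ℤ) :
    W p (N * g) a = ∑ y ∈ range N,
      ((Helper18.Katz.W (p ^ N) g ((p : ℤ) ^ y * a) : ℤ) : ℝ) / (((p : ℝ) ^ N) ^ g - 1) := by
  have hg : 0 < g := NeZero.pos g
  have hQ : (0 : ℤ) < ((p ^ N : ℕ) : ℤ) ^ g - 1 := by
    have h1 : (1 : ℤ) < ((p ^ N : ℕ) : ℤ) := by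
      exact_mod_cast Nat.one_lt_pow (by omega) (by omega : 1 < p)
    have h2 : (1 : ℤ) < ((p ^ N : ℕ) : ℤ) ^ g := one_lt_pow₀ h1 hg.ne'
    linarith
  unfold W
  rw [H4_sum_mul]
  refine Finset.sum_congr rfl fun y _ => ?_
  unfold Helper18.Katz.W
  rw [Helper18.Katz.sum_zmod_val (fun j => ((p ^ N : ℕ) : ℤ) ^ j * ((p : ℤ) ^ y * a) %
    (((p ^ N : ℕ) : ℤ) ^ g - 1))]
  push_cast
  rw [Finset.sum_div]
  refine Finset.sum_congr rfl fun s _ => ?_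
  have h1 := H4_fract (((p ^ N : ℕ) : ℤ) ^ s * ((p : ℤ) ^ y * a)) _ hQ
  push_cast at h1
  rw [← h1]
  congr 1
  rw [pow_mul]
  congr 1
  rw [pow_add, pow_mul]
  ring

end Pool.Agent.Helper50.UC
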