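import Pool.Agent.Helper50.UC.H4
import Pool.Agent.Helper18.Katz4

/-!
MP_0aa406_nt, project UC (helper50): a direction on `ZMod g` gives the exact gain in degree `N g`.
-/

set_option autoImplicit false

namespace Pool.Agent.Helper50.UC

open Finset Pool.Agent.Helper21.FC

theorem H5_Y_smul {P g : ℕ} [NeZero g] (s : ℤ) (z : ZMod g → ℤ) (j : ZMod g) :
    Helper18.Katz.Y P g (fun i => s * z i) j = s * Helper18.Katz.Y P g z j := by
  unfold Helper18.Katz.Y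
  rw [Finset.mul_sum]
  exact Finset.sum_congr rfl fun i _ => by ring

theorem H5_act_smul {g : ℕ} [NeZero g] (s : ℤ) (m z : ZMod g → ℤ) (j : ZMod g) :
    Helper18.Katz.act m (fun i => s * z i) j = s * Helper18.Katz.act m z j := by
  unfold Helper18.Katz.act
  rw [Finset.mul_sum]
  exact Finset.sum_congr rfl fun i _ => by ring

theorem H5_card {g : ℕ} [NeZero g] (s : ℤ) (hs : 0 < s) (z : ZMod g → ℤ) :
    (univ.filter (fun i => s * z i < 0)).card = (univ.filter (fun i => z i < 0)).card := by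
  congr 1
  ext i
  simp only [mem_filter, mem_univ, true_and]
  exact ⟨fun h => (pos_iff_neg_of_mul_neg h).1 hs, fun h => mul_neg_of_pos_of_neg hs h⟩

/-- one scale -/
theorem H5_scale {P g : ℕ} [NeZero g] (hP : 2 ≤ P) (m z : ZMod g → ℤ) (K R s : ℤ)
    (hRdef : R = ∑ i, m i) (hR : 0 < R) (hs : 0 < s)
    (hz : ∀ i, z i ≠ 0) (hact : ∀ i, Helper18.Katz.act m z i ≠ 0)
    (hK1 : ∀ i, |Helper18.Katz.act m z i| ≤ K) (hK2 : ∀ i, |z i| ≤ K)
    (hb : R * (s * K) < (P : ℤ) - 1) (d : ℤ)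
    (hd : d * R ≡ ∑ i, m i * (P : ℤ) ^ i.val [ZMOD ((P : ℤ) ^ g - 1)]) :
    ¬ ((P : ℤ) ^ g - 1) ∣ s * (R * Helper18.Katz.Y P g z 0) ∧
    Helper18.Katz.W P g (s * (d * (R * Helper18.Katz.Y P g z 0))) -
      Helper18.Katz.W P g (s * (R * Helper18.Katz.Y P g z 0)) =
      ((P : ℤ) ^ g - 1) * (((univ.filter (fun i => Helper18.Katz.act m z i < 0)).card : ℤ) -
        ((univ.filter (fun i => z i < 0)).card : ℤ)) := by
  have hK0 : 0 ≤ K := (abs_nonneg _).trans (hK2 0)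
  have hsK : 0 ≤ s * K := mul_nonneg hs.le hK0
  obtain ⟨a1, a2⟩ := Helper18.Katz.W_local hP (fun i => s * z i)
    (fun i => mul_ne_zero hs.ne' (hz i)) (s * K) R hR
    (fun i => by rw [abs_mul, abs_of_pos hs]; exact mul_le_mul_of_nonneg_left (hK2 i) hs.le)
    hb (s * (R * Helper18.Katz.Y P g z 0)) (by
      rw [H5_Y_smul, show s * (R * Helper18.Katz.Y P g z 0) =
        R * (s * Helper18.Katz.Y P g z 0) by ring])
  have hx2 : s * (d * (R * Helper18.Katz.Y P g z 0)) ≡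
      1 * Helper18.Katz.Y P g (fun i => s * Helper18.Katz.act m z i) 0
        [ZMOD ((P : ℤ) ^ g - 1)] := by
    rw [one_mul, H5_Y_smul, ← Helper18.Katz.act_Y]
    refine Int.ModEq.mul_left s ?_
    have h1 := hd.mul_right (Helper18.Katz.Y P g z 0)
    have h2 : d * (R * Helper18.Katz.Y P g z 0) = d * R * Helper18.Katz.Y P g z 0 := by ring
    rw [h2]
    refine h1.trans ?_
    rw [Finset.sum_mul]
    apply Int.ModEq.sum
    intro k _
    rw [mul_assoc]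
    exact (Helper18.Katz.mul_Y (p := P) z k 0).mul_left (m k)
  have hb1 : 1 * (s * K) < (P : ℤ) - 1 := by nlinarith
  obtain ⟨b1, b2⟩ := Helper18.Katz.W_local hP (fun i => s * Helper18.Katz.act m z i)
    (fun i => mul_ne_zero hs.ne' (hact i)) (s * K) 1 one_pos
    (fun i => by rw [abs_mul, abs_of_pos hs]; exact mul_le_mul_of_nonneg_left (hK1 i) hs.le)
    hb1 _ hx2
  refine ⟨a1, ?_⟩
  rw [a2, b2, H5_card s hs, H5_card s hs, ← Finset.mul_sum, ← Finset.mul_sum,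
    Helper18.Katz.sum_act, ← hRdef]
  ring

/- PROOF. Copy of good_local (Katz4) in base `P = p ^ N`, for all scales `y < N` at once: `z`, `K` as
there (exists_big), `R = ∑ m`, `p` so large that `R K + 1 < p - 1`; `a = R * Y P g z 0`. For `y < N` the
vector `p ^ y z` satisfies `R * (p ^ y K) < P - 1`, so W_local (Katz3) for `p ^ y z` and for
`p ^ y (act m z)` gives `Katz.W P g (d p ^ y a) - Katz.W P g (p ^ y a) ≥ c (P ^ g - 1)` (the linear
terms cancel: `∑ act m z = R ∑ z`). W_split for `a` and for `d a` (`p ^ y (d a) = d (p ^ y a)`). `a` is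
not divisible by `NN p (N g)`: W_local for `y = 0`. -/
theorem gain_of_hasVal (g : ℕ) [NeZero g] (m : ZMod g → ℤ) (c : ℤ) (hR : 0 < ∑ i, m i)
    (hv : Helper18.Katz.HasVal m univ c) : ∃ P0 : ℕ, ∀ p : ℕ, P0 ≤ p → ∀ N : ℕ, 1 ≤ N → ∀ d : ℤ,
      NN p (N * g) ∣ (∑ i, m i) * d - ∑ i : ZMod g, m i * (p : ℤ) ^ (i.val * N) →
      Gain p (N * g) d ((c : ℝ) * N) := by
  obtain ⟨z, hz, hact, hcard⟩ := hv
  obtain ⟨K, hK0, hK1, hK2⟩ := Helper18.Katz.exists_big m z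
  obtain ⟨R, hRdef⟩ : ∃ R, R = ∑ i, m i := ⟨_, rfl⟩
  rw [← hRdef] at hR
  refine ⟨(R * K + 2).toNat, fun p hp N hN d hd => ?_⟩
  rw [← hRdef] at hd
  have hRK : (0 : ℤ) < R * K := mul_pos hR hK0
  have hpRK : R * K + 2 ≤ (p : ℤ) := Int.toNat_le.mp hp
  have hp2' : (2 : ℤ) ≤ p := by linarith
  have hp2 : 2 ≤ p := by exact_mod_cast hp2'
  have hg : 0 < g := NeZero.pos g
  have hPN : ((p ^ N : ℕ) : ℤ) = (p : ℤ) ^ N := by push_cast; rfl
  have hP2 : 2 ≤ p ^ N := hp2.trans (Nat.le_self_pow (by omega) p)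
  have hNN : NN p (N * g) = ((p ^ N : ℕ) : ℤ) ^ g - 1 := by
    unfold NN
    rw [hPN, pow_mul]
  have hQ : (0 : ℤ) < ((p ^ N : ℕ) : ℤ) ^ g - 1 := by
    have h1 : (1 : ℤ) < ((p ^ N : ℕ) : ℤ) := by exact_mod_cast (by omega : 1 < p ^ N)
    have h2 : (1 : ℤ) < ((p ^ N : ℕ) : ℤ) ^ g := one_lt_pow₀ h1 hg.ne'
    linarith
  have hd' : d * R ≡ ∑ i, m i * ((p ^ N : ℕ) : ℤ) ^ i.val [ZMOD (((p ^ N : ℕ) : ℤ) ^ g - 1)] := by
    rw [Int.modEq_comm, Int.modEq_iff_dvd, ← hNN]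
    have e : d * R - ∑ i, m i * ((p ^ N : ℕ) : ℤ) ^ i.val =
        R * d - ∑ i : ZMod g, m i * (p : ℤ) ^ (i.val * N) := by
      rw [mul_comm d R]
      congr 1
      refine Finset.sum_congr rfl fun i _ => ?_
      rw [hPN, ← pow_mul, mul_comm N]
    rw [e]
    exact hd
  -- all scales
  have hsc : ∀ y, y < N → 0 < (p : ℤ) ^ y ∧ R * ((p : ℤ) ^ y * K) < ((p ^ N : ℕ) : ℤ) - 1 := by
    intro y hy
    have h0 : (0 : ℤ) < (p : ℤ) ^ y := by positivity
    refine ⟨h0, ?_⟩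
    have h1 : (p : ℤ) ^ y * p ≤ (p : ℤ) ^ N := by
      rw [← pow_succ]
      exact pow_le_pow_right₀ (by linarith) (by omega)
    rw [hPN]
    have h2 : R * ((p : ℤ) ^ y * K) = (p : ℤ) ^ y * (R * K) := by ring
    have h3 : (p : ℤ) ^ y * (R * K) ≤ (p : ℤ) ^ y * (p - 2) :=
      mul_le_mul_of_nonneg_left (by linarith) h0.le
    rw [h2]
    nlinarith
  obtain ⟨A, hA⟩ : ∃ A, A = R * Helper18.Katz.Y (p ^ N) g z 0 := ⟨_, rfl⟩
  have main : ∀ y, y < N → ¬ (((p ^ N : ℕ) : ℤ) ^ g - 1) ∣ (p : ℤ) ^ y * A ∧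
      Helper18.Katz.W (p ^ N) g ((p : ℤ) ^ y * (d * A)) -
        Helper18.Katz.W (p ^ N) g ((p : ℤ) ^ y * A) =
      (((p ^ N : ℕ) : ℤ) ^ g - 1) *
        (((univ.filter (fun i => Helper18.Katz.act m z i < 0)).card : ℤ) -
        ((univ.filter (fun i => z i < 0)).card : ℤ)) := by
    intro y hy
    obtain ⟨h0, h1⟩ := hsc y hy
    rw [hA]
    exact H5_scale hP2 m z K R ((p : ℤ) ^ y) hRdef hR h0 hz (fun i => hact i (mem_univ i))
      (fun i => (hK1 i).le) (fun i => (hK2 i).le) h1 d hd'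
  refine ⟨A, ?_, ?_⟩
  · rw [hNN]
    have h1 := (main 0 (by omega)).1
    rwa [pow_zero, one_mul] at h1
  · rw [W_split hp2 hN, W_split hp2 hN, ← Finset.sum_sub_distrib]
    have hQr : (0 : ℝ) < ((p : ℝ) ^ N) ^ g - 1 := by
      have h1 : ((((p ^ N : ℕ) : ℤ) ^ g - 1 : ℤ) : ℝ) = ((p : ℝ) ^ N) ^ g - 1 := by
        push_cast
        rfl
      rw [← h1]
      exact_mod_cast hQ
    have hle : ∀ y ∈ range N, (c : ℝ) ≤
        ((Helper18.Katz.W (p ^ N) g ((p : ℤ) ^ y * (d * A)) : ℤ) : ℝ) / (((p : ℝ) ^ N) ^ g - 1) -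
        ((Helper18.Katz.W (p ^ N) g ((p : ℤ) ^ y * A) : ℤ) : ℝ) / (((p : ℝ) ^ N) ^ g - 1) := by
      intro y hy
      obtain ⟨-, h1⟩ := main y (mem_range.1 hy)
      rw [← sub_div, le_div_iff₀ hQr]
      have h2 : c * (((p ^ N : ℕ) : ℤ) ^ g - 1) ≤
          Helper18.Katz.W (p ^ N) g ((p : ℤ) ^ y * (d * A)) -
            Helper18.Katz.W (p ^ N) g ((p : ℤ) ^ y * A) := by
        rw [h1, mul_comm c]
        exact mul_le_mul_of_nonneg_left hcard hQ.le
      have h3 := (Int.cast_le (R := ℝ)).2 h2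
      push_cast at h3
      exact h3
    calc (c : ℝ) * N = ∑ y ∈ range N, (c : ℝ) := by
          rw [Finset.sum_const, card_range, nsmul_eq_mul, mul_comm]
      _ ≤ _ := Finset.sum_le_sum hle

end Pool.Agent.Helper50.UC
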