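import Pool.Agent.Helper50.UC.H3
import Pool.Agent.Helper55.KZ.Norm
import Pool.Agent.Helper45.KZ.Folds

/-!
MP_0aa406_nt, project UC (helper50): normal form of a homogeneous relation.
-/

set_option autoImplicit false

namespace Pool.Agent.Helper50.UC

open Finset Pool.Agent.Helper21.FC Pool.Agent.Helper21.FD

theorem H6_shift (g : ℕ) [NeZero g] (N κ : ℕ) (t : ZMod g) :
    ((N * g : ℕ) : ℤ) ∣ ((t.val * N + κ * N : ℕ) : ℤ) - (((t + (κ : ZMod g)).val * N : ℕ) : ℤ) := by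
  have h1 : (((t + (κ : ZMod g)).val : ℤ) : ZMod g) = ((t.val + κ : ℤ) : ZMod g) := by
    push_cast
    rw [ZMod.natCast_zmod_val, ZMod.natCast_zmod_val]
  have h2 := (ZMod.intCast_eq_intCast_iff_dvd_sub _ _ _).1 h1
  obtain ⟨c, hc⟩ := h2
  refine ⟨c, ?_⟩
  push_cast
  have h3 : ((t.val : ℤ) * N + κ * N) - ((t + (κ : ZMod g)).val : ℤ) * N
      = N * ((t.val + κ : ℤ) - ((t + (κ : ZMod g)).val : ℤ)) := by ring
  rw [h3, hc]
  ring

/- PROOF. `R' = (N g - 1) R`, `d1 = d p ^ R'`: `h d1 ≡ ∑ w_t P ^ t` (`P = p ^ N`) modulo `P ^ g - 1`.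
For a proper divisor `g'` with `d ≡ p ^ j`: fold_unique gives `p ^ j ≡ p ^ (R + s' N)`, so
`d1 ≡ P ^ s'` modulo `P ^ g' - 1`. Helper55.KZ.normalise with base `P` (`n₀ = g`): `κ` with
`P ^ g' - 1 ∣ d1 P ^ κ - 1` for all proper `g'`. `s = R' + κ N`, `m i = w (i - κ)`
(`(p ^ N) ^ (t.val) * (p ^ N) ^ κ ≡ (p ^ N) ^ ((t + κ).val)`: pow_congr). FoldsTo: `h * 1 ≡ ∑ m_t P ^ t`
modulo `P ^ g' - 1`, fold_unique with `R = j = 0`; there `1 ≡ p ^ (s N)` with `s < g'` forces `s = 0`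
(`exp_modEq` in Norm). -/
theorem normal_form (g : ℕ) [NeZero g] (hg : 2 ≤ g) (h C : ℕ) (hh : 0 < h) : ∃ P0 : ℕ, ∀ p : ℕ,
    P0 ≤ p → ∀ N : ℕ, 1 ≤ N → ∀ w : ZMod g → ℤ, (∀ t, |w t| ≤ (C : ℤ)) → ∀ (d : ℤ) (R : ℕ),
    NN p (N * g) ∣ (h : ℤ) * d - (p : ℤ) ^ R * ∑ t : ZMod g, w t * (p : ℤ) ^ (t.val * N) →
    (∀ g' ∈ g.properDivisors, ∃ j : ℕ, NN p (N * g') ∣ d - (p : ℤ) ^ j) →
    ∃ (s : ℕ) (m : ZMod g → ℤ), (∀ t, |m t| ≤ (C : ℤ)) ∧
      (∀ g' ∈ g.properDivisors, Helper77.KZ.FoldsTo m g' h) ∧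
      NN p (N * g) ∣ (h : ℤ) * (d * (p : ℤ) ^ s) - ∑ t : ZMod g, m t * (p : ℤ) ^ (t.val * N) := by
  obtain ⟨P0, hP0⟩ := fold_unique g h C hh
  refine ⟨max P0 2, fun p hp N hN w hw d R hA hB => ?_⟩
  have hp2 : 2 ≤ p := le_trans (le_max_right _ _) hp
  have hpP : P0 ≤ p := le_trans (le_max_left _ _) hp
  have hg0 : 0 < g := by omega
  have hdv : ∀ g', g' ∣ g → NN p (N * g') ∣ NN p (N * g) := by
    rintro g' ⟨c, hc⟩
    have h1 := pow_congr p (N * g') (N * g) 0 ⟨(c : ℤ), by rw [hc]; push_cast; ring⟩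
    rw [pow_zero] at h1
    exact h1
  obtain ⟨R', hRR⟩ : ∃ R', R + R' = N * g * R := by
    refine ⟨N * g * R - R, ?_⟩
    have h1 : 1 ≤ N * g := Nat.mul_pos hN hg0
    have h2 : R ≤ N * g * R := Nat.le_mul_of_pos_left R h1
    omega
  set S : ℤ := ∑ t : ZMod g, w t * (p : ℤ) ^ (t.val * N) with hS
  -- first normalisation
  have hA1 : NN p (N * g) ∣ (h : ℤ) * (d * (p : ℤ) ^ R') - S := by
    have h1 := pow_congr p (N * g) (R + R') 0 ⟨(R : ℤ), by rw [hRR]; push_cast; ring⟩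
    have h2 : (h : ℤ) * (d * (p : ℤ) ^ R') - S
        = ((h : ℤ) * d - (p : ℤ) ^ R * S) * (p : ℤ) ^ R'
          + ((p : ℤ) ^ (R + R') - (p : ℤ) ^ 0) * S := by
      rw [pow_add, pow_zero]
      ring
    rw [h2]
    exact dvd_add (Dvd.dvd.mul_right hA _) (Dvd.dvd.mul_right h1 _)
  have hB1 : ∀ g' ∈ g.properDivisors, ∃ s' : ℕ,
      NN p (N * g') ∣ d * (p : ℤ) ^ R' - (p : ℤ) ^ (s' * N) := by
    intro g' hg'
    have hd : g' ∣ g := (Nat.mem_properDivisors.mp hg').1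
    have hg'0 : 0 < g' := Nat.pos_of_mem_properDivisors hg'
    obtain ⟨j, hj⟩ := hB g' hg'
    have h1 : NN p (N * g') ∣ (h : ℤ) * (p : ℤ) ^ j - (p : ℤ) ^ R * S := by
      have h2 : (h : ℤ) * (p : ℤ) ^ j - (p : ℤ) ^ R * S
          = ((h : ℤ) * d - (p : ℤ) ^ R * S) - h * (d - (p : ℤ) ^ j) := by ring
      rw [h2]
      exact dvd_sub ((hdv g' hd).trans hA) (Dvd.dvd.mul_left hj _)
    obtain ⟨s', -, -, h3⟩ := hP0 p hpP N hN w hw g' hg'0 hd R j h1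
    refine ⟨s', ?_⟩
    obtain ⟨c, hc⟩ := hd
    have h4 := pow_congr p (N * g') (R + s' * N + R') (s' * N) ⟨(c * R : ℕ), by
      have : R + s' * N + R' = N * g' * (c * R) + s' * N := by
        have h5 : N * g * R = N * g' * (c * R) := by rw [hc]; ring
        omega
      rw [this]
      push_cast
      ring⟩
    have h5 : d * (p : ℤ) ^ R' - (p : ℤ) ^ (s' * N)
        = (d - (p : ℤ) ^ j) * (p : ℤ) ^ R' + ((p : ℤ) ^ j - (p : ℤ) ^ (R + s' * N)) * (p : ℤ) ^ R'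
          + ((p : ℤ) ^ (R + s' * N + R') - (p : ℤ) ^ (s' * N)) := by
      rw [pow_add (p : ℤ) (R + s' * N) R']
      ring
    rw [h5]
    exact dvd_add (dvd_add (Dvd.dvd.mul_right hj _) (Dvd.dvd.mul_right h3 _)) h4
  have hP2 : 2 ≤ p ^ N := le_trans hp2 (Nat.le_self_pow (by omega) p)
  have hcast : ∀ n' : ℕ, ((p ^ N : ℕ) : ℤ) ^ n' = (p : ℤ) ^ (N * n') := by
    intro n'
    push_cast
    rw [← pow_mul]
  obtain ⟨κ, hκ⟩ := Pool.Agent.Helper55.KZ.normalise hP2 hg0 (d * (p : ℤ) ^ R') (by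
    intro n' hn'
    obtain ⟨s', hs'⟩ := hB1 n' hn'
    refine ⟨s', ?_⟩
    rw [hcast, hcast, mul_comm N s']
    exact ((Int.modEq_iff_dvd).2 (show ((p : ℤ) ^ (N * n') - 1) ∣
      d * (p : ℤ) ^ R' - (p : ℤ) ^ (s' * N) from hs')).symm)
  have hm : ∀ t : ZMod g, |w (t - (κ : ZMod g))| ≤ (C : ℤ) := fun t => hw _
  have hfin : NN p (N * g) ∣ (h : ℤ) * (d * (p : ℤ) ^ (R' + κ * N)) -
      ∑ t : ZMod g, w (t - (κ : ZMod g)) * (p : ℤ) ^ (t.val * N) := by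
    have e1 : ∑ t : ZMod g, w (t - (κ : ZMod g)) * (p : ℤ) ^ (t.val * N)
        = ∑ t : ZMod g, w t * (p : ℤ) ^ ((t + (κ : ZMod g)).val * N) := by
      symm
      refine Fintype.sum_equiv (Equiv.addRight (κ : ZMod g)) _ _ (fun t => ?_)
      simp only [Equiv.coe_addRight, add_sub_cancel_right]
    have e2 : (h : ℤ) * (d * (p : ℤ) ^ (R' + κ * N)) -
        ∑ t : ZMod g, w t * (p : ℤ) ^ ((t + (κ : ZMod g)).val * N)
        = ((h : ℤ) * (d * (p : ℤ) ^ R') - S) * (p : ℤ) ^ (κ * N)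
          + ∑ t : ZMod g, w t * ((p : ℤ) ^ (t.val * N + κ * N)
            - (p : ℤ) ^ ((t + (κ : ZMod g)).val * N)) := by
      simp only [mul_sub, Finset.sum_sub_distrib, pow_add, ← mul_assoc]
      rw [← Finset.sum_mul, ← hS]
      ring
    rw [e1, e2]
    refine dvd_add (Dvd.dvd.mul_right hA1 _) (Finset.dvd_sum (fun t _ => ?_))
    exact Dvd.dvd.mul_left (pow_congr p (N * g) _ _ (H6_shift g N κ t)) _
  refine ⟨R' + κ * N, fun t => w (t - (κ : ZMod g)), hm, ?_, hfin⟩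
  intro g' hg'
  have hd : g' ∣ g := (Nat.mem_properDivisors.mp hg').1
  have hg'0 : 0 < g' := Nat.pos_of_mem_properDivisors hg'
  have h1 : NN p (N * g') ∣ (h : ℤ) * (p : ℤ) ^ 0 -
      (p : ℤ) ^ 0 * ∑ t : ZMod g, w (t - (κ : ZMod g)) * (p : ℤ) ^ (t.val * N) := by
    have h2 := hκ g' hg'
    rw [hcast, hcast] at h2
    have h3 : (h : ℤ) * (p : ℤ) ^ 0 -
        (p : ℤ) ^ 0 * ∑ t : ZMod g, w (t - (κ : ZMod g)) * (p : ℤ) ^ (t.val * N)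
        = ((h : ℤ) * (d * (p : ℤ) ^ (R' + κ * N)) -
          ∑ t : ZMod g, w (t - (κ : ZMod g)) * (p : ℤ) ^ (t.val * N))
          - h * (d * (p : ℤ) ^ R' * (p : ℤ) ^ (N * κ) - 1) := by
      rw [pow_zero, pow_add, mul_comm N κ]
      ring
    rw [h3]
    exact dvd_sub ((hdv g' hd).trans hfin) (Dvd.dvd.mul_left h2 _)
  obtain ⟨s0, hs0, hfold, h4⟩ := hP0 p hpP N hN _ hm g' hg'0 hd 0 0 h1
  have hNg : 0 < N * g' := Nat.mul_pos hN hg'0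
  have h5 := Pool.Agent.Helper55.KZ.exp_modEq hp2 hNg (a := 0 + s0 * N) (b := 0)
    ((Int.modEq_iff_dvd).2 (show ((p : ℤ) ^ (N * g') - 1) ∣ (p : ℤ) ^ 0 - (p : ℤ) ^ (0 + s0 * N)
      from h4))
  have h6 : s0 * N = 0 := by
    have h7 : N * g' ∣ 0 + s0 * N := (Nat.modEq_zero_iff_dvd).1 h5
    rw [zero_add] at h7
    refine Nat.eq_zero_of_dvd_of_lt h7 ?_
    rw [mul_comm N g']
    exact Nat.mul_lt_mul_of_pos_right hs0 hN
  have h8 : s0 = 0 := by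
    rcases Nat.mul_eq_zero.1 h6 with h9 | h9
    · exact h9
    · omega
  intro j hj
  rw [hfold j hj, h8]

end Pool.Agent.Helper50.UC
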