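import Pool.Agent.Helper50.UC.H5
import Pool.Agent.Helper50.UC.H6
import Pool.Agent.Helper21.FC.F1
import Pool.Agent.Helper77.KZ.Main

/-!
MP_0aa406_nt, project UC (helper50): the exact gain at the first level where `d` is nondegenerate.
-/

set_option autoImplicit false

namespace Pool.Agent.Helper50.UC

open Finset Filter Pool.Agent.Helper21.FC Pool.Agent.Helper21.FD

/-- twisting by a power of `p` does not change the gains (W_pow_mul) -/
theorem gain_twist {p n : ℕ} (hp : 2 ≤ p) (hn : 1 ≤ n) (d : ℤ) (s : ℕ) (c : ℝ)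
    (h : Gain p n (d * (p : ℤ) ^ s) c) : Gain p n d c := by
  obtain ⟨a, ha, hc⟩ := h
  refine ⟨a, ha, ?_⟩
  have e : d * (p : ℤ) ^ s * a = (p : ℤ) ^ s * (d * a) := by ring
  rw [e, W_pow_mul hp hn] at hc
  exact hc

theorem H7_nondeg {p n : ℕ} (hn : 1 ≤ n) (d : ℤ) (s : ℕ)
    (hnd : ∀ j : ℕ, ¬ NN p n ∣ d - (p : ℤ) ^ j) (j : ℕ) :
    ¬ NN p n ∣ d * (p : ℤ) ^ s - (p : ℤ) ^ j := by
  intro h
  apply hnd (j + (n - 1) * s)
  have h1 := h.mul_right ((p : ℤ) ^ ((n - 1) * s))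
  have h2 : NN p n ∣ (p : ℤ) ^ (n * s) - 1 := by
    unfold NN
    rw [pow_mul]
    exact sub_one_dvd_pow_sub_one _ _
  have e1 : n * s = s + (n - 1) * s := by
    obtain ⟨k, rfl⟩ : ∃ k, n = k + 1 := ⟨n - 1, by omega⟩
    simp only [Nat.add_sub_cancel]
    ring
  have h3 := h2.mul_left d
  have h4 := dvd_sub h1 h3
  have e2 : (d * (p : ℤ) ^ s - (p : ℤ) ^ j) * (p : ℤ) ^ ((n - 1) * s) -
      d * ((p : ℤ) ^ (n * s) - 1) = d - (p : ℤ) ^ (j + (n - 1) * s) := by
    rw [e1, pow_add, pow_add]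
    ring
  rwa [e2] at h4

/- PROOF. normal_form: `m`, `s`. The sum of `m` is `h` (FoldsTo for the proper divisor `1`). There are
finitely many `m` with `|m t| ≤ C`: choose `P0` for all of them at once (Filter.eventually_all_finite).
(i) at least two nonzero entries: hasVal_cc (KZ/Main), gain_of_hasVal, gain_twist.
(ii) exactly one nonzero entry: it is `h`, so `h (d p ^ s) ≡ h p ^ (i N)`: case_one (FC/F1) for
`d p ^ s` (which is nondegenerate as `d` is: multiply by `p ^ ((N g - 1) s)`), gain_twist. -/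
theorem level (g : ℕ) [NeZero g] (hg : 2 ≤ g) (h C : ℕ) (hh : 0 < h) : ∃ (P0 : ℕ) (C0 : ℝ),
    ∀ p : ℕ, P0 ≤ p → ∀ N : ℕ, 1 ≤ N → ∀ w : ZMod g → ℤ, (∀ t, |w t| ≤ (C : ℤ)) →
    ∀ (d : ℤ) (R : ℕ),
    NN p (N * g) ∣ (h : ℤ) * d - (p : ℤ) ^ R * ∑ t : ZMod g, w t * (p : ℤ) ^ (t.val * N) →
    (∀ j : ℕ, ¬ NN p (N * g) ∣ d - (p : ℤ) ^ j) →
    (∀ g' ∈ g.properDivisors, ∃ j : ℕ, NN p (N * g') ∣ d - (p : ℤ) ^ j) →
    Gain p (N * g) d (((Helper77.KZ.cc g : ℕ) : ℝ) * N) ∨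
      Gain p (N * g) d (((N * g : ℕ) : ℝ) / 2 - C0) := by
  classical
  obtain ⟨Pa, hPa⟩ := normal_form g hg h C hh
  obtain ⟨C2, hC2⟩ := case_one h hh
  -- one bound for all `m`
  have hall : ∀ m : ZMod g → ℤ, ∃ P1 : ℕ, (0 < ∑ i, m i) →
      Helper18.Katz.HasVal m univ (Helper77.KZ.cc g : ℤ) → ∀ p : ℕ, P1 ≤ p → ∀ N : ℕ, 1 ≤ N →
      ∀ d : ℤ, NN p (N * g) ∣ (∑ i, m i) * d - ∑ i : ZMod g, m i * (p : ℤ) ^ (i.val * N) →
      Gain p (N * g) d (((Helper77.KZ.cc g : ℤ) : ℝ) * N) := by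
    intro m
    by_cases h1 : 0 < ∑ i, m i
    · by_cases h2 : Helper18.Katz.HasVal m univ (Helper77.KZ.cc g : ℤ)
      · obtain ⟨P1, hP1⟩ := gain_of_hasVal g m _ h1 h2
        exact ⟨P1, fun _ _ => hP1⟩
      · exact ⟨0, fun _ h => absurd h h2⟩
    · exact ⟨0, fun h => absurd h h1⟩
  choose P1 hP1 using hall
  refine ⟨max (max Pa 2) ((Fintype.piFinset fun _ : ZMod g => Finset.Icc (-(C : ℤ)) C).sup P1), C2,
    ?_⟩
  intro p hp N hN w hw d R hrel hnd hdeg
  have hpa : Pa ≤ p := (le_max_left _ _).trans ((le_max_left _ _).trans hp)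
  have hp2 : 2 ≤ p := (le_max_right _ _).trans ((le_max_left _ _).trans hp)
  have hg0 : 0 < g := NeZero.pos g
  have hNg : 1 ≤ N * g := Nat.mul_pos hN hg0
  obtain ⟨s, m, hm, hfold, hrel'⟩ := hPa p hpa N hN w hw d R hrel hdeg
  have hsum : ∑ i, m i = (h : ℤ) := by
    have h1 : (1 : ℕ) ∈ g.properDivisors := by
      rw [Nat.mem_properDivisors]
      exact ⟨one_dvd _, by omega⟩
    have h2 := hfold 1 h1 0 (by norm_num)
    simpa [Nat.mod_one] using h2
  have hhz : (0 : ℤ) < (h : ℤ) := by exact_mod_cast hh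
  have hmem : m ∈ Fintype.piFinset fun _ : ZMod g => Finset.Icc (-(C : ℤ)) C := by
    rw [Fintype.mem_piFinset]
    intro t
    rw [Finset.mem_Icc]
    exact abs_le.1 (hm t)
  have hP1p : P1 m ≤ p := (Finset.le_sup (f := P1) hmem).trans ((le_max_right _ _).trans hp)
  by_cases hτ : 2 ≤ (univ.filter (fun i => m i ≠ 0)).card
  · left
    have hv := Helper77.KZ.hasVal_cc hg m h hhz hfold hτ
    have h1 := hP1 m (by rw [hsum]; exact hhz) hv p hP1p N hN (d * (p : ℤ) ^ s) (by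
      rw [hsum]; exact hrel')
    have h2 := gain_twist hp2 hNg d s _ h1
    simpa using h2
  · right
    have hne : (univ.filter (fun i => m i ≠ 0)).Nonempty := by
      by_contra hcon
      rw [Finset.not_nonempty_iff_eq_empty, Finset.filter_eq_empty_iff] at hcon
      have h0 : ∑ i, m i = 0 := Finset.sum_eq_zero fun i _ => by
        by_contra h3
        exact hcon (mem_univ i) h3
      rw [hsum] at h0
      omega
    obtain ⟨i0, hi0⟩ := Finset.card_eq_one.1 (show (univ.filter (fun i => m i ≠ 0)).card = 1 by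
      have := hne.card_pos
      omega)
    have hz : ∀ i, i ≠ i0 → m i = 0 := by
      intro i hi
      by_contra h3
      have h4 : i ∈ univ.filter (fun i => m i ≠ 0) := by simp [h3]
      rw [hi0, Finset.mem_singleton] at h4
      exact hi h4
    have hm0 : m i0 = h := by
      rw [← hsum]
      exact (Finset.sum_eq_single i0 (fun i _ hi => hz i hi) (by simp)).symm
    have hs1 : ∑ t : ZMod g, m t * (p : ℤ) ^ (t.val * N) = h * (p : ℤ) ^ (i0.val * N) := by
      rw [Finset.sum_eq_single i0 (fun i _ hi => by rw [hz i hi, zero_mul]) (by simp), hm0]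
    rw [hs1] at hrel'
    have h1 := hC2 p (N * g) hp2 hNg (d * (p : ℤ) ^ s) (i0.val * N)
      (H7_nondeg hNg d s hnd) hrel'
    exact gain_twist hp2 hNg d s _ h1

end Pool.Agent.Helper50.UC
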