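import Pool.Agent.Helper50.UC.H7
import Pool.Agent.Helper21.FD.K1

/-!
MP_0aa406_nt, project UC (helper50): the homogeneous case.
-/

set_option autoImplicit false

namespace Pool.Agent.Helper50.UC

open Finset Filter Pool.Agent.Helper21.FC Pool.Agent.Helper21.FD

private theorem H8_gain_mono {p n : ℕ} {d : ℤ} {c c' : ℝ} (h : Gain p n d c) (hc : c' ≤ c) :
    Gain p n d c' := by
  obtain ⟨a, ha, hg⟩ := h
  exact ⟨a, ha, hc.trans hg⟩

private theorem H8_fold (p N g g1 : ℕ) [NeZero g] [NeZero g1] (hd : g1 ∣ g) (w : ZMod g → ℤ) :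
    NN p (N * g1) ∣ ∑ t : ZMod g, w t * (p : ℤ) ^ (t.val * N) -
      ∑ i : ZMod g1, (∑ t : ZMod g, if t.val % g1 = i.val then w t else 0) *
        (p : ℤ) ^ (i.val * N) := by
  rw [Helper18.Katz.sum_zmod_val
    (fun i => (∑ t : ZMod g, if t.val % g1 = i then w t else 0) * (p : ℤ) ^ (i * N))]
  exact fold_mod p N g g1 (Nat.pos_of_ne_zero (NeZero.ne g1)) hd w

private theorem H8_abs (g g1 : ℕ) [NeZero g] (C : ℕ) (w : ZMod g → ℤ) (hw : ∀ t, |w t| ≤ (C : ℤ))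
    (i : ℕ) : |∑ t : ZMod g, if t.val % g1 = i then w t else 0| ≤ ((g * C : ℕ) : ℤ) := by
  calc |∑ t : ZMod g, if t.val % g1 = i then w t else 0|
      ≤ ∑ t : ZMod g, |if t.val % g1 = i then w t else 0| := abs_sum_le_sum_abs _ _
    _ ≤ ∑ _t : ZMod g, (C : ℤ) := by
        refine sum_le_sum fun t _ => ?_
        split_ifs
        · exact hw t
        · rw [abs_zero]; positivity
    _ = ((g * C : ℕ) : ℤ) := by
        rw [sum_const, card_univ, ZMod.card, nsmul_eq_mul]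
        push_cast
        ring

private theorem H8_cc {g1 l : ℕ} (hg1 : 2 ≤ g1) (hl : 1 ≤ l)
    (hmin : ∀ q : ℕ, q.Prime → q ≠ 2 → q ∣ g1 → l ≤ q) :
    (1 / 2 - 1 / (2 * (l : ℝ))) * (g1 : ℝ) ≤ (Helper77.KZ.cc g1 : ℝ) := by
  have hl0 : (0 : ℝ) < l := by exact_mod_cast hl
  have hg0 : (0 : ℝ) ≤ g1 := Nat.cast_nonneg _
  by_cases hodd : Odd g1
  · obtain ⟨q, r, hq, hqr, hc⟩ := Helper77.KZ.cc_odd hodd (by omega)
    have hlq : l ≤ q := by
      have hqp : q.Prime := by rw [← hq]; exact Nat.minFac_prime (by omega)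
      apply hmin q hqp
      · rintro rfl
        have : (2 : ℕ) ∣ g1 := by rw [← hq]; exact Nat.minFac_dvd g1
        exact (Nat.not_even_iff_odd.mpr hodd) (even_iff_two_dvd.mpr this)
      · exact Dvd.intro _ hqr
    have h1 : 2 * (Helper77.KZ.cc g1 : ℝ) + r = g1 := by exact_mod_cast hc
    have h2 : (q : ℝ) * r = g1 := by exact_mod_cast hqr
    have h3 : (l : ℝ) ≤ q := by exact_mod_cast hlq
    have h4 : (0 : ℝ) ≤ r := Nat.cast_nonneg _
    have h5 : (r : ℝ) ≤ g1 / l := by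
      rw [le_div_iff₀ hl0]
      nlinarith [mul_le_mul_of_nonneg_right h3 h4]
    have h6 : (1 / 2 - 1 / (2 * (l : ℝ))) * (g1 : ℝ) = (g1 - g1 / l) / 2 := by
      field_simp
    rw [h6]
    linarith
  · have hcc : 2 * (Helper77.KZ.cc g1 : ℝ) = g1 := by
      obtain ⟨j, hj⟩ := Nat.not_odd_iff_even.mp hodd
      have : 2 * Helper77.KZ.cc g1 = g1 := by
        unfold Helper77.KZ.cc
        rw [if_neg hodd]
        omega
      exact_mod_cast this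
    have h7 : 0 ≤ 1 / (2 * (l : ℝ)) := by positivity
    nlinarith [mul_nonneg h7 hg0]

/- PROOF. `g1` = the least divisor of `g` (Nat.find) with `d` nondegenerate modulo `NN p (N g1)`; `g1 ≥ 2`
as `d` is degenerate modulo `NN p N`. All proper divisors of `g1` are smaller divisors of `g`. Fold `w`
to `ZMod g1` (fold_mod; `|w1| ≤ g C`; `NN p (N g1) ∣ NN p (N g)`: NN_dvd in FD/K1), `level` for `g1`,
then gain_lift (FD/K1) with the factor `t = g / g1`: `N g1 t = N g`. In the first case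
`t * cc g1 * N ≥ (1/2 - 1/(2l)) N g`: cc_odd / even as in KZ.main_bound (`minFac g1 ≥ l` for `g1` odd).
In the second `t (N g1 / 2 - C0) ≥ N g / 2 - g max(C0, 0)`. Constants: maxima over the divisors of `g`. -/
theorem hom_exact (g : ℕ) [NeZero g] (h C : ℕ) (hh : 0 < h) : ∃ (P0 : ℕ) (C0 : ℝ),
    ∀ p : ℕ, P0 ≤ p → ∀ N : ℕ, 1 ≤ N → ∀ w : ZMod g → ℤ, (∀ t, |w t| ≤ (C : ℤ)) →
    ∀ (d : ℤ) (R : ℕ),
    NN p (N * g) ∣ (h : ℤ) * d - (p : ℤ) ^ R * ∑ t : ZMod g, w t * (p : ℤ) ^ (t.val * N) →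
    (∀ j : ℕ, ¬ NN p (N * g) ∣ d - (p : ℤ) ^ j) → (∃ j : ℕ, NN p N ∣ d - (p : ℤ) ^ j) →
    ∀ l : ℕ, 1 ≤ l → (∀ q : ℕ, q.Prime → q ≠ 2 → q ∣ g → l ≤ q) →
    Gain p (N * g) d ((1 / 2 - 1 / (2 * (l : ℝ))) * ((N * g : ℕ) : ℝ)) ∨
      Gain p (N * g) d (((N * g : ℕ) : ℝ) / 2 - C0) := by
  classical
  have hg0 : 0 < g := Nat.pos_of_ne_zero (NeZero.ne g)
  have hlev : ∀ k : ℕ, ∃ (P0 : ℕ) (C0 : ℝ), 2 ≤ k → ∀ _ : NeZero k,
      ∀ p : ℕ, P0 ≤ p → ∀ N : ℕ, 1 ≤ N → ∀ w : ZMod k → ℤ, (∀ t, |w t| ≤ ((g * C : ℕ) : ℤ)) →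
      ∀ (d : ℤ) (R : ℕ),
      NN p (N * k) ∣ (h : ℤ) * d - (p : ℤ) ^ R * ∑ t : ZMod k, w t * (p : ℤ) ^ (t.val * N) →
      (∀ j : ℕ, ¬ NN p (N * k) ∣ d - (p : ℤ) ^ j) →
      (∀ g' ∈ k.properDivisors, ∃ j : ℕ, NN p (N * g') ∣ d - (p : ℤ) ^ j) →
      Gain p (N * k) d (((Helper77.KZ.cc k : ℕ) : ℝ) * N) ∨
        Gain p (N * k) d (((N * k : ℕ) : ℝ) / 2 - C0) := by
    intro k
    by_cases hk2 : 2 ≤ k
    · have hnz : NeZero k := ⟨by omega⟩
      obtain ⟨P0, C0, hP⟩ := level k hk2 h (g * C) hh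
      exact ⟨P0, C0, fun _ _ => hP⟩
    · exact ⟨0, 0, fun h => absurd h hk2⟩
  choose PP CC hPC using hlev
  refine ⟨max 2 (g.divisors.sup PP), g * ∑ k ∈ g.divisors, |CC k|, ?_⟩
  intro p hp N hN w hw d R hrel hnd hdeg l hl hmin
  have hp2 : 2 ≤ p := le_trans (le_max_left _ _) hp
  have hpP : ∀ k ∈ g.divisors, PP k ≤ p := fun k hk =>
    (Finset.le_sup hk).trans ((le_max_right _ _).trans hp)
  have hex : ∃ k : ℕ, k ∣ g ∧ ∀ j : ℕ, ¬ NN p (N * k) ∣ d - (p : ℤ) ^ j := ⟨g, dvd_rfl, hnd⟩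
  obtain ⟨hkg, hknd⟩ := Nat.find_spec hex
  have hkmin : ∀ k' < Nat.find hex, k' ∣ g → ∃ j : ℕ, NN p (N * k') ∣ d - (p : ℤ) ^ j := by
    intro k' hk' hk'm
    have := Nat.find_min hex hk'
    push Not at this
    exact this hk'm
  generalize Nat.find hex = g1 at hkg hknd hkmin
  have hg10 : 0 < g1 := Nat.pos_of_dvd_of_pos hkg hg0
  have hg11 : g1 ≠ 1 := by
    rintro rfl
    obtain ⟨j, hj⟩ := hdeg
    rw [mul_one] at hknd
    exact hknd j hj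
  have hg12 : 2 ≤ g1 := by omega
  have hnz : NeZero g1 := ⟨by omega⟩
  obtain ⟨t0, ht0⟩ := hkg
  have ht00 : 0 < t0 := by
    rcases Nat.eq_zero_or_pos t0 with h0 | h0
    · rw [h0, mul_zero] at ht0; omega
    · exact h0
  have hdvd : g1 ∣ g := ⟨t0, ht0⟩
  have hmem : g1 ∈ g.divisors := Nat.mem_divisors.2 ⟨hdvd, hg0.ne'⟩
  have hNg : N * g = N * g1 * t0 := by rw [ht0, mul_assoc]
  have hNNd : NN p (N * g1) ∣ NN p (N * g) := by rw [hNg]; exact NN_dvd p (N * g1) t0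
  have hrel1 : NN p (N * g1) ∣ (h : ℤ) * d - (p : ℤ) ^ R *
      ∑ i : ZMod g1, (∑ t : ZMod g, if t.val % g1 = i.val then w t else 0) *
        (p : ℤ) ^ (i.val * N) := by
    have e1 := hNNd.trans hrel
    have e2 := (H8_fold p N g g1 hdvd w).mul_left ((p : ℤ) ^ R)
    have e3 := dvd_add e1 e2
    rw [mul_sub, sub_add_sub_cancel] at e3
    exact e3
  have key := hPC g1 hg12 hnz p (hpP g1 hmem) N hN
    (fun i => ∑ t : ZMod g, if t.val % g1 = i.val then w t else 0)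
    (fun i => H8_abs g g1 C w hw i.val) d R hrel1 hknd
    (fun g' hg' => by
      rw [Nat.mem_properDivisors] at hg'
      exact hkmin g' hg'.2 (hg'.1.trans hdvd))
  have hm1 : 1 ≤ N * g1 := Nat.mul_pos hN hg10
  have hgR : (g : ℝ) = g1 * t0 := by rw [ht0]; push_cast; ring
  have ht0R : (0 : ℝ) ≤ t0 := Nat.cast_nonneg _
  have hNR : (0 : ℝ) ≤ N := Nat.cast_nonneg _
  rcases key with hk | hk
  · left
    have h1 := gain_lift hp2 hm1 ht00 d _ hk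
    rw [← hNg] at h1
    refine H8_gain_mono h1 ?_
    have h2 := H8_cc hg12 hl (fun q hq hq2 hqg => hmin q hq hq2 (hqg.trans hdvd))
    have h3 := mul_le_mul_of_nonneg_right h2 (mul_nonneg ht0R hNR)
    calc (1 / 2 - 1 / (2 * (l : ℝ))) * ((N * g : ℕ) : ℝ)
        = (1 / 2 - 1 / (2 * (l : ℝ))) * (g1 : ℝ) * (t0 * N) := by
          push_cast
          rw [hgR]
          ring
      _ ≤ (Helper77.KZ.cc g1 : ℝ) * (t0 * N) := h3
      _ = (t0 : ℝ) * (((Helper77.KZ.cc g1 : ℕ) : ℝ) * N) := by ring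
  · right
    have h1 := gain_lift hp2 hm1 ht00 d _ hk
    rw [← hNg] at h1
    refine H8_gain_mono h1 ?_
    have h2 : |CC g1| ≤ ∑ k ∈ g.divisors, |CC k| :=
      Finset.single_le_sum (f := fun k => |CC k|) (fun k _ => abs_nonneg _) hmem
    have h3 : (t0 : ℝ) ≤ g := by
      have : t0 ≤ g := Nat.le_of_dvd hg0 ⟨g1, by rw [ht0, mul_comm]⟩
      exact_mod_cast this
    have h4 : (t0 : ℝ) * CC g1 ≤ g * ∑ k ∈ g.divisors, |CC k| :=
      (mul_le_mul_of_nonneg_left (le_abs_self _) ht0R).trans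
        (mul_le_mul h3 h2 (abs_nonneg _) (Nat.cast_nonneg _))
    have h5 : ((N * g : ℕ) : ℝ) / 2 = (t0 : ℝ) * (((N * g1 : ℕ) : ℝ) / 2) := by
      push_cast
      rw [hgR]
      ring
    rw [h5]
    linarith

end Pool.Agent.Helper50.UC
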