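import Pool.Agent.Helper21.FD.Q4
import Pool.Agent.Helper21.FD.L1
import Pool.Agent.Helper21.FD.G9

/-!
MP_0aa406_nt, project UC (helper50): a direction for an inhomogeneous circulant.
-/

set_option autoImplicit false

namespace Pool.Agent.Helper50.UC

open Finset Filter Polynomial Pool.Agent.Helper21.FC Pool.Agent.Helper21.FD

private theorem L1_large (R : ℤ[X]) (D : ℕ) (hD : 0 < D) (hd : R.natDegree ≤ D)
    (hc : R.coeff D ≠ 0) :
    ∀ᶠ x : ℝ in atTop, sg (aeval x R) = Int.sign (R.coeff D) ∧ aeval x R ≠ 0 := by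
  have hnd : R.natDegree = D := le_antisymm hd (le_natDegree_of_ne_zero hc)
  have hlc : (R.map (Int.castRingHom ℝ)).leadingCoeff = ((R.coeff D : ℤ) : ℝ) := by
    rw [leadingCoeff, natDegree_map_eq_of_injective (RingHom.injective_int (Int.castRingHom ℝ)),
      coeff_map, hnd]
    rfl
  have hdeg : 0 < (R.map (Int.castRingHom ℝ)).degree := by
    rw [← natDegree_pos_iff_degree_pos,
      natDegree_map_eq_of_injective (RingHom.injective_int (Int.castRingHom ℝ)), hnd]
    exact hD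
  have hev : ∀ x : ℝ, eval x (R.map (Int.castRingHom ℝ)) = aeval x R := by
    intro x
    rw [aeval_def, eval₂_eq_eval_map]
    rfl
  rcases lt_or_gt_of_ne hc with h | h
  · have h1 : (R.map (Int.castRingHom ℝ)).leadingCoeff ≤ 0 := by
      rw [hlc]
      exact_mod_cast h.le
    have h2 := (tendsto_atBot_of_leadingCoeff_nonpos _ hdeg h1).eventually (eventually_lt_atBot 0)
    filter_upwards [h2] with x hx
    rw [hev] at hx
    refine ⟨?_, hx.ne⟩
    rw [Int.sign_eq_neg_one_of_neg h]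
    unfold sg
    rw [if_neg (not_lt.2 hx.le), if_pos hx]
  · have h1 : 0 ≤ (R.map (Int.castRingHom ℝ)).leadingCoeff := by
      rw [hlc]
      exact_mod_cast h.le
    have h2 := (tendsto_atTop_of_leadingCoeff_nonneg _ hdeg h1).eventually (eventually_gt_atTop 0)
    filter_upwards [h2] with x hx
    rw [hev] at hx
    refine ⟨?_, hx.ne'⟩
    rw [Int.sign_eq_one_of_pos h]
    unfold sg
    rw [if_pos hx]

private theorem L1_rho (k : ℕ) [NeZero k] : Tendsto (fun p : ℕ => rho p k) atTop atTop := by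
  unfold rho
  have hk : 0 < (1 : ℝ) / k := by
    have : (0 : ℝ) < k := by exact_mod_cast Nat.pos_of_ne_zero (NeZero.ne k)
    positivity
  exact (tendsto_rpow_atTop hk).comp tendsto_natCast_atTop_atTop

/- PROOF. generic (FD/G9) for the functionals `φ_u (i) = (F (u - i)).coeff D` (none is zero):
`v_i = s ^ i.val`, `L_u = ∑_i (F (u - i)).coeff D * v_i ≠ 0` for all `u`. Let `Δ` be an integer larger
than all `v_i`, `y_i = Δ + σ v_i > 0` for `σ = 1` or `-1`. The row `u` is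
`act a y u = aeval ρ (R_u)`, `R_u = C Δ * ∑ F + C σ * ∑_i F (u - i) * C (v_i)`, a polynomial of degree
`≤ D` with coefficient `σ L_u` at `D` (as `j < D`), so for `ρ` large (`ρ = p ^ (1/k)` tends to infinity
with `p`) it is nonzero and has the sign of `σ L_u`. Choose `σ` with `∑_u sign (σ L_u) ≤ 0`. Then
`∑ sg (y i) = k`. `Alg`: alg_int (FD/L1), `B` with `2 ^ B ≥ |y_i|`. -/
theorem aval_nonhom (k : ℕ) [NeZero k] (F : ZMod k → ℤ[X]) (s : ℤ) (j D : ℕ)
    (hs : ∑ c, F c = C s * X ^ j) (hj : j < D) (hdeg : ∀ c, (F c).natDegree ≤ D)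
    (hne : ∃ c, (F c).coeff D ≠ 0) :
    ∃ B P : ℕ, ∀ p : ℕ, P ≤ p → ∀ a : ZMod k → ℝ,
      (∀ c, a c = aeval (rho p k) (F c)) → AVal p k B a k := by
  classical
  obtain ⟨c0, hc0⟩ := hne
  obtain ⟨s0, hs1, -, hL⟩ := generic (F := ZMod k)
    (fun u i => (((F (u - i)).coeff D : ℤ) : ℝ))
    (fun u => ⟨u - c0, by
      rw [sub_sub_cancel]
      exact_mod_cast hc0⟩)
  set L : ZMod k → ℤ := fun u => ∑ i, (F (u - i)).coeff D * (s0 : ℤ) ^ i.val with hLdef
  have hL0 : ∀ u, L u ≠ 0 := by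
    intro u h
    apply hL u
    have h2 : ((L u : ℤ) : ℝ) = 0 := by rw [h, Int.cast_zero]
    rw [← h2, hLdef]
    push_cast
    rfl
  obtain ⟨σ, hσ, hσL⟩ : ∃ σ : ℤ, (σ = 1 ∨ σ = -1) ∧ ∑ u, Int.sign (σ * L u) ≤ 0 := by
    by_cases h : ∑ u, Int.sign (L u) ≤ 0
    · exact ⟨1, Or.inl rfl, by simpa using h⟩
    · refine ⟨-1, Or.inr rfl, ?_⟩
      have e : ∑ u, Int.sign (-1 * L u) = - ∑ u, Int.sign (L u) := by
        rw [← sum_neg_distrib]
        refine sum_congr rfl fun u _ => ?_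
        rw [neg_one_mul, Int.sign_neg]
      rw [e]
      omega
  have hσ0 : σ ≠ 0 := by rcases hσ with h | h <;> rw [h] <;> norm_num
  set Δ : ℤ := (s0 : ℤ) ^ k + 1 with hΔ
  have hv : ∀ i : ZMod k, 1 ≤ (s0 : ℤ) ^ i.val ∧ (s0 : ℤ) ^ i.val ≤ (s0 : ℤ) ^ k := by
    intro i
    have h1 : (1 : ℤ) ≤ s0 := by exact_mod_cast hs1
    exact ⟨one_le_pow₀ h1, pow_le_pow_right₀ h1 (ZMod.val_lt i).le⟩
  have hy : ∀ i : ZMod k, 0 < Δ + σ * (s0 : ℤ) ^ i.val ∧
      Δ + σ * (s0 : ℤ) ^ i.val ≤ 2 * (s0 : ℤ) ^ k + 1 := by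
    intro i
    have h1 := hv i
    rcases hσ with h | h <;> rw [h] <;> constructor <;> omega
  set R : ZMod k → ℤ[X] := fun u => C Δ * (C s * X ^ j) +
    C σ * ∑ i : ZMod k, F (u - i) * C ((s0 : ℤ) ^ i.val) with hR
  have hRc : ∀ u, (R u).coeff D = σ * L u := by
    intro u
    simp only [hR, hLdef]
    rw [coeff_add, coeff_C_mul, coeff_C_mul, coeff_X_pow, if_neg (by omega), mul_zero, mul_zero,
      zero_add, coeff_C_mul, finsetSum_coeff]
    congr 1
    refine sum_congr rfl fun i _ => ?_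
    rw [coeff_mul_C]
  have hRd : ∀ u, (R u).natDegree ≤ D := by
    intro u
    simp only [hR]
    refine (natDegree_add_le _ _).trans (max_le ?_ ?_)
    · refine (natDegree_C_mul_le _ _).trans ((natDegree_C_mul_X_pow_le _ _).trans hj.le)
    · refine (natDegree_C_mul_le _ _).trans ?_
      refine natDegree_sum_le_of_forall_le _ _ fun i _ => ?_
      exact (natDegree_mul_C_le _ _).trans (hdeg _)
  have hbig : ∀ᶠ p : ℕ in atTop, ∀ u : ZMod k,
      sg (aeval (rho p k) (R u)) = Int.sign (σ * L u) ∧ aeval (rho p k) (R u) ≠ 0 := by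
    rw [eventually_all]
    intro u
    have h := (L1_rho k).eventually (L1_large (R u) D (by omega) (hRd u)
      (by rw [hRc]; exact mul_ne_zero hσ0 (hL0 u)))
    simpa only [hRc] using h
  obtain ⟨P0, hP0⟩ := eventually_atTop.1 hbig
  refine ⟨2 * s0 ^ k + 1, max P0 2, fun p hp a ha => ?_⟩
  have hp2 : 2 ≤ p := (le_max_right _ _).trans hp
  have hpP := hP0 p ((le_max_left _ _).trans hp)
  have hact : ∀ u, act a (fun i => ((Δ + σ * (s0 : ℤ) ^ i.val : ℤ) : ℝ)) u =
      aeval (rho p k) (R u) := by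
    intro u
    have e1 : ∑ i, a (u - i) = aeval (rho p k) (C s * X ^ j : ℤ[X]) := by
      rw [← hs, map_sum]
      exact ((Equiv.subLeft u).sum_comp a).trans (sum_congr rfl fun c _ => ha c)
    have e2 : aeval (rho p k) (R u) = (Δ : ℝ) * ∑ i, a (u - i) +
        (σ : ℝ) * ∑ i, a (u - i) * ((s0 : ℤ) ^ i.val : ℤ) := by
      rw [e1]
      simp only [hR]
      rw [map_add, map_mul, aeval_C, map_mul (aeval (rho p k)) (C σ), aeval_C, map_sum]
      simp only [map_mul, aeval_C, ha]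
      rfl
    rw [e2]
    unfold act
    rw [mul_sum, mul_sum, ← sum_add_distrib]
    refine sum_congr rfl fun i _ => ?_
    push_cast
    ring
  refine ⟨fun i => ((Δ + σ * (s0 : ℤ) ^ i.val : ℤ) : ℝ), fun i => ?_, fun i => ?_, fun u => ?_, ?_⟩
  · refine alg_int _ _ ?_
    have h1 := hy i
    rw [abs_of_pos h1.1]
    refine h1.2.trans ?_
    have h2 := L1_card_le (p := p) hp2 (2 * s0 ^ k + 1)
    push_cast at h2
    exact h2
  · have h1 : (Δ + σ * (s0 : ℤ) ^ i.val) ≠ 0 := (hy i).1.ne'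
    exact Int.cast_ne_zero.2 h1
  · rw [hact]
    exact (hpP u).2
  · have e3 : ∑ i : ZMod k, sg ((Δ + σ * (s0 : ℤ) ^ i.val : ℤ) : ℝ) = (k : ℤ) := by
      have : ∀ i : ZMod k, sg ((Δ + σ * (s0 : ℤ) ^ i.val : ℤ) : ℝ) = 1 := by
        intro i
        unfold sg
        rw [if_pos (by exact_mod_cast (hy i).1)]
      rw [sum_congr rfl fun i _ => this i, sum_const, card_univ, ZMod.card, nsmul_eq_mul, mul_one]
    have e4 : ∑ u, sg (act a (fun i => ((Δ + σ * (s0 : ℤ) ^ i.val : ℤ) : ℝ)) u) =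
        ∑ u, Int.sign (σ * L u) := by
      refine sum_congr rfl fun u _ => ?_
      rw [hact, (hpP u).1]
    rw [e3, e4]
    have : (k : ℤ) ≤ k - ∑ u, Int.sign (σ * L u) := by omega
    exact_mod_cast this

end Pool.Agent.Helper50.UC
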