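import Pool.Agent.Helper50.UC.L1
import Pool.Agent.Helper21.FD.R2
import Pool.Agent.Helper21.FD.S4

/-!
MP_0aa406_nt, project UC (helper50): the gain in the inhomogeneous case.
-/

set_option autoImplicit false

namespace Pool.Agent.Helper50.UC

open Finset Filter Polynomial Pool.Agent.Helper21.FC Pool.Agent.Helper21.FD

/- PROOF. aval_nonhom, dval_of_aval (FD/R2), DVal.mono and gain_of_dval (FD/S4) with `c = k`; take
common bounds `B`. -/
theorem gain_nonhom (k : ℕ) [NeZero k] (h B : ℕ) (hh : 0 < h) (F : ZMod k → ℤ[X]) (s : ℤ)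
    (j D : ℕ) (hs : ∑ c, F c = C s * X ^ j) (hj : j < D) (hdeg : ∀ c, (F c).natDegree ≤ D)
    (hne : ∃ c, (F c).coeff D ≠ 0) :
    ∃ (C0 : ℝ) (N1 : ℕ), ∀ p : ℕ, p.Prime → N1 ≤ p → ∀ n : ℕ, N1 ≤ n → ∀ μ : ZMod k → ℤ,
      (∀ t, |μ t| ≤ (p : ℤ) ^ B) → (∀ c, ci p n μ c = aeval (rho p k) (F c)) →
      ∀ (d : ℤ) (r : ℕ), NN p n ∣ h * d - (p : ℤ) ^ r * ev p n μ →
        Gain p n d ((n : ℝ) / 2 - C0) := by
  obtain ⟨B0, P0, h0⟩ := aval_nonhom k F s j D hs hj hdeg hne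
  obtain ⟨B2, h2⟩ := dval_of_aval k B B0
  obtain ⟨C1, N1, h3⟩ := gain_of_dval k h (max B B2) hh
  refine ⟨C1, max P0 N1, fun p hp hpN n hn μ hμ hci d r hd => ?_⟩
  have hp2 := hp.two_le
  have hp1 : (1 : ℤ) ≤ p := by exact_mod_cast hp.one_le
  have hk1 : 1 ≤ k := Nat.one_le_iff_ne_zero.mpr (NeZero.ne k)
  have hk0 : (0 : ℝ) < k := by exact_mod_cast hk1
  have e1 : AVal p k B0 (ci p n μ) k := h0 p ((le_max_left _ _).trans hpN) _ hci
  have e2 : DVal p n (max B B2) μ k :=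
    (h2 p hp n μ hμ k e1).mono hp2 (le_max_right _ _) le_rfl
  have e3 := h3 p hp2 n ((le_max_right _ _).trans hn) μ
    (fun t => (hμ t).trans (pow_le_pow_right₀ hp1 (le_max_left _ _))) k
    (by exact_mod_cast hk1) e2 d r hd
  have e4 : (k : ℝ) * n / (2 * k) - C1 = (n : ℝ) / 2 - C1 := by
    field_simp
  rwa [e4] at e3

end Pool.Agent.Helper50.UC
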