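import Pool.Agent.Helper50.UC.Defs
import Pool.Agent.Helper21.FD.Q1
import Pool.Agent.Helper21.FD.Q4

/-!
MP_0aa406_nt, project UC (helper50): the entries of the real circulant are values of fixed polynomials.
-/

set_option autoImplicit false

namespace Pool.Agent.Helper50.UC

open Finset Filter Polynomial Pool.Agent.Helper21.FC Pool.Agent.Helper21.FD

/-- the residue of `n` modulo `k` is constant along the ultrafilter -/
theorem tn_const (U : Ultrafilter ℕ) (n : ℕ → ℕ) (k : ℕ) [NeZero k] :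
    ∃ (n0 : ℕ) (τ : ZMod k → ℕ), (∀ c, τ c < k) ∧
      ∀ᶠ ν in (U : Filter ℕ), n ν % k = n0 ∧ ∀ c : ZMod k, tn (n ν) c = τ c := by
  have h1 : ∀ᶠ ν in (U : Filter ℕ), ∃ n0 ∈ ((range k : Finset ℕ) : Set ℕ), n ν % k = n0 :=
    Eventually.of_forall fun ν => ⟨n ν % k, by
      rw [Finset.mem_coe, Finset.mem_range]
      exact Nat.mod_lt _ (Nat.pos_of_ne_zero (NeZero.ne k)), rfl⟩
  obtain ⟨n0, -, h2⟩ := (Ultrafilter.eventually_exists_mem_iff (Finset.finite_toSet _)).1 h1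
  refine ⟨n0, fun c => tn n0 c, fun c => tn_lt n0 c, ?_⟩
  filter_upwards [h2] with ν h3
  refine ⟨h3, fun c => ?_⟩
  have h4 : ((n ν : ℕ) : ZMod k) = ((n0 : ℕ) : ZMod k) := by
    rw [← h3, ZMod.natCast_mod]
  show (-(c * (n ν : ZMod k))).val = (-(c * (n0 : ZMod k))).val
  rw [h4]

/- PROOF. `u i ν` (bounded integers) and `c i` (elements of a finite set) are constant along the
ultrafilter (Ultrafilter.eventually_exists_mem_iff, as in FD/U1): `u_i`, `c_i`.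
`F x = ∑_{i ∈ S, c_i = x} C u_i * X ^ t_i`; `k * e_i + τ (c_i) = t_i`. And
`ci (M ν) x = M ν x * ρ ^ τ x = ∑_{c_i = x} u_i p ^ e_i ρ ^ τ x`, `p ^ e_i ρ ^ τ x = ρ ^ (k e_i + τ x)`
(rho_pow). (The `c, e` in `Shape` depend on `ν`: choose them by `choose` first.) -/
theorem poly_shape (U : Ultrafilter ℕ) (p n : ℕ → ℕ) {k : ℕ} [NeZero k]
    {I : Type} [Fintype I] [DecidableEq I] (u : I → ℕ → ℤ) (C0 : ℤ) (hu : ∀ i ν, |u i ν| ≤ C0)
    (τ : ZMod k → ℕ) (hτ : ∀ᶠ ν in (U : Filter ℕ), ∀ c : ZMod k, tn (n ν) c = τ c)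
    (M : ℕ → ZMod k → ℤ) (hM : Shape U p n u M) :
    ∃ F : ZMod k → ℤ[X], (∀ c j, (F c).coeff j ≠ 0 → ∃ e, k * e + τ c = j) ∧
      ∀ᶠ ν in (U : Filter ℕ), ∀ c, ci (p ν) (n ν) (M ν) c = aeval (rho (p ν) k) (F c) := by
  classical
  obtain ⟨S, t, hS⟩ := hM
  have h1 : ∀ᶠ ν in (U : Filter ℕ), ∃ y ∈ (((univ : Finset (I → ZMod k)) ×ˢ
      Fintype.piFinset (fun _ : I => Finset.Icc (-C0) C0) : Finset ((I → ZMod k) × (I → ℤ))) :
        Set ((I → ZMod k) × (I → ℤ))),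
      ∃ e : I → ℕ, (∀ i ∈ S, k * e i + tn (n ν) (y.1 i) = t i) ∧
        ∀ x, M ν x = ∑ i ∈ S, if y.1 i = x then y.2 i * (p ν : ℤ) ^ e i else 0 := by
    filter_upwards [hS] with ν h2
    obtain ⟨c, e, h3, h4⟩ := h2
    refine ⟨(c, fun i => u i ν), ?_, e, h3, h4⟩
    rw [Finset.mem_coe, Finset.mem_product, Fintype.mem_piFinset]
    refine ⟨Finset.mem_univ _, fun i => ?_⟩
    rw [Finset.mem_Icc]
    exact abs_le.1 (hu i ν)
  obtain ⟨⟨c, w⟩, -, h2⟩ := (Ultrafilter.eventually_exists_mem_iff (Finset.finite_toSet _)).1 h1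
  refine ⟨fun x => ∑ i ∈ S.filter (fun i => c i = x), C (w i) * X ^ t i, ?_, ?_⟩
  · intro x j hj
    rw [Polynomial.finsetSum_coeff] at hj
    obtain ⟨i, hi, hne⟩ := Finset.exists_ne_zero_of_sum_ne_zero hj
    rw [Finset.mem_filter] at hi
    rw [Polynomial.coeff_C_mul, Polynomial.coeff_X_pow] at hne
    have hjt : j = t i := by
      by_contra hcon
      apply hne
      rw [if_neg hcon, mul_zero]
    obtain ⟨ν, ⟨e, h3, -⟩, h4⟩ := (h2.and hτ).exists
    refine ⟨e i, ?_⟩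
    rw [hjt, ← h3 i hi.1, ← hi.2, ← h4]
  · filter_upwards [h2] with ν h3 x
    obtain ⟨e, h4, h5⟩ := h3
    have hk : 0 < k := Nat.pos_of_ne_zero (NeZero.ne k)
    unfold ci
    rw [h5, map_sum, Int.cast_sum, Finset.sum_mul, Finset.sum_filter]
    refine Finset.sum_congr rfl fun i hi => ?_
    by_cases hx : c i = x
    · have h6 := h4 i hi
      show ((if c i = x then w i * (p ν : ℤ) ^ e i else 0 : ℤ) : ℝ) * rho (p ν) k ^ tn (n ν) x = _
      rw [if_pos hx, if_pos hx, ← h6, map_mul, map_pow, Polynomial.aeval_X, Polynomial.aeval_C]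
      show _ = _ * rho (p ν) k ^ (k * e i + tn (n ν) (c i))
      rw [pow_add, pow_mul, rho_pow (p ν) k hk, hx]
      push_cast
      simp only [algebraMap_int_eq, eq_intCast]
      ring
    · show ((if c i = x then w i * (p ν : ℤ) ^ e i else 0 : ℤ) : ℝ) * rho (p ν) k ^ tn (n ν) x = _
      rw [if_neg hx, if_neg hx, Int.cast_zero, zero_mul]

end Pool.Agent.Helper50.UC
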