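import Pool.Agent.Helper50.UC.Defs
import Pool.Agent.Helper21.FD.Q1
import Pool.Agent.Helper21.FD.Q4

/-!
MP_0aa406_nt, project UC (helper50): the relation of one class as an identity of polynomials.
-/

set_option autoImplicit false

namespace Pool.Agent.Helper50.UC

open Finset Filter Polynomial Pool.Agent.Helper21.FC Pool.Agent.Helper21.FD

/-- an integral polynomial which vanishes at `ρ(p ν)` along the ultrafilter is zero (`p ν` is
unbounded, so it has infinitely many real roots) -/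
theorem poly_zero (U : Ultrafilter ℕ) (p : ℕ → ℕ) (hpt : ∀ m : ℕ, ∀ᶠ ν in (U : Filter ℕ), m < p ν)
    (k : ℕ) [NeZero k] (G : ℤ[X])
    (h : ∀ᶠ ν in (U : Filter ℕ), aeval (rho (p ν) k) G = (0 : ℝ)) : G = 0 := by
  by_contra hG
  have hk : 0 < k := Nat.pos_of_ne_zero (NeZero.ne k)
  have hGr : G.map (Int.castRingHom ℝ) ≠ 0 := by
    rwa [Ne, Polynomial.map_eq_zero_iff (RingHom.injective_int (Int.castRingHom ℝ))]
  obtain ⟨N, hN⟩ := exists_nat_ge (∑ x ∈ (G.map (Int.castRingHom ℝ)).roots.toFinset, |x| ^ k)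
  obtain ⟨ν, h1, h2⟩ := (h.and (hpt N)).exists
  have h3 : rho (p ν) k ∈ (G.map (Int.castRingHom ℝ)).roots.toFinset := by
    rw [Multiset.mem_toFinset, Polynomial.mem_roots hGr, Polynomial.IsRoot.def,
      Polynomial.eval_map, ← h1]
    rfl
  have h4 : |rho (p ν) k| ^ k ≤ N :=
    (Finset.single_le_sum (f := fun x : ℝ => |x| ^ k) (fun x _ => pow_nonneg (abs_nonneg x) k)
      h3).trans hN
  have h5 : ((p ν : ℕ) : ℝ) ≤ N := by
    rw [← rho_pow (p ν) k hk]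
    refine le_trans ?_ h4
    rw [← abs_pow]
    exact le_abs_self _
  have h6 : p ν ≤ N := by exact_mod_cast h5
  omega

/- PROOF. `α, β, c` are constant along the ultrafilter (bounded). Multiply the relation at `u` by
`ρ ^ tn u`; by act_ci (FD/Q4), with `w i ρ ^ tn i = ci (M' ν) i`, the product becomes
`ρ ^ (k α) * ∑ i, ci (M ν) (u - i) * ci (M' ν) i = H ρ ^ (k β + τ c)` if `u = c` and `0` otherwise
(rho_pow). Apply poly_zero to `X ^ (k α) * ∑ F (u - i) * F' i - ...` for every `u`. -/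
theorem poly_relation (U : Ultrafilter ℕ) (p n : ℕ → ℕ) (hp : ∀ ν, 2 ≤ p ν)
    (hpt : ∀ m : ℕ, ∀ᶠ ν in (U : Filter ℕ), m < p ν) {k : ℕ} [NeZero k]
    (τ : ZMod k → ℕ) (hτ : ∀ᶠ ν in (U : Filter ℕ), ∀ c : ZMod k, tn (n ν) c = τ c)
    (F F' : ZMod k → ℤ[X]) (M M' : ℕ → ZMod k → ℤ)
    (hF : ∀ᶠ ν in (U : Filter ℕ), ∀ c, ci (p ν) (n ν) (M ν) c = aeval (rho (p ν) k) (F c))
    (hF' : ∀ᶠ ν in (U : Filter ℕ), ∀ c, ci (p ν) (n ν) (M' ν) c = aeval (rho (p ν) k) (F' c))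
    (B : ℕ) (H : ℤ)
    (hrel : ∀ᶠ ν in (U : Filter ℕ), ∃ (α β : ℕ) (c : ZMod k), α ≤ B ∧ β ≤ B ∧
      ∀ x, (p ν : ℤ) ^ α * rmul (p ν) (n ν) (M ν) (M' ν) x =
        (Pi.single c (H * (p ν : ℤ) ^ β) : ZMod k → ℤ) x) :
    ∃ (a b : ℕ) (c : ZMod k), ∀ u : ZMod k,
      X ^ a * ∑ i, F (u - i) * F' i = if u = c then C H * X ^ b else (0 : ℤ[X]) := by
  classical
  have hk : 0 < k := Nat.pos_of_ne_zero (NeZero.ne k)
  have h1 : ∀ᶠ ν in (U : Filter ℕ), ∃ y ∈ (((range (B + 1)) ×ˢ ((range (B + 1)) ×ˢ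
      (univ : Finset (ZMod k))) : Finset (ℕ × ℕ × ZMod k)) : Set (ℕ × ℕ × ZMod k)),
      ∀ x, (p ν : ℤ) ^ y.1 * rmul (p ν) (n ν) (M ν) (M' ν) x =
        (Pi.single y.2.2 (H * (p ν : ℤ) ^ y.2.1) : ZMod k → ℤ) x := by
    filter_upwards [hrel] with ν h2
    obtain ⟨α, β, c, h3, h4, h5⟩ := h2
    refine ⟨(α, β, c), ?_, h5⟩
    rw [Finset.mem_coe, Finset.mem_product, Finset.mem_product, Finset.mem_range,
      Finset.mem_range]
    exact ⟨Nat.lt_succ_of_le h3, Nat.lt_succ_of_le h4, Finset.mem_univ _⟩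
  obtain ⟨⟨α, β, c⟩, -, h2⟩ := (Ultrafilter.eventually_exists_mem_iff (Finset.finite_toSet _)).1 h1
  refine ⟨k * α, k * β + τ c, c, fun u => ?_⟩
  rw [← sub_eq_zero]
  refine poly_zero U p hpt k _ ?_
  filter_upwards [h2, hτ, hF, hF'] with ν h3 h4 h5 h6
  have h7 := h3 u
  have h8 := act_ci (p ν) (n ν) (M ν) (M' ν) u
  have h9 : ∑ i, aeval (rho (p ν) k) (F (u - i)) * aeval (rho (p ν) k) (F' i) =
      (rmul (p ν) (n ν) (M ν) (M' ν) u : ℝ) * rho (p ν) k ^ tn (n ν) u := by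
    rw [← h8]
    unfold act
    refine Finset.sum_congr rfl fun i _ => ?_
    rw [← h5, ← h6]
    rfl
  have h10 : ((p ν : ℤ) : ℝ) = rho (p ν) k ^ k := by
    rw [rho_pow (p ν) k hk]
    norm_cast
  rw [map_sub, map_mul, map_pow, Polynomial.aeval_X, map_sum]
  simp only [map_mul]
  rw [h9, pow_mul, ← h10]
  have h11 : ((p ν : ℤ) : ℝ) ^ α * (rmul (p ν) (n ν) (M ν) (M' ν) u : ℝ) =
      (((Pi.single c (H * (p ν : ℤ) ^ β) : ZMod k → ℤ) u : ℤ) : ℝ) := by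
    have := congrArg (fun z : ℤ => (z : ℝ)) h7
    simpa only [Int.cast_mul, Int.cast_pow] using this
  rw [← mul_assoc, h11]
  by_cases hu : u = c
  · subst hu
    rw [Pi.single_eq_same, if_pos rfl, map_mul, map_pow, Polynomial.aeval_X, Polynomial.aeval_C,
      pow_add, pow_mul, ← h10, h4]
    simp only [algebraMap_int_eq, eq_intCast, Int.cast_mul, Int.cast_pow]
    ring
  · rw [Pi.single_eq_of_ne hu, if_neg hu, map_zero, Int.cast_zero, zero_mul, sub_zero]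

end Pool.Agent.Helper50.UC
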