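import Pool.Agent.Helper50.UC.Defs
import Pool.Agent.Helper21.FD.T7

/-!
MP_0aa406_nt, project UC (helper50): the structure theorem with the shape of the elements.
-/

set_option autoImplicit false

namespace Pool.Agent.Helper50.UC

open Finset Filter Pool.Agent.Helper21.FC Pool.Agent.Helper21.FD

/-- one side of the structure theorem, with the shape of the elements -/
theorem T1_group (U : Ultrafilter ℕ) (p n : ℕ → ℕ) (hp : ∀ ν, 2 ≤ p ν)
    (hn : ∀ m : ℕ, ∀ᶠ ν in (U : Filter ℕ), m < n ν) (k : ℕ) [NeZero k] {I : Type} [Fintype I]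
    [DecidableEq I] (q : I → ℕ → ℕ) (u : I → ℕ → ℤ) (hu : ∀ i ν, |u i ν| ≤ p ν)
    (hden : ∀ i i', IsRat U n (fun ν => (q i ν : ℤ) - q i' ν) →
      ∃ t : ℤ, ∀ᶠ ν in (U : Filter ℕ), (n ν : ℤ) ∣ (k : ℤ) * ((q i ν : ℤ) - q i' ν) - t) :
    ∃ (A : Finset I) (r : I → ℕ → ℕ) (M : I → ℕ → ZMod k → ℤ) (B : ℕ),
      (∀ a, Shape U p n u (M a)) ∧
      (∀ i, ∃ t' : ℤ, ∀ᶠ ν in (U : Filter ℕ), (n ν : ℤ) ∣ (k : ℤ) * ((r i ν : ℤ) - q i ν) - t') ∧
      (∀ a ∈ A, ∀ a' ∈ A, a ≠ a' → ¬ IsRat U n (fun ν => (r a ν : ℤ) - r a' ν)) ∧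
      (∀ a, ∀ᶠ ν in (U : Filter ℕ), ∀ c, |M a ν c| ≤ (p ν : ℤ) ^ B) ∧
      (∀ a ∈ A, ∀ᶠ ν in (U : Filter ℕ), M a ν ≠ 0) ∧
      ∀ᶠ ν in (U : Filter ℕ), NN (p ν) (n ν) ∣ ∑ i, u i ν * (p ν : ℤ) ^ q i ν -
          ∑ a ∈ A, (p ν : ℤ) ^ r a ν * ev (p ν) (n ν) (M a ν) := by
  classical
  -- the equivalence relation
  let s : Setoid I :=
    { r := fun i i' => IsRat U n (fun ν => (q i ν : ℤ) - q i' ν)
      iseqv :=
        { refl := fun i => by
            have h := isRat_zero U n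
            have h2 : (fun ν => (q i ν : ℤ) - q i ν) = fun _ => (0 : ℤ) := by
              funext ν; ring
            rw [h2]; exact h
          symm := fun {i j} h => by
            have h1 := h.neg
            have h2 : (fun ν => (q j ν : ℤ) - q i ν) = fun ν => -((q i ν : ℤ) - q j ν) := by
              funext ν; ring
            rw [h2]; exact h1
          trans := fun {i j l} h h' => by
            have h1 := h.add h'
            have h2 : (fun ν => (q i ν : ℤ) - q l ν) =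
                fun ν => ((q i ν : ℤ) - q j ν) + ((q j ν : ℤ) - q l ν) := by
              funext ν; ring
            rw [h2]; exact h1 } }
  let rep : I → I := fun i => (Quotient.mk s i).out
  have hrep : ∀ i, IsRat U n (fun ν => (q i ν : ℤ) - q (rep i) ν) := by
    intro i
    have h1 : s.r (rep i) i := Quotient.mk_out (s := s) i
    exact s.iseqv.symm h1
  have hrep2 : ∀ i j, IsRat U n (fun ν => (q i ν : ℤ) - q j ν) → rep i = rep j := by
    intro i j h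
    have h1 : Quotient.mk s i = Quotient.mk s j := Quotient.sound h
    show (Quotient.mk s i).out = (Quotient.mk s j).out
    rw [h1]
  have hrep3 : ∀ i, rep (rep i) = rep i := by
    intro i
    show (Quotient.mk s (Quotient.mk s i).out).out = (Quotient.mk s i).out
    rw [Quotient.out_eq]
  have hrep4 : ∀ i j, rep i = rep j → IsRat U n (fun ν => (q i ν : ℤ) - q j ν) := by
    intro i j h
    have h1 : s.r i (rep i) := hrep i
    have h2 : s.r j (rep j) := hrep j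
    rw [← h] at h2
    exact s.iseqv.trans h1 (s.iseqv.symm h2)
  choose τ hτ using fun i => hden i (rep i) (hrep i)
  have hk : 0 < k := Nat.pos_of_ne_zero (NeZero.ne k)
  obtain ⟨T, hT⟩ : ∃ T : ℕ, ∀ i, |τ i| ≤ T := by
    refine ⟨∑ i, (τ i).natAbs, fun i => ?_⟩
    have h1 : (τ i).natAbs ≤ ∑ i, (τ i).natAbs :=
      Finset.single_le_sum (f := fun i => (τ i).natAbs) (fun _ _ => Nat.zero_le _)
        (Finset.mem_univ i)
    rw [Int.abs_eq_natAbs]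
    exact_mod_cast h1
  have hkT : ∀ i, (k : ℤ) ≤ τ i + k * ((T + 1 : ℕ) : ℤ) := by
    intro i
    have h1 := neg_le_of_abs_le (hT i)
    have h2 : (T : ℤ) ≤ k * T := by
      have : (1 : ℤ) ≤ k := by exact_mod_cast hk
      nlinarith
    push_cast
    linarith
  let t : I → ℕ := fun i => (τ i + k * ((T + 1 : ℕ) : ℤ)).toNat
  have ht : ∀ i, (t i : ℤ) = τ i + k * ((T + 1 : ℕ) : ℤ) := by
    intro i
    exact Int.toNat_of_nonneg ((Int.natCast_nonneg k).trans (hkT i))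
  have ht2 : ∀ i, k ≤ t i := by
    intro i
    have h1 := hkT i
    rw [← ht i] at h1
    exact_mod_cast h1
  have hch : ∀ i ν, ∃ (c : ZMod k) (e : ℕ), 0 < n ν →
      (n ν : ℤ) ∣ (k : ℤ) * ((q i ν : ℤ) - q (rep i) ν) - τ i →
      (n ν : ℤ) ∣ (q i ν : ℤ) -
        ((q (rep i) ν + (n ν - 1) * (T + 1) + (e + ps (n ν) c) : ℕ) : ℤ) ∧
        k * e + tn (n ν) c = t i := by
    intro i ν
    by_cases h : 0 < n ν ∧ (n ν : ℤ) ∣ (k : ℤ) * ((q i ν : ℤ) - q (rep i) ν) - τ i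
    · obtain ⟨c, e, h1, h2⟩ := T3_pos (n ν) k (T + 1) (q i ν) (q (rep i) ν) h.1 (τ i) h.2 (t i)
        (ht i) (ht2 i)
      exact ⟨c, e, fun _ _ => ⟨h1, h2⟩⟩
    · exact ⟨0, 0, fun h1 h2 => absurd ⟨h1, h2⟩ h⟩
  choose c e hce using hch
  have hall : ∀ᶠ ν in (U : Filter ℕ), ∀ i,
      (n ν : ℤ) ∣ (q i ν : ℤ) -
        ((q (rep i) ν + (n ν - 1) * (T + 1) + (e i ν + ps (n ν) (c i ν)) : ℕ) : ℤ) ∧
        k * e i ν + tn (n ν) (c i ν) = t i := by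
    have h0 : ∀ᶠ ν in (U : Filter ℕ), ∀ i,
        (n ν : ℤ) ∣ (k : ℤ) * ((q i ν : ℤ) - q (rep i) ν) - τ i := by
      rw [Filter.eventually_all]
      exact hτ
    filter_upwards [hn 0, h0] with ν h1 h2 i
    exact hce i ν h1 (h2 i)
  obtain ⟨M, hM⟩ : ∃ M : I → ℕ → ZMod k → ℤ, M = fun a ν =>
      ∑ i ∈ univ.filter (fun i => rep i = a),
        (Pi.single (c i ν) (u i ν * (p ν : ℤ) ^ e i ν) : ZMod k → ℤ) := ⟨_, rfl⟩
  have hMe : ∀ a ν, M a ν = ∑ i ∈ univ.filter (fun i => rep i = a),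
      (Pi.single (c i ν) (u i ν * (p ν : ℤ) ^ e i ν) : ZMod k → ℤ) := fun a ν => by rw [hM]
  have hMx : ∀ a ν x, M a ν x = ∑ i ∈ univ.filter (fun i => rep i = a),
      (Pi.single (c i ν) (u i ν * (p ν : ℤ) ^ e i ν) : ZMod k → ℤ) x := fun a ν x => by
    rw [hMe, Finset.sum_apply]
  clear hM
  have hrq : ∀ i, ∃ t' : ℤ, ∀ᶠ ν in (U : Filter ℕ),
      (n ν : ℤ) ∣ (k : ℤ) * (((q i ν + (n ν - 1) * (T + 1) : ℕ) : ℤ) - q i ν) - t' := by
    intro i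
    refine ⟨-((k : ℤ) * ((T + 1 : ℕ) : ℤ)), ?_⟩
    filter_upwards [hn 0] with ν h1
    have h2 : ((n ν - 1 : ℕ) : ℤ) = (n ν : ℤ) - 1 := by
      have := Nat.cast_sub (R := ℤ) (Nat.one_le_iff_ne_zero.mpr h1.ne')
      simpa using this
    push_cast
    rw [h2]
    have h3 : (k : ℤ) * ((q i ν : ℤ) + ((n ν : ℤ) - 1) * (T + 1) - q i ν) -
        -((k : ℤ) * (T + 1)) = n ν * (k * (T + 1)) := by ring
    rw [h3]
    exact Dvd.intro _ rfl
  have hrq' : ∀ i, IsRat U n (fun ν => ((q i ν + (n ν - 1) * (T + 1) : ℕ) : ℤ) - q i ν) :=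
    fun i => by
      obtain ⟨t, ht⟩ := hrq i
      exact ⟨k, hk, t, ht⟩
  refine ⟨univ.filter (fun a => rep a = a ∧ ∀ᶠ ν in (U : Filter ℕ), M a ν ≠ 0),
    fun a ν => q a ν + (n ν - 1) * (T + 1), M, Fintype.card I + (1 + ∑ i, t i), ?_,
    hrq, ?_, ?_, ?_, ?_⟩
  · intro a
    refine ⟨univ.filter (fun i => rep i = a), t, ?_⟩
    filter_upwards [hall] with ν h1
    refine ⟨fun i => c i ν, fun i => e i ν, fun i _ => (h1 i).2, fun x => ?_⟩
    rw [hMx]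
    refine Finset.sum_congr rfl fun i _ => ?_
    rw [Pi.single_apply]
    by_cases hx : x = c i ν
    · rw [if_pos hx, if_pos hx.symm]
    · rw [if_neg hx, if_neg (fun h => hx h.symm)]
  · intro a ha a' ha' hne hrat
    rw [Finset.mem_filter] at ha ha'
    apply hne
    rw [← ha.2.1, ← ha'.2.1]
    apply hrep2
    have h3 := (hrat.add (hrq' a).neg).add (hrq' a')
    have h4 : (fun ν => ((((q a ν + (n ν - 1) * (T + 1) : ℕ) : ℤ) -
        ((q a' ν + (n ν - 1) * (T + 1) : ℕ) : ℤ)) +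
        -(((q a ν + (n ν - 1) * (T + 1) : ℕ) : ℤ) - q a ν)) +
        (((q a' ν + (n ν - 1) * (T + 1) : ℕ) : ℤ) - q a' ν)) =
        (fun ν => (q a ν : ℤ) - q a' ν) := by
      funext ν
      ring
    rw [← h4]
    exact h3
  · intro a
    filter_upwards [hall] with ν h1 x
    rw [hMx]
    refine T3_sum (p ν) (hp ν) _ _ _ fun i _ => ?_
    have hp1 : (1 : ℤ) ≤ p ν := by
      have := hp ν
      exact_mod_cast (by omega : 1 ≤ p ν)
    by_cases hx : x = c i ν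
    · rw [hx, Pi.single_eq_same, abs_mul, abs_of_nonneg (by positivity : (0 : ℤ) ≤ (p ν : ℤ) ^ e i ν),
        pow_add, pow_one]
      have h3 : t i ≤ ∑ i, t i :=
        Finset.single_le_sum (f := fun i => t i) (fun _ _ => Nat.zero_le _) (Finset.mem_univ i)
      have h4 := (h1 i).2
      have h5 : e i ν ≤ k * e i ν := Nat.le_mul_of_pos_left _ hk
      exact mul_le_mul (hu i ν) (pow_le_pow_right₀ hp1 (by omega)) (by positivity) (by positivity)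
    · rw [Pi.single_eq_of_ne hx, abs_zero]
      positivity
  · intro a ha
    rw [Finset.mem_filter] at ha
    exact ha.2.2
  · have h1 : ∀ᶠ ν in (U : Filter ℕ), ∀ a, NN (p ν) (n ν) ∣
        ∑ i ∈ univ.filter (fun i => rep i = a), u i ν * (p ν : ℤ) ^ q i ν -
          (p ν : ℤ) ^ (q a ν + (n ν - 1) * (T + 1)) * ev (p ν) (n ν) (M a ν) := by
      filter_upwards [hall] with ν h2 a
      rw [hMe, ev_sum, Finset.mul_sum, ← Finset.sum_sub_distrib]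
      refine Finset.dvd_sum fun i hi => ?_
      have hia : rep i = a := (Finset.mem_filter.mp hi).2
      have h3 := pow_congr (p ν) (n ν) _ _ (h2 i).1
      rw [hia] at h3
      rw [ev_single]
      have h4 : u i ν * (p ν : ℤ) ^ q i ν - (p ν : ℤ) ^ (q a ν + (n ν - 1) * (T + 1)) *
          (u i ν * (p ν : ℤ) ^ e i ν * (p ν : ℤ) ^ ps (n ν) (c i ν)) =
          u i ν * ((p ν : ℤ) ^ q i ν -
            (p ν : ℤ) ^ (q a ν + (n ν - 1) * (T + 1) + (e i ν + ps (n ν) (c i ν)))) := by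
        rw [pow_add _ (q a ν + (n ν - 1) * (T + 1)), pow_add _ (e i ν)]
        ring
      rw [h4]
      exact Dvd.dvd.mul_left h3 _
    have h2 : ∀ᶠ ν in (U : Filter ℕ), ∀ a, (¬ ∀ᶠ ν in (U : Filter ℕ), M a ν ≠ 0) → M a ν = 0 := by
      rw [eventually_all]
      intro a
      by_cases ha : ∀ᶠ ν in (U : Filter ℕ), M a ν ≠ 0
      · exact Eventually.of_forall fun ν h => absurd ha h
      · have h3 := Ultrafilter.eventually_not.2 ha
        filter_upwards [h3] with ν hν _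
        exact not_not.1 hν
    filter_upwards [h1, h2] with ν h1 h2
    have h3 : ∑ i, u i ν * (p ν : ℤ) ^ q i ν -
        ∑ a ∈ univ.filter (fun a => rep a = a ∧ ∀ᶠ ν in (U : Filter ℕ), M a ν ≠ 0),
          (p ν : ℤ) ^ (q a ν + (n ν - 1) * (T + 1)) * ev (p ν) (n ν) (M a ν) =
        ∑ a, (∑ i ∈ univ.filter (fun i => rep i = a), u i ν * (p ν : ℤ) ^ q i ν -
          if (rep a = a ∧ ∀ᶠ ν in (U : Filter ℕ), M a ν ≠ 0) then
            (p ν : ℤ) ^ (q a ν + (n ν - 1) * (T + 1)) * ev (p ν) (n ν) (M a ν) else 0) := by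
      rw [Finset.sum_sub_distrib, Finset.sum_fiberwise, Finset.sum_filter]
    rw [h3]
    refine Finset.dvd_sum fun a _ => ?_
    by_cases ha : rep a = a ∧ ∀ᶠ ν in (U : Filter ℕ), M a ν ≠ 0
    · rw [if_pos ha]
      exact h1 a
    · rw [if_neg ha]
      by_cases ha2 : rep a = a
      · have h4 : ¬ ∀ᶠ ν in (U : Filter ℕ), M a ν ≠ 0 := fun h => ha ⟨ha2, h⟩
        have h5 := h1 a
        rw [h2 a h4, ev_zero, mul_zero] at h5
        exact h5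
      · have h4 : univ.filter (fun i => rep i = a) = ∅ := by
          rw [Finset.filter_eq_empty_iff]
          intro i _ hi
          apply ha2
          rw [← hi, hrep3]
        rw [h4, Finset.sum_empty, sub_zero]
        exact dvd_zero _

theorem structure_uc (U : Ultrafilter ℕ) (p n : ℕ → ℕ) (hp : ∀ ν, 2 ≤ p ν)
    (hn : ∀ m : ℕ, ∀ᶠ ν in (U : Filter ℕ), m < n ν) {I J : Type} [Fintype I] [Fintype J]
    [DecidableEq I] [DecidableEq J] (q : I → ℕ → ℕ) (u : I → ℕ → ℤ) (q' : J → ℕ → ℕ)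
    (u' : J → ℕ → ℤ) (hu : ∀ i ν, |u i ν| ≤ p ν) (hu' : ∀ j ν, |u' j ν| ≤ p ν) (h : ℕ)
    (hh : 0 < h)
    (hrel : ∀ᶠ ν in (U : Filter ℕ), NN (p ν) (n ν) ∣
      (∑ i, u i ν * (p ν : ℤ) ^ q i ν) * (∑ j, u' j ν * (p ν : ℤ) ^ q' j ν) - h) :
    ∃ (k : ℕ) (_ : NeZero k) (B : ℕ) (A : Finset I) (A' : Finset J) (a0 : I) (b0 : J)
      (r : I → ℕ → ℕ) (r' : J → ℕ → ℕ) (M : I → ℕ → ZMod k → ℤ) (M' : J → ℕ → ZMod k → ℤ),
      a0 ∈ A ∧ b0 ∈ A' ∧ (∀ a, Shape U p n u (M a)) ∧ (∀ b, Shape U p n u' (M' b)) ∧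
      (∀ a ∈ A, ∀ a' ∈ A, a ≠ a' → ¬ IsRat U n (fun ν => (r a ν : ℤ) - r a' ν)) ∧
      (∀ b ∈ A', ∀ b' ∈ A', b ≠ b' → ¬ IsRat U n (fun ν => (r' b ν : ℤ) - r' b' ν)) ∧
      ∀ᶠ ν in (U : Filter ℕ),
        (∀ a ∈ A, ∀ c, |M a ν c| ≤ (p ν : ℤ) ^ B) ∧ (∀ b ∈ A', ∀ c, |M' b ν c| ≤ (p ν : ℤ) ^ B) ∧
        (∀ a ∈ A, M a ν ≠ 0) ∧ (∀ b ∈ A', M' b ν ≠ 0) ∧
        Sr (p ν) (n ν) (M a0 ν) ≠ 0 ∧ Sr (p ν) (n ν) (M' b0 ν) ≠ 0 ∧
        (∀ a ∈ A, a ≠ a0 → Sr (p ν) (n ν) (M a ν) = 0) ∧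
        (∀ b ∈ A', b ≠ b0 → Sr (p ν) (n ν) (M' b ν) = 0) ∧
        NN (p ν) (n ν) ∣ ∑ i, u i ν * (p ν : ℤ) ^ q i ν -
          ∑ a ∈ A, (p ν : ℤ) ^ r a ν * ev (p ν) (n ν) (M a ν) ∧
        NN (p ν) (n ν) ∣ ∑ j, u' j ν * (p ν : ℤ) ^ q' j ν -
          ∑ b ∈ A', (p ν : ℤ) ^ r' b ν * ev (p ν) (n ν) (M' b ν) ∧
        (A.card = 1 → A'.card = 1 → ∃ (α β : ℕ) (c : ZMod k), α ≤ B ∧ β ≤ B ∧
          ∀ x, (p ν : ℤ) ^ α * rmul (p ν) (n ν) (M a0 ν) (M' b0 ν) x =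
            (Pi.single c ((h : ℤ) * (p ν : ℤ) ^ β) : ZMod k → ℤ) x) := by
  classical
  -- a common denominator
  obtain ⟨s, hs⟩ : ∃ s : (I × I) ⊕ (J × J) ⊕ (I × J) ⊕ ((I × J) × (I × J)) → ℕ → ℤ,
      s = Sum.elim (fun x ν => (q x.1 ν : ℤ) - q x.2 ν)
        (Sum.elim (fun x ν => (q' x.1 ν : ℤ) - q' x.2 ν)
          (Sum.elim (fun x ν => (q x.1 ν : ℤ) + q' x.2 ν)
            (fun x ν => ((q x.1.1 ν : ℤ) + q' x.1.2 ν) - ((q x.2.1 ν : ℤ) + q' x.2.2 ν)))) :=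
    ⟨_, rfl⟩
  obtain ⟨k, hk, hden⟩ := common_denominator U n
    (fun t => if IsRat U n (s t) then s t else fun _ => 0) (by
      intro t
      by_cases ht : IsRat U n (s t)
      · simp only [if_pos ht]
        exact ht
      · simp only [if_neg ht]
        exact isRat_zero U n)
  have hden' : ∀ t, Den U n k (s t) := by
    intro t ht
    have h1 := hden t
    simp only [if_pos ht] at h1
    exact h1
  have hk0 : NeZero k := ⟨hk.ne'⟩
  have hd1 : ∀ i i', Den U n k (fun ν => (q i ν : ℤ) - q i' ν) := by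
    intro i i'
    have h1 := hden' (Sum.inl (i, i'))
    rw [hs] at h1
    exact h1
  have hd2 : ∀ i i', Den U n k (fun ν => (q' i ν : ℤ) - q' i' ν) := by
    intro i i'
    have h1 := hden' (Sum.inr (Sum.inl (i, i')))
    rw [hs] at h1
    exact h1
  have hd3 : ∀ i j, Den U n k (fun ν => (q i ν : ℤ) + q' j ν) := by
    intro i j
    have h1 := hden' (Sum.inr (Sum.inr (Sum.inl (i, j))))
    rw [hs] at h1
    exact h1
  have hd4 : ∀ i j i' j',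
      Den U n k (fun ν => ((q i ν : ℤ) + q' j ν) - ((q i' ν : ℤ) + q' j' ν)) := by
    intro i j i' j'
    have h1 := hden' (Sum.inr (Sum.inr (Sum.inr ((i, j), (i', j')))))
    rw [hs] at h1
    exact h1
  clear hden' hden hs
  obtain ⟨A, r, M, B, hsh, hr, hA, hM, hM0, hsum⟩ := T1_group U p n hp hn k q u hu hd1
  obtain ⟨A', r', M', B', hsh', hr', hA', hM', hM0', hsum'⟩ := T1_group U p n hp hn k q' u' hu' hd2
  have hprod : ∀ᶠ ν in (U : Filter ℕ), NN (p ν) (n ν) ∣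
      (∑ a ∈ A, (p ν : ℤ) ^ r a ν * ev (p ν) (n ν) (M a ν)) *
        (∑ b ∈ A', (p ν : ℤ) ^ r' b ν * ev (p ν) (n ν) (M' b ν)) - h := by
    filter_upwards [hrel, hsum, hsum'] with ν h1 h2 h3
    obtain ⟨S, hS⟩ : ∃ S : ℤ, S = ∑ i, u i ν * (p ν : ℤ) ^ q i ν := ⟨_, rfl⟩
    obtain ⟨S', hS'⟩ : ∃ S' : ℤ, S' = ∑ j, u' j ν * (p ν : ℤ) ^ q' j ν := ⟨_, rfl⟩
    obtain ⟨R, hR⟩ : ∃ R : ℤ,
        R = ∑ a ∈ A, (p ν : ℤ) ^ r a ν * ev (p ν) (n ν) (M a ν) := ⟨_, rfl⟩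
    obtain ⟨R', hR'⟩ : ∃ R' : ℤ,
        R' = ∑ b ∈ A', (p ν : ℤ) ^ r' b ν * ev (p ν) (n ν) (M' b ν) := ⟨_, rfl⟩
    rw [← hR, ← hR']
    rw [← hS, ← hR] at h2
    rw [← hS', ← hR'] at h3
    rw [← hS, ← hS'] at h1
    have h4 : R * R' - (h : ℤ) = (S * S' - h) - (S - R) * S' - (S' - R') * R := by ring
    rw [h4]
    exact dvd_sub (dvd_sub h1 (h2.mul_right _)) (h3.mul_right _)
  have hden1 : ∀ a b, Den U n k (fun ν => (r a ν : ℤ) + r' b ν) := by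
    intro a b
    refine T7_den hk ?_ (hd3 a b)
    obtain ⟨t, ht⟩ := hr a
    obtain ⟨t', ht'⟩ := hr' b
    refine ⟨t + t', ?_⟩
    filter_upwards [ht, ht'] with ν h5 h6
    have h7 : (k : ℤ) * (((r a ν : ℤ) + r' b ν) - ((q a ν : ℤ) + q' b ν)) - (t + t') =
        ((k : ℤ) * ((r a ν : ℤ) - q a ν) - t) + ((k : ℤ) * ((r' b ν : ℤ) - q' b ν) - t') := by
      ring
    rw [h7]
    exact dvd_add h5 h6
  have hden2 : ∀ a b a' b',
      Den U n k (fun ν => ((r a ν : ℤ) + r' b ν) - ((r a' ν : ℤ) + r' b' ν)) := by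
    intro a b a' b'
    refine T7_den hk ?_ (hd4 a b a' b')
    obtain ⟨t, ht⟩ := hr a
    obtain ⟨t', ht'⟩ := hr' b
    obtain ⟨t1, ht1⟩ := hr a'
    obtain ⟨t1', ht1'⟩ := hr' b'
    refine ⟨t + t' - t1 - t1', ?_⟩
    filter_upwards [ht, ht', ht1, ht1'] with ν h5 h6 h8 h9
    have h7 : (k : ℤ) * ((((r a ν : ℤ) + r' b ν) - ((r a' ν : ℤ) + r' b' ν)) -
        (((q a ν : ℤ) + q' b ν) - ((q a' ν : ℤ) + q' b' ν))) - (t + t' - t1 - t1') =
        ((k : ℤ) * ((r a ν : ℤ) - q a ν) - t) + ((k : ℤ) * ((r' b ν : ℤ) - q' b ν) - t') -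
        ((k : ℤ) * ((r a' ν : ℤ) - q a' ν) - t1) -
        ((k : ℤ) * ((r' b' ν : ℤ) - q' b' ν) - t1') := by
      ring
    rw [h7]
    exact dvd_sub (dvd_sub (dvd_add h5 h6) h8) h9
  have hple : ∀ ν (a b : ℕ), a ≤ b → (p ν : ℤ) ^ a ≤ (p ν : ℤ) ^ b := by
    intro ν a b hab
    exact pow_le_pow_right₀ (by exact_mod_cast (by have := hp ν; omega : 1 ≤ p ν)) hab
  have hMm : ∀ a, ∀ᶠ ν in (U : Filter ℕ), ∀ c, |M a ν c| ≤ (p ν : ℤ) ^ max B B' := by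
    intro a
    filter_upwards [hM a] with ν hν c
    exact (hν c).trans (hple ν _ _ (le_max_left _ _))
  have hMm' : ∀ a, ∀ᶠ ν in (U : Filter ℕ), ∀ c, |M' a ν c| ≤ (p ν : ℤ) ^ max B B' := by
    intro a
    filter_upwards [hM' a] with ν hν c
    exact (hν c).trans (hple ν _ _ (le_max_right _ _))
  obtain ⟨a0, ha0, b0, hb0, hS, hS', hz, hz'⟩ := one_real_class U p n hp hn k A A' r r' M M'
    (max B B') h hh (fun a _ => hMm a) (fun b _ => hMm' b) hA hA' hden1 hden2 hprod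
  -- the relation of a single class
  obtain ⟨B2, hB2⟩ : ∃ B2 : ℕ, ∀ᶠ ν in (U : Filter ℕ), A.card = 1 → A'.card = 1 →
      ∃ (α β : ℕ) (c : ZMod k), α ≤ B2 ∧ β ≤ B2 ∧
        ∀ x, (p ν : ℤ) ^ α * rmul (p ν) (n ν) (M a0 ν) (M' b0 ν) x =
          (Pi.single c ((h : ℤ) * (p ν : ℤ) ^ β) : ZMod k → ℤ) x := by
    by_cases hc : A.card = 1 ∧ A'.card = 1
    · obtain ⟨hc1, hc2⟩ := hc
      obtain ⟨a, rfl⟩ := Finset.card_eq_one.1 hc1
      obtain ⟨b, rfl⟩ := Finset.card_eq_one.1 hc2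
      rw [Finset.mem_singleton] at ha0 hb0
      subst ha0 hb0
      simp only [Finset.sum_singleton] at hprod
      obtain ⟨B2, hB2⟩ := single_relation U p n hp hn k (r a0) (r' b0) (M a0) (M' b0) (max B B') h
        hh (hMm a0) (hMm' b0) (hden1 a0 b0) hprod
      refine ⟨B2, ?_⟩
      filter_upwards [hB2] with ν hν _ _
      exact hν
    · refine ⟨0, Eventually.of_forall fun ν h1 h2 => absurd ⟨h1, h2⟩ hc⟩
  refine ⟨k, hk0, max (max B B') B2, A, A', a0, b0, r, r', M, M', ha0, hb0, hsh, hsh', hA, hA', ?_⟩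
  have e1 : ∀ᶠ ν in (U : Filter ℕ), ∀ a, ∀ c, |M a ν c| ≤ (p ν : ℤ) ^ max B B' :=
    eventually_all.2 hMm
  have e2 : ∀ᶠ ν in (U : Filter ℕ), ∀ a, ∀ c, |M' a ν c| ≤ (p ν : ℤ) ^ max B B' :=
    eventually_all.2 hMm'
  have e3 : ∀ᶠ ν in (U : Filter ℕ), ∀ a ∈ A, M a ν ≠ 0 := (Finset.eventually_all A).2 hM0
  have e4 : ∀ᶠ ν in (U : Filter ℕ), ∀ b ∈ A', M' b ν ≠ 0 := (Finset.eventually_all A').2 hM0'
  have e5 : ∀ᶠ ν in (U : Filter ℕ), ∀ a ∈ A, a ≠ a0 → Sr (p ν) (n ν) (M a ν) = 0 := by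
    refine (Finset.eventually_all A).2 fun a ha => ?_
    by_cases hne : a = a0
    · exact Eventually.of_forall fun ν h1 => absurd hne h1
    · filter_upwards [hz a ha hne] with ν hν _
      exact hν
  have e6 : ∀ᶠ ν in (U : Filter ℕ), ∀ b ∈ A', b ≠ b0 → Sr (p ν) (n ν) (M' b ν) = 0 := by
    refine (Finset.eventually_all A').2 fun b hb => ?_
    by_cases hne : b = b0
    · exact Eventually.of_forall fun ν h1 => absurd hne h1
    · filter_upwards [hz' b hb hne] with ν hν _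
      exact hν
  filter_upwards [e1, e2, e3, e4, e5, e6, hS, hS', hsum, hsum', hB2] with ν f1 f2 f3 f4 f5 f6 f7 f8
    f9 f10 f11
  refine ⟨fun a _ c => (f1 a c).trans (hple ν _ _ (le_max_left _ _)),
    fun b _ c => (f2 b c).trans (hple ν _ _ (le_max_left _ _)), f3, f4, f7, f8, f5, f6, f9, f10, ?_⟩
  intro h1 h2
  obtain ⟨α, β, c, hα, hβ, hx⟩ := f11 h1 h2
  exact ⟨α, β, c, hα.trans (le_max_right _ _), hβ.trans (le_max_right _ _), hx⟩

end Pool.Agent.Helper50.UC
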