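import Pool.Agent.Helper50.UC.A2
import Pool.Agent.Helper50.UC.L2
import Pool.Agent.Helper50.UC.H1
import Pool.Agent.Helper50.UC.H8
import Pool.Agent.Helper21.FD.K7

/-!
MP_0aa406_nt, project UC (helper50): one class.
-/

set_option autoImplicit false

namespace Pool.Agent.Helper50.UC

open Finset Filter Polynomial Pool.Agent.Helper21.FC Pool.Agent.Helper21.FD

private theorem Z1_sup {k : ℕ} [NeZero k] (F : ZMod k → ℤ[X]) (j : ℕ)
    (h : ∃ x, j < (F x).natDegree) :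
    ∃ D : ℕ, j < D ∧ (∀ c, (F c).natDegree ≤ D) ∧ ∃ c, (F c).coeff D ≠ 0 := by
  classical
  obtain ⟨x0, -, hx0⟩ := Finset.exists_max_image (univ : Finset (ZMod k))
    (fun x => (F x).natDegree) ⟨0, Finset.mem_univ _⟩
  obtain ⟨x, hx⟩ := h
  have hlt : j < (F x0).natDegree := lt_of_lt_of_le hx (hx0 x (Finset.mem_univ _))
  refine ⟨(F x0).natDegree, hlt, fun c => hx0 c (Finset.mem_univ _), x0, ?_⟩
  rw [coeff_natDegree]
  intro h0
  rw [leadingCoeff_eq_zero] at h0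
  rw [h0, natDegree_zero] at hlt
  omega

private theorem Z1_ev_smul (p n : ℕ) {k : ℕ} [NeZero k] (μ m : ZMod k → ℤ) (e : ℕ)
    (h : ∀ c, μ c = m c * (p : ℤ) ^ e) : ev p n μ = (p : ℤ) ^ e * ev p n m := by
  unfold ev
  rw [Finset.mul_sum]
  refine Finset.sum_congr rfl fun c _ => ?_
  rw [h c]
  ring

/- PROOF. `sum_monomial`: `∑ F = C s X ^ j`, `∑ F' = C s' X ^ j'`, `a + j + j' = b`. Let `D`, `D'` be the
largest degrees of the `F c`, `F' c`.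
(i) `j < D`: gain_nonhom for `F`, `d` (`OneClass` contains the relation `h d ≡ p ^ r ev μ`).
(ii) `j' < D'`: gain_nonhom for `F'`, `d'`, then gain_inv.
(iii) otherwise homogeneous (A2): `F c = C (m c) X ^ j`, `m c = (F c).coeff j`; hom_entries:
`μ = p ^ (j / k) m`, `tn n c = j % k` on the support; `g = gcd k n`, `k = k' g`, `n = N g`: ev_hom:
`h d ≡ p ^ R ∑ w_t p ^ (t N)`, `|w t| ≤ C = max |m c|`. If `d` is nondegenerate modulo `NN p N`:
domain_case (FD/K3, `n / gcd k n = N`); otherwise hom_exact for `g` (`g ∣ k`: finitely many `g`, take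
maxima of the constants; primes of `g` divide `n`). -/
theorem one_class (k : ℕ) [NeZero k] (h h' B : ℕ) (hh : 0 < h) (hh' : 0 < h') (F F' : ZMod k → ℤ[X])
    (τ : ZMod k → ℕ) (hFτ : ∀ c j, (F c).coeff j ≠ 0 → ∃ e, k * e + τ c = j)
    (a b : ℕ) (c : ZMod k) (hrel : ∀ u : ZMod k,
      X ^ a * ∑ i, F (u - i) * F' i =
        if u = c then C ((h * h' : ℕ) : ℤ) * X ^ b else (0 : ℤ[X])) :
    ∃ (C0 : ℝ) (N1 : ℕ), ∀ p : ℕ, p.Prime → N1 ≤ p → ∀ n : ℕ, N1 ≤ n → ∀ l : ℕ, 1 ≤ l →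
      (∀ q : ℕ, q.Prime → q ≠ 2 → q ∣ n → l ≤ q) →
      ∀ (μ μ' : ZMod k → ℤ) (d d' : ℤ), OneClass p n B h h' μ μ' d d' →
      (∀ c : ZMod k, tn n c = τ c) →
      (∀ c, ci p n μ c = aeval (rho p k) (F c)) → (∀ c, ci p n μ' c = aeval (rho p k) (F' c)) →
      (∀ j : ℕ, ¬ NN p n ∣ d - (p : ℤ) ^ j) →
        Gain p n d ((1 / 2 - 1 / (2 * (l : ℝ))) * n) ∨ Gain p n d ((n : ℝ) / 2 - C0) := by
  classical
  have hkpos : 0 < k := Nat.pos_of_ne_zero (NeZero.ne k)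
  have hHne : ((h * h' : ℕ) : ℤ) ≠ 0 := by exact_mod_cast (Nat.mul_pos hh hh').ne'
  obtain ⟨s, s', j, j', hs, hs', hF, hF', hab⟩ := sum_monomial F F' _ hHne a b c hrel
  by_cases h1 : ∃ x, j < (F x).natDegree
  · obtain ⟨D, hjD, hdeg, hne⟩ := Z1_sup F j h1
    obtain ⟨C0, N1, hC⟩ := gain_nonhom k h B hh F s j D hF hjD hdeg hne
    refine ⟨C0, N1, fun p hp hpN n hn l _ _ μ μ' d d' hone _ hci _ _ => Or.inr ?_⟩
    obtain ⟨hμ, -, -, -, ⟨r, hr⟩, -⟩ := hone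
    exact hC p hp hpN n hn μ hμ hci d r hr
  by_cases h2 : ∃ x, j' < (F' x).natDegree
  · obtain ⟨D, hjD, hdeg, hne⟩ := Z1_sup F' j' h2
    obtain ⟨C0, N1, hC⟩ := gain_nonhom k h' B hh' F' s' j' D hF' hjD hdeg hne
    refine ⟨C0, max N1 1, fun p hp hpN n hn l _ _ μ μ' d d' hone _ _ hci' _ => Or.inr ?_⟩
    obtain ⟨-, hμ', -, hdd, -, ⟨r', hr'⟩⟩ := hone
    exact gain_inv hp.two_le ((le_max_right _ _).trans hn) hdd
      (hC p hp ((le_max_left _ _).trans hpN) n ((le_max_left _ _).trans hn) μ' hμ' hci' d' r' hr')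
  push Not at h1 h2
  have hhom := homogeneous F F' _ hHne a b c hrel j j' hab h1 h2
  obtain ⟨m, hm⟩ : ∃ m : ZMod k → ℤ, m = fun x => (F x).coeff j := ⟨_, rfl⟩
  have hmF : ∀ x, F x = C (m x) * X ^ j := fun x => by rw [hm]; exact hhom x
  obtain ⟨Cm, hCm⟩ : ∃ Cm : ℕ, ∀ x, |m x| ≤ (Cm : ℤ) := by
    refine ⟨∑ x, (m x).natAbs, fun x => ?_⟩
    have h3 : (m x).natAbs ≤ ∑ x, (m x).natAbs :=
      Finset.single_le_sum (f := fun x => (m x).natAbs) (fun _ _ => Nat.zero_le _)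
        (Finset.mem_univ x)
    rw [Int.abs_eq_natAbs]
    exact_mod_cast h3
  obtain ⟨C1, N1, hdom⟩ := domain_case k h h' B hh hh'
  have key : ∀ g : ℕ, ∃ (P0 : ℕ) (C0 : ℝ), ∀ _ : NeZero g,
      ∀ p : ℕ, P0 ≤ p → ∀ N : ℕ, 1 ≤ N → ∀ w : ZMod g → ℤ, (∀ t, |w t| ≤ (Cm : ℤ)) →
      ∀ (d : ℤ) (R : ℕ),
      NN p (N * g) ∣ (h : ℤ) * d - (p : ℤ) ^ R * ∑ t : ZMod g, w t * (p : ℤ) ^ (t.val * N) →
      (∀ j : ℕ, ¬ NN p (N * g) ∣ d - (p : ℤ) ^ j) → (∃ j : ℕ, NN p N ∣ d - (p : ℤ) ^ j) →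
      ∀ l : ℕ, 1 ≤ l → (∀ q : ℕ, q.Prime → q ≠ 2 → q ∣ g → l ≤ q) →
      Gain p (N * g) d ((1 / 2 - 1 / (2 * (l : ℝ))) * ((N * g : ℕ) : ℝ)) ∨
        Gain p (N * g) d (((N * g : ℕ) : ℝ) / 2 - C0) := by
    intro g
    by_cases hg : g = 0
    · exact ⟨0, 0, fun h0 => absurd hg h0.out⟩
    · have : NeZero g := ⟨hg⟩
      obtain ⟨P0, C0, h3⟩ := hom_exact g h Cm hh
      exact ⟨P0, C0, fun _ => h3⟩
  choose P2 C2 hkey using key
  refine ⟨|C1| + ∑ g ∈ range (k + 1), |C2 g|, 1 + N1 + ∑ g ∈ range (k + 1), P2 g,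
    fun p hp hpN n hn l hl hlq μ μ' d d' hone htn hci hci' hnd => ?_⟩
  obtain ⟨hμ, hμ', ⟨α, β, c1, hα, hβ, hrel1⟩, hdd, ⟨r, hr⟩, ⟨r', hr'⟩⟩ := hone
  obtain ⟨g, hgdef⟩ : ∃ g : ℕ, g = Nat.gcd k n := ⟨_, rfl⟩
  have hgpos : 0 < g := by rw [hgdef]; exact Nat.gcd_pos_of_pos_left _ hkpos
  obtain ⟨k', hk'⟩ : g ∣ k := by rw [hgdef]; exact Nat.gcd_dvd_left _ _
  obtain ⟨N, hN⟩ : g ∣ n := by rw [hgdef]; exact Nat.gcd_dvd_right _ _
  rw [mul_comm] at hk' hN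
  have hgk : g ≤ k := by rw [hgdef]; exact Nat.gcd_le_left _ hkpos
  have hgr : g ∈ range (k + 1) := Finset.mem_range.2 (by omega)
  have hN1 : 1 ≤ N := by
    rcases Nat.eq_zero_or_pos N with h0 | h0
    · rw [h0, zero_mul] at hN
      omega
    · exact h0
  have hnN : n / Nat.gcd k n = N := by
    rw [← hgdef, hN, Nat.mul_div_cancel _ hgpos]
  have hco : Nat.Coprime k' N := by
    have h3 : Nat.gcd (k' * g) (N * g) = g := by rw [← hk', ← hN, hgdef]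
    rw [Nat.gcd_mul_right] at h3
    have h4 : Nat.gcd k' N * g = 1 * g := by rw [h3, one_mul]
    exact Nat.eq_of_mul_eq_mul_right hgpos h4
  have hC2 : |C2 g| ≤ ∑ g ∈ range (k + 1), |C2 g| :=
    Finset.single_le_sum (f := fun g => |C2 g|) (fun _ _ => abs_nonneg _) hgr
  have hP2 : P2 g ≤ ∑ g ∈ range (k + 1), P2 g :=
    Finset.single_le_sum (fun _ _ => Nat.zero_le _) hgr
  by_cases hdeg : ∃ i : ℕ, NN p N ∣ d - (p : ℤ) ^ i
  · have : NeZero g := ⟨hgpos.ne'⟩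
    have hent := hom_entries p n k hp.two_le j m μ
      (fun x => by
        rw [hci x, hmF x, map_mul, map_pow, aeval_X, aeval_C]
        simp)
      (fun x hx => by
        obtain ⟨e, he⟩ := hFτ x j (by rw [hm] at hx; exact hx)
        exact ⟨e, by rw [htn x]; exact he⟩)
    obtain ⟨R, w, hw, hev⟩ := ev_hom p n k g k' N hk' hN hco (j % k) m hent.2
    have hrel2 : NN p (N * g) ∣ (h : ℤ) * d - (p : ℤ) ^ (r + j / k + R) *
        ∑ t : ZMod g, w t * (p : ℤ) ^ (t.val * N) := by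
      rw [← hN]
      have h3 : (p : ℤ) ^ (r + j / k + R) * ∑ t : ZMod g, w t * (p : ℤ) ^ (t.val * N) =
          (p : ℤ) ^ r * ev p n μ := by
        rw [Z1_ev_smul p n μ m (j / k) hent.1, hev, pow_add, pow_add]
        ring
      rw [h3]
      exact hr
    have h4 := hkey g this p (by omega) N hN1 w (hw Cm (Int.natCast_nonneg _) hCm) d _ hrel2
      (by rw [← hN]; exact hnd) hdeg l hl
      (fun q hq hq2 hqg => hlq q hq hq2 (hqg.trans (by rw [hN]; exact Dvd.intro_left N rfl)))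
    rw [← hN] at h4
    rcases h4 with h4 | h4
    · exact Or.inl h4
    · refine Or.inr (gain_mono ?_ h4)
      have := le_abs_self (C2 g)
      have := abs_nonneg C1
      linarith
  · push Not at hdeg
    refine Or.inr (gain_mono ?_ (hdom p hp n (by omega) μ μ' hμ hμ' α β c1 hα hβ hrel1 d d' r r' hdd
      (by rw [hnN]; exact hdeg) hr hr'))
    have := le_abs_self C1
    have h5 : (0 : ℝ) ≤ ∑ g ∈ range (k + 1), |C2 g| := Finset.sum_nonneg fun _ _ => abs_nonneg _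
    linarith

end Pool.Agent.Helper50.UC
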