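import Pool.Agent.Helper50.UC.B7
import Pool.Agent.Helper50.UC.T1
import Pool.Agent.Helper50.UC.P1
import Pool.Agent.Helper50.UC.P2
import Pool.Agent.Helper50.UC.Z1
import Pool.Agent.Helper21.FD.U1

/-!
MP_0aa406_nt, project UC (helper50): the gain for large characteristic and large degree.
-/

set_option autoImplicit false

namespace Pool.Agent.Helper50.UC

open Finset Filter Polynomial Pool.Agent.Helper21.FC Pool.Agent.Helper21.FD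

/-- the sequence version of `large` (copy of FD/U1, helper21) -/
theorem Z2_no_bad_sequence (ε : ℝ) (hε : 0 < ε) (hε2 : ε < 1 / 2) (p n : ℕ → ℕ) (d : ℕ → ℤ)
    (l : ℕ → ℕ) (hp : ∀ ν, (p ν).Prime) (hpν : ∀ ν, ν ≤ p ν) (hnν : ∀ ν, ν ≤ n ν)
    (hn1 : ∀ ν, 1 ≤ n ν) (hl1 : ∀ ν, 1 ≤ l ν)
    (hl : ∀ ν, ∀ q : ℕ, q.Prime → q ≠ 2 → q ∣ n ν → l ν ≤ q)
    (hd : ∀ ν, IsCoprime (d ν) (NN (p ν) (n ν)))
    (hnd : ∀ ν, ∀ j : ℕ, ¬ NN (p ν) (n ν) ∣ d ν - (p ν : ℤ) ^ j)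
    (H K C P0 : ℕ) (hP0 : ∀ ν, P0 ≤ p ν) (hC : ∀ ν, C ≤ p ν)
    (hHK : ∀ p n : ℕ, P0 ≤ p → 1 ≤ n → ∀ d : ℤ, ¬ Gain p n d ((1 / 2 - ε) * n) →
      ∃ h : ℕ, 1 ≤ h ∧ h ≤ H ∧ ∃ (q : Fin K → ℕ) (u : Fin K → ℤ), (∀ i, |u i| ≤ (C : ℤ)) ∧
        NN p n ∣ (h : ℤ) * d - ∑ i, u i * (p : ℤ) ^ q i)
    (hbad : ∀ ν, ¬ Gain (p ν) (n ν) (d ν)
      (min (1 / 2 - ε) (1 / 2 - 1 / (2 * l ν)) * n ν)) : False := by
  classical
  -- the weaker form of the assumption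
  have hbad0 : ∀ ν, ¬ Gain (p ν) (n ν) (d ν) ((1 / 2 - ε) * n ν) := by
    intro ν hg
    refine hbad ν (gain_mono ?_ hg)
    have h1 : min (1 / 2 - ε) (1 / 2 - 1 / (2 * (l ν : ℝ))) ≤ 1 / 2 - ε := min_le_left _ _
    have h2 : (0 : ℝ) ≤ (n ν : ℝ) := Nat.cast_nonneg _
    nlinarith
  have hinv : ∀ ν, ∃ d' : ℤ, NN (p ν) (n ν) ∣ d ν * d' - 1 := by
    intro ν
    obtain ⟨a, b, hab⟩ := hd ν
    refine ⟨a, -b, ?_⟩
    linear_combination hab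
  choose d' hd' using hinv
  have hbad' : ∀ ν, ¬ Gain (p ν) (n ν) (d' ν) ((1 / 2 - ε) * n ν) := fun ν hg =>
    hbad0 ν (gain_inv (hp ν).two_le (hn1 ν) (hd' ν) hg)
  have h1 : ∀ ν, ∃ h : ℕ, (1 ≤ h ∧ h ≤ H) ∧ ∃ (q : Fin K → ℕ) (u : Fin K → ℤ),
      (∀ i, |u i| ≤ (C : ℤ)) ∧
        NN (p ν) (n ν) ∣ (h : ℤ) * d ν - ∑ i, u i * (p ν : ℤ) ^ q i := by
    intro ν
    obtain ⟨h, hh1, hh2, q, u, hu, hdv⟩ := hHK (p ν) (n ν) (hP0 ν) (hn1 ν) (d ν) (hbad0 ν)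
    exact ⟨h, ⟨hh1, hh2⟩, q, u, hu, hdv⟩
  have h2 : ∀ ν, ∃ h : ℕ, (1 ≤ h ∧ h ≤ H) ∧ ∃ (q : Fin K → ℕ) (u : Fin K → ℤ),
      (∀ i, |u i| ≤ (C : ℤ)) ∧
        NN (p ν) (n ν) ∣ (h : ℤ) * d' ν - ∑ i, u i * (p ν : ℤ) ^ q i := by
    intro ν
    obtain ⟨h, hh1, hh2, q, u, hu, hdv⟩ := hHK (p ν) (n ν) (hP0 ν) (hn1 ν) (d' ν) (hbad' ν)
    exact ⟨h, ⟨hh1, hh2⟩, q, u, hu, hdv⟩
  choose h hh q u hu hrel using h1
  choose h' hh' q' u' hu' hrel' using h2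
  let U : Ultrafilter ℕ := hyperfilter ℕ
  have hU : (U : Filter ℕ) ≤ atTop := Nat.hyperfilter_le_atTop
  have hc1 : ∃ h0 ∈ Set.Icc 1 H, ∀ᶠ ν in (U : Filter ℕ), h ν = h0 :=
    (Ultrafilter.eventually_exists_mem_iff (Set.finite_Icc 1 H)).mp
      (Eventually.of_forall fun ν => ⟨h ν, hh ν, rfl⟩)
  have hc2 : ∃ h0 ∈ Set.Icc 1 H, ∀ᶠ ν in (U : Filter ℕ), h' ν = h0 :=
    (Ultrafilter.eventually_exists_mem_iff (Set.finite_Icc 1 H)).mp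
      (Eventually.of_forall fun ν => ⟨h' ν, hh' ν, rfl⟩)
  obtain ⟨h0, hh0, e0⟩ := hc1
  obtain ⟨h0', hh0', e0'⟩ := hc2
  have hpos : 0 < h0 := hh0.1
  have hpos' : 0 < h0' := hh0'.1
  have hn' : ∀ m : ℕ, ∀ᶠ ν in (U : Filter ℕ), m < n ν := by
    intro m
    filter_upwards [hU (eventually_gt_atTop m)] with ν hν
    exact lt_of_lt_of_le hν (hnν ν)
  have hp' : ∀ m : ℕ, ∀ᶠ ν in (U : Filter ℕ), m < p ν := by
    intro m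
    filter_upwards [hU (eventually_gt_atTop m)] with ν hν
    exact lt_of_lt_of_le hν (hpν ν)
  have hprod : ∀ᶠ ν in (U : Filter ℕ), NN (p ν) (n ν) ∣
      (∑ i, u ν i * (p ν : ℤ) ^ q ν i) * (∑ j, u' ν j * (p ν : ℤ) ^ q' ν j) -
        ((h0 * h0' : ℕ) : ℤ) := by
    filter_upwards [e0, e0'] with ν h1 h2
    obtain ⟨a, ha⟩ := hrel ν
    obtain ⟨b, hb⟩ := hrel' ν
    obtain ⟨c, hc⟩ := hd' ν
    rw [h1] at ha
    rw [h2] at hb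
    refine ⟨h0 * h0' * c - (∑ i, u ν i * (p ν : ℤ) ^ q ν i) * b - h0' * d' ν * a, ?_⟩
    push_cast
    linear_combination (-(h0' : ℤ) * d' ν) * ha -
      (∑ i, u ν i * (p ν : ℤ) ^ q ν i) * hb + (h0 * h0' : ℤ) * hc
  have hCp : ∀ ν, (C : ℤ) ≤ p ν := fun ν => by exact_mod_cast hC ν
  obtain ⟨k, _, B, A, A', a0, b0, r, r', M, M', ha0, hb0, hsh, hsh', hA, hA', hst⟩ :=
    structure_uc U p n (fun ν => (hp ν).two_le) hn' (fun i ν => q ν i) (fun i ν => u ν i)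
      (fun i ν => q' ν i) (fun i ν => u' ν i) (fun i ν => (hu ν i).trans (hCp ν))
      (fun i ν => (hu' ν i).trans (hCp ν)) (h0 * h0') (Nat.mul_pos hpos hpos') hprod
  -- the relation for `d` and for `d'`
  have hrd : ∀ᶠ ν in (U : Filter ℕ), NN (p ν) (n ν) ∣ (h0 : ℤ) * d ν -
      ∑ a ∈ A, (p ν : ℤ) ^ r a ν * ev (p ν) (n ν) (M a ν) := by
    filter_upwards [e0, hst] with ν h3 h4
    have h5 := hrel ν
    rw [h3] at h5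
    have h6 := dvd_add h5 h4.2.2.2.2.2.2.2.2.1
    rwa [sub_add_sub_cancel] at h6
  have hrd' : ∀ᶠ ν in (U : Filter ℕ), NN (p ν) (n ν) ∣ (h0' : ℤ) * d' ν -
      ∑ b ∈ A', (p ν : ℤ) ^ r' b ν * ev (p ν) (n ν) (M' b ν) := by
    filter_upwards [e0', hst] with ν h3 h4
    have h5 := hrel' ν
    rw [h3] at h5
    have h6 := dvd_add h5 h4.2.2.2.2.2.2.2.2.2.1
    rwa [sub_add_sub_cancel] at h6
  have hAc : 1 ≤ A.card := Finset.card_pos.mpr ⟨a0, ha0⟩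
  have hAc' : 1 ≤ A'.card := Finset.card_pos.mpr ⟨b0, hb0⟩
  rcases Nat.lt_or_ge 1 A.card with hA2 | hA1
  · -- at least two classes for `d`
    obtain ⟨Q, D, N1, hmul⟩ := multi_class k (Fin K) h0 B hpos ε hε hε2
    obtain ⟨ν, h3, h4, h5, h6⟩ := (hst.and (hrd.and ((U1_far U n A r hA Q D).and (hn' N1)))).exists
    obtain ⟨g1, g2, g3, g4, g5, g6, g7, g8, g9, g10, g11⟩ := h3
    exact hbad0 ν (hmul (p ν) (hp ν) (n ν) h6.le A a0 (fun a => r a ν) (fun a => M a ν) ha0 hA2 g1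
      g3 g7 g5 h5 (d ν) h4)
  rcases Nat.lt_or_ge 1 A'.card with hA2' | hA1'
  · -- at least two classes for `d'`
    obtain ⟨Q, D, N1, hmul⟩ := multi_class k (Fin K) h0' B hpos' ε hε hε2
    obtain ⟨ν, h3, h4, h5, h6⟩ :=
      (hst.and (hrd'.and ((U1_far U n A' r' hA' Q D).and (hn' N1)))).exists
    obtain ⟨g1, g2, g3, g4, g5, g6, g7, g8, g9, g10, g11⟩ := h3
    exact hbad' ν (hmul (p ν) (hp ν) (n ν) h6.le A' b0 (fun a => r' a ν) (fun a => M' a ν) hb0 hA2'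
      g2 g4 g8 g6 h5 (d' ν) h4)
  -- one class
  have hcA : A.card = 1 := le_antisymm hA1 hAc
  have hcA' : A'.card = 1 := le_antisymm hA1' hAc'
  obtain ⟨x, hx⟩ := Finset.card_eq_one.mp hcA
  obtain ⟨x', hx'⟩ := Finset.card_eq_one.mp hcA'
  have hx0 : x = a0 := by
    rw [hx] at ha0
    exact (Finset.mem_singleton.mp ha0).symm
  have hx0' : x' = b0 := by
    rw [hx'] at hb0
    exact (Finset.mem_singleton.mp hb0).symm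
  subst hx0
  subst hx0'
  obtain ⟨n0, τ, hτ1, hτ⟩ := tn_const U n k
  have hτ' : ∀ᶠ ν in (U : Filter ℕ), ∀ c : ZMod k, tn (n ν) c = τ c := hτ.mono fun ν h => h.2
  obtain ⟨F, hF1, hF2⟩ := poly_shape U p n (fun i ν => u ν i) (C : ℤ) (fun i ν => hu ν i) τ hτ'
    (M x) (hsh x)
  obtain ⟨F', hF1', hF2'⟩ := poly_shape U p n (fun i ν => u' ν i) (C : ℤ) (fun i ν => hu' ν i) τ
    hτ' (M' x') (hsh' x')
  obtain ⟨a, b, c, hrelF⟩ := poly_relation U p n (fun ν => (hp ν).two_le) hp' τ hτ' F F' (M x)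
    (M' x') hF2 hF2' B ((h0 * h0' : ℕ) : ℤ) (hst.mono fun ν h =>
      h.2.2.2.2.2.2.2.2.2.2 hcA hcA')
  obtain ⟨C0, N1, hfin⟩ := one_class k h0 h0' B hpos hpos' F F' τ hF1 a b c hrelF
  obtain ⟨m0, hm0⟩ := exists_nat_gt (C0 / ε)
  obtain ⟨ν, h3, h4, h5, h6, h7, h8, h9, h10, h11⟩ := (hst.and (hrd.and (hrd'.and ((hn' N1).and
    ((hp' N1).and ((hn' m0).and (hτ'.and (hF2.and hF2')))))))).exists
  obtain ⟨g1, g2, g3, g4, g5, g6, g7, g8, g9, g10, g11⟩ := h3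
  rw [hx, Finset.sum_singleton] at h4
  rw [hx', Finset.sum_singleton] at h5
  have hone : OneClass (p ν) (n ν) B h0 h0' (M x ν) (M' x' ν) (d ν) (d' ν) :=
    ⟨g1 x ha0, g2 x' hb0, g11 hcA hcA', hd' ν, ⟨_, h4⟩, ⟨_, h5⟩⟩
  have hg := hfin (p ν) (hp ν) h7.le (n ν) h6.le (l ν) (hl1 ν) (hl ν) _ _ _ _ hone h9 h10 h11
    (hnd ν)
  have h12 : (0 : ℝ) ≤ (n ν : ℝ) := Nat.cast_nonneg _
  rcases hg with hg | hg
  · refine hbad ν (gain_mono ?_ hg)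
    have h13 : min (1 / 2 - ε) (1 / 2 - 1 / (2 * (l ν : ℝ))) ≤ 1 / 2 - 1 / (2 * (l ν : ℝ)) :=
      min_le_right _ _
    nlinarith
  · refine hbad0 ν (gain_mono ?_ hg)
    have h13 : C0 / ε < n ν := hm0.trans (by exact_mod_cast h8)
    rw [div_lt_iff₀ hε] at h13
    nlinarith

theorem large (ε : ℝ) (hε : 0 < ε) (hε2 : ε < 1 / 2) : ∃ N0 : ℕ, ∀ p : ℕ, p.Prime → N0 ≤ p →
    ∀ n : ℕ, N0 ≤ n → ∀ l : ℕ, 1 ≤ l → (∀ q : ℕ, q.Prime → q ≠ 2 → q ∣ n → l ≤ q) → ∀ d : ℤ,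
    IsCoprime d (NN p n) → (∀ j : ℕ, ¬ NN p n ∣ d - (p : ℤ) ^ j) →
    Gain p n d (min (1 / 2 - ε) (1 / 2 - 1 / (2 * (l : ℝ))) * n) := by
  obtain ⟨H, K, C, P0, hHK⟩ := small_multiple_bdd ε hε hε2
  by_contra hcon
  have key : ∀ ν : ℕ, ∃ (p n : ℕ) (d : ℤ) (l : ℕ), p.Prime ∧ ν + P0 + C ≤ p ∧ ν + 1 ≤ n ∧ 1 ≤ l ∧
      (∀ q : ℕ, q.Prime → q ≠ 2 → q ∣ n → l ≤ q) ∧ IsCoprime d (NN p n) ∧
      (∀ j : ℕ, ¬ NN p n ∣ d - (p : ℤ) ^ j) ∧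
      ¬ Gain p n d (min (1 / 2 - ε) (1 / 2 - 1 / (2 * (l : ℝ))) * n) := by
    intro ν
    by_contra hno
    apply hcon
    refine ⟨ν + P0 + C + 1, fun p hp hpN n hn l hl hlq d hd hnd => ?_⟩
    by_contra hg
    exact hno ⟨p, n, d, l, hp, by omega, by omega, hl, hlq, hd, hnd, hg⟩
  choose p n d l hp hpN hnN hl1 hl hd hnd hbad using key
  exact Z2_no_bad_sequence ε hε hε2 p n d l hp (fun ν => by have := hpN ν; omega)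
    (fun ν => by have := hnN ν; omega) (fun ν => by have := hnN ν; omega) hl1 hl hd hnd H K C P0
    (fun ν => by have := hpN ν; omega) (fun ν => by have := hpN ν; omega) hHK hbad

end Pool.Agent.Helper50.UC
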